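import Pool.Agent.Lib.DN.R.VO
import Pool.Agent.Lib.DK.R.RA

/-!
# Theorem DN, part R: Legendre's coordinate is algebraic at the torsion points (helper46)
-/

set_option autoImplicit false

open scoped Pointwise nonZeroDivisors

noncomputable section

namespace Pool.Agent.DN

open Pool.Agent.MuZ Pool.Agent.FW NumberField IsDedekindDomain
open Pool.Agent.DI (io ofC io_inj exists_io io_ofC ofC_io VP MP UP TP ex)

theorem alg_unit (V : ValuationSubring ℂ) (hV : ∀ y : ℂ, IsAlgebraic ℚ y → y ∈ V) {y : ℂ}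
    (hy : IsAlgebraic ℚ y) (hy0 : y ≠ 0) : V.valuation y = 1 := by
  refine le_antisymm ((V.valuation_le_one_iff y).2 (hV y hy)) ?_
  have h1 : V.valuation y⁻¹ ≤ 1 := (V.valuation_le_one_iff _).2 (hV _ hy.inv)
  by_contra hc
  exact absurd ((Valuation.val_lt_one_iff _ hy0).1 (not_le.1 hc)) (not_lt.2 h1)

theorem sRL : S_RL := by
  intro n t _ b hb T T' h z hz hzb
  by_contra hna
  obtain ⟨V, hV, hx⟩ := DK.sRA _ hna
  have hnat : ∀ j : ℕ, j ≠ 0 → V.valuation (j : ℂ) = 1 := fun j hj =>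
    alg_unit V hV (isAlgebraic_natCast j) (by exact_mod_cast hj)
  have hv : V.valuation (2 : ℂ) = 1 := by exact_mod_cast hnat 2 two_ne_zero
  obtain ⟨hg, -, -⟩ := sVLeg n t _ V.valuation hv b hb T T' h
  have hK := sVCrd n t _ V.valuation b _ _ hb hg.toICd
  obtain ⟨N, hN, hNz⟩ := (tor_iff hb).1 hz
  have hk : Kr V.valuation (Lam b) (xx b (wpC b T) (wpC b T' - wpC b T)) z := by
    right
    by_contra hc
    exact hx ((V.valuation_le_one_iff _).1 (not_lt.1 hc))
  exact hzb (hK.ker_nat hk (hnat N hN.ne') (by rw [nsmul_eq_mul]; exact hNz))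

end Pool.Agent.DN
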