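import Pool.Agent.Lib.DN.R.KmF

/-!
# The kernel of reduction above three: units, multiplication by three (helper46)
-/

set_option autoImplicit false

open scoped Pointwise nonZeroDivisors

noncomputable section

namespace Pool.Agent.DN

open Pool.Agent.MuZ Pool.Agent.FW NumberField IsDedekindDomain

section kl

variable {G F Γ : Type} [AddCommGroup G] [Field F] [LinearOrderedCommGroupWithZero Γ] {v : Valuation F Γ}
  {Λ : Set G} {x : G → F} {b2 b4 b6 b8 : F}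

/-- `W²` is a unit at the points whose double is not in the kernel. -/
theorem KLn.f3 (h : KLn v Λ x b2 b4 b6 b8) (hd : v (dsc b2 b4 b6 b8) = 1) (hv : v 3 < 1) (h2 : v b2 < 1)
    {z : G} (hz2 : ¬ Kr v Λ x (z + z)) : ¬ Kr v Λ x z ∧
      v (4 * x z ^ 3 + b2 * x z ^ 2 + 2 * b4 * x z + b6) = 1 := by
  have hz : ¬ Kr v Λ x z := fun h' => hz2 (h.kr_two h')
  have c1 : v (x z) ≤ 1 := not_lt.1 fun h' => hz (Or.inr h')
  have c2 : v (x (z + z)) ≤ 1 := not_lt.1 fun h' => hz2 (Or.inr h')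
  refine ⟨hz, ?_⟩
  have hdd := (h.dup z (fun h' => hz2 (Or.inl h'))).2
  have k := h.ss3 hd hv h2 hz
  have key : (x z - x (z + z)) * (4 * x z ^ 3 + b2 * x z ^ 2 + 2 * b4 * x z + b6) =
      3 * x z ^ 4 + b2 * x z ^ 3 + 3 * b4 * x z ^ 2 + 3 * b6 * x z + b8 := by
    linear_combination -hdd
  have hF : v (4 * x z ^ 3 + b2 * x z ^ 2 + 2 * b4 * x z + b6) ≤ 1 := by
    have h1 := h.v2
    have h3 := h.v4
    have h4 := h.v6
    repeat' first
      | assumption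
      | exact vof _ _
      | exact (Valuation.map_one _).le
      | refine vadd ?_ ?_
      | refine vsub ?_ ?_
      | refine vmul ?_ ?_
      | refine vneg ?_
      | refine vpow ?_ _
  rw [← key, v.map_mul] at k
  refine le_antisymm hF ?_
  calc (1 : Γ) = v (x z - x (z + z)) * v (4 * x z ^ 3 + b2 * x z ^ 2 + 2 * b4 * x z + b6) := k.symm
    _ ≤ 1 * v (4 * x z ^ 3 + b2 * x z ^ 2 + 2 * b4 * x z + b6) := by
        gcongr
        exact vsub c1 c2
    _ = _ := one_mul _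

/-- `W²` is in the maximal ideal at the points whose double is in the kernel. -/
theorem KLn.f3' (h : KLn v Λ x b2 b4 b6 b8) {z : G} (hz : ¬ Kr v Λ x z) (hz2 : Kr v Λ x (z + z)) :
    v (4 * x z ^ 3 + b2 * x z ^ 2 + 2 * b4 * x z + b6) < 1 := by
  have c1 : v (x z) ≤ 1 := not_lt.1 fun h' => hz (Or.inr h')
  rcases hz2 with h' | h'
  · rw [h.tw z (fun h0 => hz (Or.inl h0)) h', v.map_zero]
    exact zero_lt_one
  · by_cases h0 : z + z ∈ Λ
    · rw [h.tw z (fun h0 => hz (Or.inl h0)) h0, v.map_zero]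
      exact zero_lt_one
    have hd := congrArg v (h.dup z h0).2
    rw [v.map_mul] at hd
    have hg : v (x z ^ 4 - b4 * x z ^ 2 - 2 * b6 * x z - b8) ≤ 1 := by
      have h1 := h.v8
      have h3 := h.v4
      have h4 := h.v6
      repeat' first
        | assumption
        | exact vof _ _
        | exact (Valuation.map_one _).le
        | refine vadd ?_ ?_
        | refine vsub ?_ ?_
        | refine vmul ?_ ?_
        | refine vneg ?_
        | refine vpow ?_ _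
    rw [← hd] at hg
    by_contra hc
    have h5 := not_lt.1 hc
    have : 1 < v (x (z + z)) * v (4 * x z ^ 3 + b2 * x z ^ 2 + 2 * b4 * x z + b6) := by
      calc (1 : Γ) < v (x (z + z)) := h'
        _ = v (x (z + z)) * 1 := (mul_one _).symm
        _ ≤ _ := by gcongr
    exact absurd hg (not_le.2 this)

/-- The polynomial identity for the multiplication by three, `c = d - 1`. -/
theorem nine_id (x d : F) :
    2 * (x ^ 4 - 2 * (d - 1) ^ 2 * x ^ 2 + (d - 1) ^ 4) * x * ((x ^ 4 - 2 * (d - 1) ^ 2 * x ^ 2 + (d - 1) ^ 4) +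
      x * (4 * x ^ 3 + (1 - 8 * (d - 1)) * x ^ 2 + 2 * (2 * (d - 1) ^ 2) * x)) +
    (1 - 8 * (d - 1)) * x * (x ^ 4 - 2 * (d - 1) ^ 2 * x ^ 2 + (d - 1) ^ 4) *
      (4 * x ^ 3 + (1 - 8 * (d - 1)) * x ^ 2 + 2 * (2 * (d - 1) ^ 2) * x) +
    2 * (d - 1) ^ 2 * ((x ^ 4 - 2 * (d - 1) ^ 2 * x ^ 2 + (d - 1) ^ 4) +
      x * (4 * x ^ 3 + (1 - 8 * (d - 1)) * x ^ 2 + 2 * (2 * (d - 1) ^ 2) * x)) *
        (4 * x ^ 3 + (1 - 8 * (d - 1)) * x ^ 2 + 2 * (2 * (d - 1) ^ 2) * x) -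
    x * (3 * x ^ 4 + (1 - 8 * (d - 1)) * x ^ 3 + 3 * (2 * (d - 1) ^ 2) * x ^ 2 - (d - 1) ^ 4) ^ 2 - x ^ 9 =
    3 * ((-4) * x ^ 7 + (-6) * x ^ 6 + 10 * x ^ 5 + 36 * x ^ 4 + 39 * x ^ 3 + 18 * x ^ 2 + 3 * x) +
    d * ((-12 * d + 24) * x ^ 7 +
    (16 * d ^ 2 - 50 * d + 52) * x ^ 6 +
    (30 * d ^ 3 - 120 * d ^ 2 + 180 * d - 120) * x ^ 5 +
    (-96 * d ^ 4 + 492 * d ^ 3 - 1008 * d ^ 2 + 1032 * d - 528) * x ^ 4 +
    (100 * d ^ 5 - 616 * d ^ 4 + 1581 * d ^ 3 - 2164 * d ^ 2 + 1666 * d - 684) * x ^ 3 +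
    (-48 * d ^ 6 + 342 * d ^ 5 - 1044 * d ^ 4 + 1770 * d ^ 3 - 1800 * d ^ 2 + 1098 * d - 372) * x ^ 2 +
    (9 * d ^ 7 - 72 * d ^ 6 + 252 * d ^ 5 - 504 * d ^ 4 + 630 * d ^ 3 - 504 * d ^ 2 + 252 * d - 72) * x) := by
  ring

/-- The identity modulo the maximal ideal. -/
theorem nine_val {x d : F} (hv : v 3 < 1) (hx : v x ≤ 1) (hd : v d < 1) :
    v (3 * ((-4) * x ^ 7 + (-6) * x ^ 6 + 10 * x ^ 5 + 36 * x ^ 4 + 39 * x ^ 3 + 18 * x ^ 2 + 3 * x) +
    d * ((-12 * d + 24) * x ^ 7 +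
    (16 * d ^ 2 - 50 * d + 52) * x ^ 6 +
    (30 * d ^ 3 - 120 * d ^ 2 + 180 * d - 120) * x ^ 5 +
    (-96 * d ^ 4 + 492 * d ^ 3 - 1008 * d ^ 2 + 1032 * d - 528) * x ^ 4 +
    (100 * d ^ 5 - 616 * d ^ 4 + 1581 * d ^ 3 - 2164 * d ^ 2 + 1666 * d - 684) * x ^ 3 +
    (-48 * d ^ 6 + 342 * d ^ 5 - 1044 * d ^ 4 + 1770 * d ^ 3 - 1800 * d ^ 2 + 1098 * d - 372) * x ^ 2 +
    (9 * d ^ 7 - 72 * d ^ 6 + 252 * d ^ 5 - 504 * d ^ 4 + 630 * d ^ 3 - 504 * d ^ 2 + 252 * d - 72) * x)) < 1 := by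
  have hd' := hd.le
  refine madd (mmulr hv ?_) (mmulr hd ?_)
  · repeat' first
      | assumption
      | exact vof _ _
      | exact (Valuation.map_one _).le
      | refine vadd ?_ ?_
      | refine vsub ?_ ?_
      | refine vmul ?_ ?_
      | refine vneg ?_
      | refine vpow ?_ _
  · repeat' first
      | assumption
      | exact vof _ _
      | exact (Valuation.map_one _).le
      | refine vadd ?_ ?_
      | refine vsub ?_ ?_
      | refine vmul ?_ ?_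
      | refine vneg ?_
      | refine vpow ?_ _

/-- **Multiplication by three is the ninth power.** -/
theorem KLn.nine {c : F} (h : KLn v Λ x (1 - 8 * c) (2 * c ^ 2) 0 (-c ^ 4))
    (hd : v (dsc (1 - 8 * c) (2 * c ^ 2) 0 (-c ^ 4)) = 1) (hv : v 3 < 1) (hc : v (c + 1) < 1) {z : G}
    (hz : ¬ Kr v Λ x z) : v (x (z + z + z) - x z ^ 9) < 1 := by
  have c1 : v (x z) ≤ 1 := not_lt.1 fun h' => hz (Or.inr h')
  have vc : v c ≤ 1 := by
    have : c = (c + 1) - 1 := by ring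
    rw [this]
    exact vsub hc.le v.map_one.le
  have h2 : v (1 - 8 * c) < 1 := by
    have : 1 - 8 * c = 3 * 3 - 8 * (c + 1) := by ring
    rw [this]
    exact msub (mmulr hv (vof v 3)) (mmul (vof v 8) hc)
  by_cases hz2 : Kr v Λ x (z + z)
  · have e : z + z + z = z + (z + z) := by abel
    have hr := h.red hz hz2
    rw [← e] at hr
    have hf := h.f3' hz hz2
    have h3 : v (x z ^ 3 + x z) < 1 := by
      have : x z ^ 3 + x z = (4 * x z ^ 3 + (1 - 8 * c) * x z ^ 2 + 2 * (2 * c ^ 2) * x z + 0) -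
        (3 * x z ^ 3 + (1 - 8 * c) * x z ^ 2 + 3 * x z + 4 * ((c + 1) * ((c - 1) * x z))) := by ring
      rw [this]
      refine msub hf (madd (madd (madd (mmulr hv (vpow c1 3)) (mmulr h2 (vpow c1 2))) (mmulr hv c1)) ?_)
      exact mmul (vof v 4) (mmulr hc (vmul (vsub vc v.map_one.le) c1))
    have h4 : v (x z ^ 9 - x z) < 1 := by
      have : x z ^ 9 - x z = (x z ^ 3 + x z) * ((x z ^ 2 - 1) * (x z ^ 4 + 1)) := by ring
      rw [this]
      refine mmulr h3 ?_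
      repeat' first
        | assumption
        | exact vof _ _
        | exact (Valuation.map_one _).le
        | refine vadd ?_ ?_
        | refine vsub ?_ ?_
        | refine vmul ?_ ?_
        | refine vneg ?_
        | refine vpow ?_ _
    have : x (z + z + z) - x z ^ 9 = (x (z + z + z) - x z) - (x z ^ 9 - x z) := by ring
    rw [this]
    exact msub hr h4
  · have h2' : v (x (z + z)) ≤ 1 := not_lt.1 fun h' => hz2 (Or.inr h')
    obtain ⟨-, hF⟩ := h.f3 hd hv h2 hz2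
    have hz0 : z ∉ Λ := fun h' => hz (Or.inl h')
    have hz20 : z + z ∉ Λ := fun h' => hz2 (Or.inl h')
    have hz3 : ¬ Kr v Λ x (z + z + z) := fun h' => by
      have k := h.psi3 hz h'
      rw [h.ss3 hd hv h2 hz] at k
      exact lt_irrefl _ k
    have h3' : v (x (z + z + z)) ≤ 1 := not_lt.1 fun h' => hz3 (Or.inr h')
    have hdd := (h.dup z hz20).2
    have hk := h.kad (z + z) z hz20 hz0 (fun h' => hz3 (Or.inl h')) (by rwa [add_sub_cancel_right])
    rw [add_sub_cancel_right] at hk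
    obtain ⟨d, hdc⟩ : ∃ d : F, d = c + 1 := ⟨_, rfl⟩
    have hcd : c = d - 1 := by rw [hdc]; ring
    have vd : v d < 1 := by rw [hdc]; exact hc
    set y := x z with hy
    set y2 := x (z + z) with hy2
    set y3 := x (z + z + z) with hy3
    have id9 := nine_id y d
    have val9 := nine_val hv c1 vd
    rw [← id9, ← hcd] at val9
    have psq : v ((3 * y ^ 4 + (1 - 8 * c) * y ^ 3 + 3 * (2 * c ^ 2) * y ^ 2 - c ^ 4) ^ 2 - 1) < 1 := by
      have : (3 * y ^ 4 + (1 - 8 * c) * y ^ 3 + 3 * (2 * c ^ 2) * y ^ 2 - c ^ 4) ^ 2 - 1 =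
        (3 * (y ^ 4 + 2 * c ^ 2 * y ^ 2) + (1 - 8 * c) * y ^ 3) *
          (3 * (y ^ 4 + 2 * c ^ 2 * y ^ 2) + (1 - 8 * c) * y ^ 3 - 2 * c ^ 4) +
        (c + 1) * ((c - 1) * (c ^ 2 + 1) * (c ^ 4 + 1)) := by ring
      rw [this]
      refine madd (mmulr (madd (mmulr hv ?_) (mmulr h2 (vpow c1 3))) ?_) (mmulr hc ?_)
      · repeat' first
          | assumption
          | exact vof _ _
          | exact (Valuation.map_one _).le
          | refine vadd ?_ ?_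
          | refine vsub ?_ ?_
          | refine vmul ?_ ?_
          | refine vneg ?_
          | refine vpow ?_ _
      · have := h2.le
        repeat' first
          | assumption
          | exact vof _ _
          | exact (Valuation.map_one _).le
          | refine vadd ?_ ?_
          | refine vsub ?_ ?_
          | refine vmul ?_ ?_
          | refine vneg ?_
          | refine vpow ?_ _
      · repeat' first
          | assumption
          | exact vof _ _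
          | exact (Valuation.map_one _).le
          | refine vadd ?_ ?_
          | refine vsub ?_ ?_
          | refine vmul ?_ ?_
          | refine vneg ?_
          | refine vpow ?_ _
    have key : y3 - y ^ 9 = -(y3 * ((3 * y ^ 4 + (1 - 8 * c) * y ^ 3 + 3 * (2 * c ^ 2) * y ^ 2 - c ^ 4) ^ 2 - 1)) +
      (2 * (y ^ 4 - 2 * c ^ 2 * y ^ 2 + c ^ 4) * y * ((y ^ 4 - 2 * c ^ 2 * y ^ 2 + c ^ 4) +
      y * (4 * y ^ 3 + (1 - 8 * c) * y ^ 2 + 2 * (2 * c ^ 2) * y)) +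
    (1 - 8 * c) * y * (y ^ 4 - 2 * c ^ 2 * y ^ 2 + c ^ 4) *
      (4 * y ^ 3 + (1 - 8 * c) * y ^ 2 + 2 * (2 * c ^ 2) * y) +
    2 * c ^ 2 * ((y ^ 4 - 2 * c ^ 2 * y ^ 2 + c ^ 4) +
      y * (4 * y ^ 3 + (1 - 8 * c) * y ^ 2 + 2 * (2 * c ^ 2) * y)) *
        (4 * y ^ 3 + (1 - 8 * c) * y ^ 2 + 2 * (2 * c ^ 2) * y) -
    y * (3 * y ^ 4 + (1 - 8 * c) * y ^ 3 + 3 * (2 * c ^ 2) * y ^ 2 - c ^ 4) ^ 2 - y ^ 9) := by
      obtain ⟨F0, hF0⟩ : ∃ F0 : F, F0 = 4 * y ^ 3 + (1 - 8 * c) * y ^ 2 + 2 * (2 * c ^ 2) * y := ⟨_, rfl⟩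
      obtain ⟨g0, hg0⟩ : ∃ g0 : F, g0 = y ^ 4 - 2 * c ^ 2 * y ^ 2 + c ^ 4 := ⟨_, rfl⟩
      have e1 : y2 * F0 = g0 := by
        rw [hF0, hg0]
        linear_combination hdd
      have e2 : 3 * y ^ 4 + (1 - 8 * c) * y ^ 3 + 3 * (2 * c ^ 2) * y ^ 2 - c ^ 4 = y * F0 - g0 := by
        rw [hF0, hg0]
        ring
      rw [e2, ← hF0, ← hg0, ← e1]
      linear_combination (F0 ^ 2) * hk
    rw [key]
    exact madd (mneg (mmul h3' psq)) val9

end kl

end Pool.Agent.DN
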