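import Pool.Agent.Lib.DN.R.VO

/-!
# Theorem DN, part R: valuations above two (helper46)
-/

set_option autoImplicit false

open scoped Pointwise nonZeroDivisors

noncomputable section

namespace Pool.Agent.DN

open Pool.Agent.MuZ Pool.Agent.FW NumberField IsDedekindDomain
open Pool.Agent.DI (io ofC io_inj exists_io io_ofC ofC_io VP MP UP TP ex)

section

variable {n t : ℕ} {Γ : Type} [LinearOrderedCommGroupWithZero Γ] {v : Valuation ℂ Γ}

theorem v_odd {F Γ : Type} [Field F] [LinearOrderedCommGroupWithZero Γ] {v : Valuation F Γ} (hv : v 2 < 1)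
    {j : ℕ} (hj : Odd j) : v (j : F) = 1 := by
  obtain ⟨k, rfl⟩ := hj
  refine vone ?_
  have : ((2 * k + 1 : ℕ) : F) - 1 = 2 * (k : F) := by
    push_cast
    ring
  rw [this]
  exact mmulr hv (vnat v k)

/-- Points of odd order are not in the kernel. -/
theorem odd_not (hv : v 2 < 1) {b : Ideal (OO n t)} {x : ℂ → ℂ} {b2 b4 b6 b8 : ℂ}
    (h : KLn v (Lam b) x b2 b4 b6 b8) {z : ℂ} (hz : z ∉ Lam b) {N : ℕ} (hN : Odd N)
    (hNz : (N : ℂ) * z ∈ Lam b) : ¬ Kr v (Lam b) x z := fun hk =>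
  hz (h.ker_nat hk (v_odd hv hN) (by rw [nsmul_eq_mul]; exact hNz))

theorem sum_odd [SqN n t] {b : Ideal (OO n t)} (hb : b ≠ ⊥) {e s : ℂ} (hi : ICd v b e s)
    {c : OO n t} (hc0 : c ≠ 0) {z z' : ℂ} (hz : z ∉ Lam (sp c * b)) (hz' : z' ∉ Lam (sp c * b))
    (h1 : ∀ u ∈ Lam (sp c * b), u ∉ Lam b → ¬ Kr v (Lam b) (xx b e s) (z + u))
    (h2 : ∀ u ∈ Lam (sp c * b), u ∉ Lam b → ¬ Kr v (Lam b) (xx b e s) (z' + u)) :
    v (toC c ^ 2 * (xx b e s (toC c * z) - xx b e s (toC c * z')) - (xx b e s z - xx b e s z')) ≤ 1 := by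
  classical
  obtain ⟨-, -, R, hR, -⟩ := aL3 n t (sp c) b (sp_ne hc0) hb
  have h9 := (aB9 n t (sp c) b (sp_ne hc0) hb R hR).1 z z' hz hz'
  have h7 := (aB7 n t b hb).1 c hc0
  rw [(h7.1 z).1, (h7.1 z').1] at h9
  obtain ⟨u₀, hu₀, h0⟩ := hR.ex 0 (lam_zero _)
  have hu₀' : u₀ ∈ Lam b := by
    have := lam_neg h0
    simpa using this
  have e1 : toC c ^ 2 * (xx b e s (toC c * z) - xx b e s (toC c * z')) =
      ∑ u ∈ R, (xx b e s (z + u) - xx b e s (z' + u)) := by
    have : ∑ u ∈ R, (xx b e s (z + u) - xx b e s (z' + u)) =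
        (∑ u ∈ R, (wpC b (z + u) - wpC b (z' + u))) / s := by
      rw [Finset.sum_div]
      refine Finset.sum_congr rfl fun u _ => ?_
      unfold xx
      ring
    rw [this, ← h9]
    unfold xx
    ring
  rw [e1, ← Finset.add_sum_erase R _ hu₀]
  have e2 : ∀ y : ℂ, xx b e s (y + u₀) = xx b e s y := by
    intro y
    unfold xx
    rw [wpC_add hb y hu₀']
  rw [e2, e2]
  have e3 : xx b e s z - xx b e s z' + ∑ u ∈ R.erase u₀, (xx b e s (z + u) - xx b e s (z' + u)) -
      (xx b e s z - xx b e s z') = ∑ u ∈ R.erase u₀, (xx b e s (z + u) - xx b e s (z' + u)) := by ring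
  rw [e3]
  refine vsum _ _ fun u hu => ?_
  obtain ⟨hne, hu'⟩ := Finset.mem_erase.1 hu
  have hub : u ∉ Lam b := fun h => hne (hR.uni u hu' u₀ hu₀ (lam_sub h hu₀'))
  have hum := hR.mem u hu'
  refine vsub (not_lt.1 fun h => h1 u hum hub (Or.inr h)) (not_lt.1 fun h => h2 u hum hub (Or.inr h))

/-- Multiplication by `w` does not change the valuation at the points of order two in the kernel. -/
theorem two_w [h : Ine n t] (hv : v 2 < 1) {b : Ideal (OO n t)} (hG : G15 b) {e s : ℂ} (hi : ICd v b e s)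
    {T : ℂ} (h1 : 2 * T ∈ Lam b) (h2 : T ∉ Lam b) (hT : 1 < v (xx b e s T)) :
    v (xx b e s (toC (wI n t) * T)) = v (xx b e s T) := by
  have hb := hG.ne
  have hK := sVCrd n t Γ v b e s hb hi
  have hpr : PrI (sp (wI n t)) 2 := ((aO6 n t).2.2.2.1 2 (wI n t) two_pos).2 wI_odd
  have hw0 : wI n t ≠ 0 := wI_ne
  have hb3 : PrI b 3 := ((aO6 n t).2.1 3 5 b).1 hG.cop |>.1
  have hρ : ∀ c : OO n t, ¬ (3 : OO n t) ∣ c → toC c * (1 / 3) ∉ Lam b := by
    intro c hc hmem
    apply hc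
    have := (aL6.1 n t b 3 hb (by norm_num) hb3 c).1 (by
      have e1 : toC c / ((3 : ℕ) : ℂ) = toC c * (1 / 3) := by
        push_cast
        ring
      rw [e1]
      exact hmem)
    exact_mod_cast this
  have hw3 : ¬ (3 : OO n t) ∣ wI n t := by
    intro hd
    have h7 := ((nat_dvd_iff 3 (wI n t)).1 (by exact_mod_cast hd)).2
    simp only [wI] at h7
    norm_num at h7
  have hρ3 : (1 / 3 : ℂ) ∉ Lam (sp (wI n t) * b) := fun h' => hρ _ hw3 (lam_sp.1 h')
  have one_mem : ∀ c : OO n t, toC c ∈ Lam b := fun c => fun u _ => ⟨u * c, by rw [toC_mul]⟩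
  have hNo : Odd (NI (sp (wI n t))) := NI_odd hpr
  -- the odd torsion points
  have hodd : ∀ u ∈ Lam (sp (wI n t) * b), u ∉ Lam b → ¬ Kr v (Lam b) (xx b e s) u := fun u hu hub =>
    odd_not hv hK hub hNo (NI_lam hu)
  have hA : ∀ u ∈ Lam (sp (wI n t) * b), u ∉ Lam b → ¬ Kr v (Lam b) (xx b e s) (T + u) := by
    intro u hu hub hk
    apply hodd u hu hub
    have := hK.kr_sub hk (Or.inr hT : Kr v (Lam b) (xx b e s) T)
    rwa [add_sub_cancel_left] at this
  have hB : ∀ u ∈ Lam (sp (wI n t) * b), u ∉ Lam b → ¬ Kr v (Lam b) (xx b e s) (1 / 3 + u) := by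
    intro u hu hub
    refine odd_not hv hK ?_ (N := 3 * NI (sp (wI n t))) ((by decide : Odd 3).mul hNo) ?_
    · intro h'
      apply hρ3
      have : (1 / 3 : ℂ) = (1 / 3 + u) - u := by ring
      rw [this]
      exact lam_sub (lam_mono h') hu
    · have e1 : ((3 * NI (sp (wI n t)) : ℕ) : ℂ) * (1 / 3 + u) =
          toC ((NI (sp (wI n t)) : ℕ) : OO n t) + 3 * ((NI (sp (wI n t)) : ℂ) * u) := by
        rw [toC_nat]
        push_cast
        ring
      rw [e1]
      refine lam_add (one_mem _) ?_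
      have := lam_nat 3 (NI_lam hu)
      exact_mod_cast this
  have hs := sum_odd hb hi hw0 (two_not (sp_ne hw0) hb hpr h1 h2) hρ3 hA hB
  have hr1 : v (xx b e s (1 / 3)) ≤ 1 := by
    have := odd_not hv hK (z := 1 / 3) (fun h' => hρ3 (lam_mono h')) (N := 3) (by decide) (by
      have : ((3 : ℕ) : ℂ) * (1 / 3) = toC (1 : OO n t) := by
        rw [toC_one]
        norm_num
      rw [this]
      exact one_mem 1)
    exact not_lt.1 fun h' => this (Or.inr h')
  have hr2 : v (xx b e s (toC (wI n t) * (1 / 3))) ≤ 1 := by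
    have := odd_not hv hK (hρ _ hw3) (N := 3) (by decide) (by
      have : ((3 : ℕ) : ℂ) * (toC (wI n t) * (1 / 3)) = toC (wI n t) := by
        push_cast
        ring
      rw [this]
      exact one_mem _)
    exact not_lt.1 fun h' => this (Or.inr h')
  have hcn : v (toC (wI n t)) = 1 := by
    refine v_toC_one ?_
    have hn : Nm (wI n t) = n := by
      unfold Nm
      simp only [wI]
      ring
    rw [hn, Int.cast_natCast]
    exact v_odd hv (Nat.odd_iff.2 h.odd)
  have key : v (toC (wI n t) ^ 2 * xx b e s (toC (wI n t) * T) - xx b e s T) ≤ 1 := by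
    have e1 : toC (wI n t) ^ 2 * xx b e s (toC (wI n t) * T) - xx b e s T =
        (toC (wI n t) ^ 2 * (xx b e s (toC (wI n t) * T) - xx b e s (toC (wI n t) * (1 / 3))) -
          (xx b e s T - xx b e s (1 / 3))) +
        (toC (wI n t) ^ 2 * xx b e s (toC (wI n t) * (1 / 3)) - xx b e s (1 / 3)) := by ring
    rw [e1]
    exact vadd hs (vsub (vmul (vpow hcn.le 2) hr2) hr1)
  have h3 : v (toC (wI n t) ^ 2 * xx b e s (toC (wI n t) * T)) = v (xx b e s T) := by
    have e1 : toC (wI n t) ^ 2 * xx b e s (toC (wI n t) * T) =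
        (toC (wI n t) ^ 2 * xx b e s (toC (wI n t) * T) - xx b e s T) + xx b e s T := by ring
    rw [e1]
    exact v.map_add_eq_of_lt_right (lt_of_le_of_lt key hT)
  rw [v.map_mul, v.map_pow, hcn, one_pow, one_mul] at h3
  exact h3

/-- All points of order two have the same valuation if one of them is in the kernel. -/
theorem two_all [h : Ine n t] (hv : v 2 < 1) {b : Ideal (OO n t)} (hG : G15 b) {e s : ℂ} (hi : ICd v b e s)
    {T T' : ℂ} (hT : Ord2 b T T') (h1 : 1 < v (xx b e s T)) :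
    v (xx b e s T') = v (xx b e s T) ∧ v (xx b e s (T + T')) = v (xx b e s T) := by
  have hb := hG.ne
  have hK := sVCrd n t Γ v b e s hb hi
  have hpr : PrI (sp (wI n t)) 2 := ((aO6 n t).2.2.2.1 2 (wI n t) two_pos).2 wI_odd
  have a1 := two_w hv hG hi hT.t1 hT.t2 h1
  have hm := hT.ml hb (wI_ne (n := n) (t := t)) hpr
  have a2 := two_w hv hG hi hm.t1 hm.t2 (by rw [a1]; exact h1)
  rw [a1] at a2
  -- `w (w T) = w T - n T`, congruent to `w T + T`
  have e2 : xx b e s (toC (wI n t) * (toC (wI n t) * T)) = xx b e s (toC (wI n t) * T + T) := by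
    refine hK.ev _ _ (Or.inl ?_)
    have hsq := wC_sq (n := n) (t := t)
    have ht := h.one
    obtain ⟨k, hk⟩ := Nat.odd_iff.2 h.odd
    have e3 : toC (wI n t) * (toC (wI n t) * T) - (toC (wI n t) * T + T) =
        toC (-((k : OO n t) + 1)) * (2 * T) := by
      rw [toC_wI, toC_neg, toC_add, toC_nat, toC_one]
      have : wC n t * (wC n t * T) = wC n t ^ 2 * T := by ring
      rw [this, hsq]
      have hkc : (n : ℂ) = 2 * k + 1 := by exact_mod_cast hk
      have htc : (t : ℂ) = 1 := by exact_mod_cast ht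
      rw [hkc, htc]
      ring
    rw [e3]
    exact lam_mul _ hT.t1
  rw [e2] at a2
  rcases hT.w hb with h3 | h3
  · have e4 : xx b e s (toC (wI n t) * T) = xx b e s T' := hK.ev _ _ (Or.inl h3)
    have e5 : xx b e s (toC (wI n t) * T + T) = xx b e s (T + T') := hK.ev _ _ (Or.inl (by
      have : toC (wI n t) * T + T - (T + T') = toC (wI n t) * T - T' := by ring
      rw [this]
      exact h3))
    rw [e4] at a1
    rw [e5] at a2
    exact ⟨a1, a2⟩
  · have e4 : xx b e s (toC (wI n t) * T) = xx b e s (T + T') := hK.ev _ _ (Or.inl h3)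
    have e5 : xx b e s (toC (wI n t) * T + T) = xx b e s T' := hK.ev _ _ (Or.inl (by
      have : toC (wI n t) * T + T - T' = (toC (wI n t) * T - (T + T')) + 2 * T := by ring
      rw [this]
      exact lam_add h3 hT.t1))
    rw [e4] at a1
    rw [e5] at a2
    exact ⟨a2, a1⟩

/-- The scaled model. -/
theorem mod_c [SqN n t] {b : Ideal (OO n t)} (hG : G15 b) {r : ℂ} (hr : r ≠ 0) :
    c2 (wpC b (1 / 3)) (fr b ^ 2 * r ^ 2) = A1 b ^ 2 / r ^ 2 ∧
    c4 b (wpC b (1 / 3)) (fr b ^ 2 * r ^ 2) = A1 b * A3 b / r ^ 4 ∧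
    c6 b (wpC b (1 / 3)) (fr b ^ 2 * r ^ 2) = A3 b ^ 2 / r ^ 6 ∧
    c8 b (wpC b (1 / 3)) (fr b ^ 2 * r ^ 2) = 0 ∧ fr b ^ 2 * r ^ 2 ≠ 0 ∧
    dsc (c2 (wpC b (1 / 3)) (fr b ^ 2 * r ^ 2)) (c4 b (wpC b (1 / 3)) (fr b ^ 2 * r ^ 2))
      (c6 b (wpC b (1 / 3)) (fr b ^ 2 * r ^ 2)) (c8 b (wpC b (1 / 3)) (fr b ^ 2 * r ^ 2)) =
      A3 b ^ 3 * (A1 b ^ 3 - 27 * A3 b) / r ^ 12 ∧
    ∀ z : ℂ, xx b (wpC b (1 / 3)) (fr b ^ 2 * r ^ 2) z = XC b z / r ^ 2 := by
  obtain ⟨hf, h3, hd, he, -, -, -, hg2, hg3⟩ := (aB1 n t b hG.ne).2.2.2.2.2 hG.cop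
  have e2 : c2 (wpC b (1 / 3)) (fr b ^ 2 * r ^ 2) = A1 b ^ 2 / r ^ 2 := by
    unfold c2
    rw [he]
    field_simp
  have e4 : c4 b (wpC b (1 / 3)) (fr b ^ 2 * r ^ 2) = A1 b * A3 b / r ^ 4 := by
    unfold c4
    rw [he, hg2]
    field_simp
    ring
  have e6 : c6 b (wpC b (1 / 3)) (fr b ^ 2 * r ^ 2) = A3 b ^ 2 / r ^ 6 := by
    unfold c6
    rw [he, hg2, hg3]
    field_simp
    ring
  have e8 : c8 b (wpC b (1 / 3)) (fr b ^ 2 * r ^ 2) = 0 := by
    unfold c8
    rw [e2, e4, e6]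
    field_simp
    ring
  refine ⟨e2, e4, e6, e8, mul_ne_zero (pow_ne_zero 2 hf) (pow_ne_zero 2 hr), ?_, ?_⟩
  · rw [e2, e4, e6, e8]
    unfold dsc
    field_simp
    ring
  · intro z
    unfold xx XC
    field_simp

/-- The sum and the product of the values at the points of order two. -/
theorem Ord2.sp3 [SqN n t] {b : Ideal (OO n t)} (hb : b ≠ ⊥) {T T' : ℂ} (h : Ord2 b T T') {e s : ℂ}
    (hs : s ≠ 0) : c2 e s = -4 * (xx b e s T + xx b e s T' + xx b e s (T + T')) ∧
      c6 b e s = -4 * (xx b e s T * xx b e s T' * xx b e s (T + T')) := by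
  obtain ⟨h1, -, h3, h4⟩ := h.g hb
  constructor
  · unfold c2 xx
    rw [h1]
    field_simp
    ring
  · unfold c6 xx
    rw [h1, h3, h4]
    field_simp
    ring

/-- If the product or the sum has a pole then one of the points is in the kernel; up to the order. -/
theorem exists_big [SqN n t] {b : Ideal (OO n t)} (hb : b ≠ ⊥) {e s : ℂ} (hs : s ≠ 0)
    (h : 1 < v (c2 e s / 4) ∨ 1 < v (c6 b e s / 4)) :
    ∃ T T' : ℂ, Ord2 b T T' ∧ 1 < v (xx b e s T) := by
  obtain ⟨T, T', hT⟩ := ex_ord2 hb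
  by_contra hcon
  push_neg at hcon
  have a1 : v (xx b e s T) ≤ 1 := hcon T T' hT
  have a2 : v (xx b e s T') ≤ 1 := hcon T' T hT.sy
  have a3 : v (xx b e s (T + T')) ≤ 1 := hcon (T + T') T hT.rot.sy
  obtain ⟨k1, k2⟩ := hT.sp3 hb hs
  rcases h with h | h
  · have e1 : c2 e s / 4 = -(xx b e s T + xx b e s T' + xx b e s (T + T')) := by rw [k1]; ring
    rw [e1] at h
    exact absurd (vneg (vadd (vadd a1 a2) a3)) (not_le.2 h)
  · have e1 : c6 b e s / 4 = -(xx b e s T * xx b e s T' * xx b e s (T + T')) := by rw [k2]; ring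
    rw [e1] at h
    exact absurd (vneg (vmul (vmul a1 a2) a3)) (not_le.2 h)

end

theorem sVTwo : S_VTwo := by
  intro n t hI Γ _ v hv b hG
  have hb := hG.ne
  obtain ⟨hf, h30, hd, he, hx3, hx5, hv3, hg2, hg3⟩ := (aB1 n t b hG.ne).2.2.2.2.2 hG.cop
  have h4v : v (4 : ℂ) < 1 := by
    have : (4 : ℂ) = 2 * 2 := by norm_num
    rw [this]
    exact mmul hv.le hv
  have h40 : (4 : ℂ) ≠ 0 := by norm_num
  have h4p : 1 < (v (4 : ℂ))⁻¹ := by
    rw [← v.map_inv]
    exact lt_inv h40 h4v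
  rcases lt_or_ge (v (A3 b)) (v (A1 b) ^ 3) with hcase | hcase
  · -- case 1
    exfalso
    have h10 : A1 b ≠ 0 := by
      intro h0
      rw [h0, v.map_zero, zero_pow three_ne_zero] at hcase
      exact not_lt_zero hcase
    obtain ⟨e2, e4, e6, e8, es, -, -⟩ := mod_c hG h10
    set e := wpC b (1 / 3)
    set s := fr b ^ 2 * A1 b ^ 2
    set a := A3 b / A1 b ^ 3 with ha
    have ha1 : v a < 1 := by
      rw [ha, v.map_div, v.map_pow]
      exact (div_lt_one₀ (pow_pos (zero_lt_iff.2 ((v.ne_zero_iff).2 h10)) 3)).2 hcase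
    have f2 : c2 e s = 1 := by rw [e2]; exact div_self (pow_ne_zero 2 h10)
    have f4 : c4 b e s = a := by rw [e4, ha]; field_simp
    have f6 : c6 b e s = a ^ 2 := by rw [e6, ha]; field_simp
    have hi : ICd v b e s := by
      refine ⟨es, ?_, ?_, ?_, ?_⟩
      · rw [f2, v.map_one]
      · rw [f4]; exact ha1.le
      · rw [f6]; exact vpow ha1.le 2
      · rw [e8, v.map_zero]; exact zero_le_one
    obtain ⟨T, T', hT, h1⟩ := exists_big (v := v) hb es (Or.inl (by
      rw [f2, v.map_div, v.map_one, one_div]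
      exact h4p))
    obtain ⟨h2, h3⟩ := two_all hv hG hi hT h1
    obtain ⟨k1, k2⟩ := hT.sp3 hb es
    have k3 : xx b e s T * xx b e s T' * xx b e s (T + T') =
        a ^ 2 * (xx b e s T + xx b e s T' + xx b e s (T + T')) := by
      rw [f2] at k1
      rw [f6] at k2
      have : (-4 : ℂ) ≠ 0 := by norm_num
      apply mul_left_cancel₀ this
      rw [← k2]
      linear_combination a ^ 2 * k1
    set ρ := v (xx b e s T) with hρ
    have hρ0 : 0 < ρ := lt_trans zero_lt_one h1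
    have k4 := congrArg v k3
    rw [v.map_mul, v.map_mul, h2, h3] at k4
    have k5 : v (xx b e s T + xx b e s T' + xx b e s (T + T')) ≤ ρ :=
      v.map_add_le (v.map_add_le le_rfl h2.le) h3.le
    have k6 : v (a ^ 2 * (xx b e s T + xx b e s T' + xx b e s (T + T'))) ≤ ρ := by
      rw [v.map_mul]
      exact le_trans (mul_le_of_le_one_left' (vpow ha1.le 2)) k5
    rw [← k4] at k6
    have k7 : ρ < ρ * ρ * ρ := by
      have h5 : 1 < ρ * ρ := one_lt_mul_of_lt_of_le' h1 h1.le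
      calc ρ = 1 * ρ := (one_mul ρ).symm
        _ < ρ * ρ * ρ := by gcongr
    exact absurd k6 (not_le.2 k7)
  · -- case 2
    obtain ⟨r, hr⟩ : ∃ r : ℂ, r ^ 3 = A3 b := IsAlgClosed.exists_pow_nat_eq _ (by norm_num)
    have hr0 : r ≠ 0 := by
      rintro rfl
      exact h30 (by rw [← hr]; ring)
    obtain ⟨e2, e4, e6, e8, es, ed, ex⟩ := mod_c hG hr0
    set e := wpC b (1 / 3)
    set s := fr b ^ 2 * r ^ 2
    set al := A1 b / r with hal
    have hal1 : v al ≤ 1 := by
      refine vof_pow three_ne_zero ?_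
      rw [hal, div_pow, hr, v.map_div, v.map_pow]
      exact (div_le_one₀ (zero_lt_iff.2 ((v.ne_zero_iff).2 h30))).2 hcase
    have f2 : c2 e s = al ^ 2 := by rw [e2, hal, div_pow]
    have f4 : c4 b e s = al := by rw [e4, hal, ← hr]; field_simp
    have f6 : c6 b e s = 1 := by rw [e6, ← hr]; field_simp
    have fd : dsc (c2 e s) (c4 b e s) (c6 b e s) (c8 b e s) = al ^ 3 - 27 := by
      rw [f2, f4, f6, e8]
      unfold dsc
      ring
    have hi : ICd v b e s := by
      refine ⟨es, ?_, ?_, ?_, ?_⟩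
      · rw [f2]; exact vpow hal1 2
      · rw [f4]; exact hal1
      · rw [f6, v.map_one]
      · rw [e8, v.map_zero]; exact zero_le_one
    obtain ⟨T, T', hT, h1⟩ := exists_big (v := v) hb es (Or.inr (by
      rw [f6, v.map_div, v.map_one, one_div]
      exact h4p))
    obtain ⟨h2, h3⟩ := two_all hv hG hi hT h1
    obtain ⟨k1, k2⟩ := hT.sp3 hb es
    rw [f2] at k1
    rw [f6] at k2
    set ρ := v (xx b e s T) with hρ
    have k4 : v 4 * (ρ * ρ * ρ) = 1 := by
      have := congrArg v k2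
      rw [v.map_one, v.map_mul, v.map_neg, v.map_mul, v.map_mul, h2, h3] at this
      exact this.symm
    have k5 : v (al ^ 2) ≤ v 4 * ρ := by
      rw [k1, v.map_mul, v.map_neg]
      gcongr
      exact v.map_add_le (v.map_add_le le_rfl h2.le) h3.le
    have hal2 : v al < 1 := by
      have k6 : v (al ^ 2) ^ 3 ≤ (v 4 * ρ) ^ 3 := by gcongr
      have k7 : (v (4 : ℂ) * ρ) ^ 3 = v 4 ^ 2 * (v 4 * (ρ * ρ * ρ)) := by
        rw [mul_pow, pow_succ (v (4 : ℂ)) 2, mul_assoc, pow_succ ρ 2, sq ρ]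
      rw [k7, k4, mul_one, ← v.map_pow, ← v.map_pow] at k6
      exact mof_pow (mof_pow (lt_of_le_of_lt k6 (mpow h4v two_ne_zero)))
    have hg : GCd v b e s := by
      refine ⟨hi, ?_⟩
      rw [fd]
      refine vcongr (y := -27) ?_ ?_
      · have : al ^ 3 - 27 - -27 = al ^ 3 := by ring
        rw [this]
        exact mpow hal2 three_ne_zero
      · rw [v.map_neg]
        have := v_odd (F := ℂ) hv (by decide : Odd 27)
        exact_mod_cast this
    have hK := sVCrd n t Γ v b e s hb hi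
    have hpt := aPt n t b hb hG.cop
    have one_mem : ∀ c : ℤ, (c : ℂ) ∈ Lam b := fun c => fun u _ =>
      ⟨u * (c : OO n t), by rw [toC_mul, toC_int]⟩
    have not15 : ∀ j : ℤ, ¬ (15 : ℤ) ∣ j → ¬ Kr v (Lam b) (xx b e s) ((j : ℂ) / 15) := by
      intro j hj
      refine odd_not hv hK (fun h' => hj ((hpt j).1 h')) (N := 15) (by decide) ?_
      have : ((15 : ℕ) : ℂ) * ((j : ℂ) / 15) = j := by
        push_cast
        ring
      rw [this]
      exact one_mem j
    have x3 : xx b e s (1 / 3) = 0 := by rw [ex, hx3, zero_div]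
    have x5 : xx b e s (1 / 5) = r := by rw [ex, hx5, ← hr]; field_simp
    have n3 : ¬ Kr v (Lam b) (xx b e s) (1 / 3) := by
      have := not15 5 (by decide)
      have e1 : ((5 : ℤ) : ℂ) / 15 = 1 / 3 := by norm_num
      rwa [e1] at this
    have n5 : ¬ Kr v (Lam b) (xx b e s) (1 / 5) := by
      have := not15 3 (by decide)
      have e1 : ((3 : ℤ) : ℂ) / 15 = 1 / 5 := by norm_num
      rwa [e1] at this
    have hr1 : v r ≤ 1 := by
      rw [← x5]
      exact not_lt.1 fun h' => n5 (Or.inr h')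
    have hr2 : v r = 1 := by
      refine le_antisymm hr1 ?_
      by_contra hc
      have h5 := hK.sep hg.ds n5 n3 (by rw [x5, x3, sub_zero]; exact not_le.1 hc)
      rcases h5 with h5 | h5
      · have := not15 8 (by decide)
        have e1 : ((8 : ℤ) : ℂ) / 15 = 1 / 5 + 1 / 3 := by push_cast; ring
        rw [e1] at this
        exact this h5
      · have := not15 (-2) (by decide)
        have e1 : ((-2 : ℤ) : ℂ) / 15 = 1 / 5 - 1 / 3 := by push_cast; ring
        rw [e1] at this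
        exact this h5
    constructor
    · rw [← hr, v.map_pow, hr2, one_pow]
    · have : A1 b = al * r := by rw [hal]; field_simp
      rw [this]
      exact mmulr hal2 hr1

end Pool.Agent.DN
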