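import Pool.Agent.Lib.DN.R.PgE
import Pool.Agent.Lib.DN.R.VTwo

/-!
# Potential good reduction for all imaginary quadratic fields, 6: good coordinates (helper46)
-/

set_option autoImplicit false

open scoped Pointwise nonZeroDivisors

noncomputable section

namespace Pool.Agent.DN

open Pool.Agent.MuZ Pool.Agent.FW NumberField IsDedekindDomain

section

variable {n t : ℕ} [SqN n t] {Γ : Type} [LinearOrderedCommGroupWithZero Γ] {v : Valuation ℂ Γ}
  {b : Ideal (OO n t)}

theorem leg_eqG (hv : v 2 = 1) (hb : b ≠ ⊥) {T T' : ℂ} (h : Ord2 b T T') :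
    v (wpC b (T + T') - wpC b T) = v (wpC b T' - wpC b T) := by
  have hM := lemM v hb h
  obtain ⟨h1, h2, -, -⟩ := h.g hb
  set p := wpC b T' - wpC b T with hp
  set r := wpC b (T + T') - wpC b T with hr
  have e1 : (12 * wpC b T) ^ 2 = 2 ^ 4 * (p + r) ^ 2 := by
    have : 12 * wpC b T = -4 * (p + r) := by
      rw [hp, hr, h1]
      ring
    rw [this]
    ring
  rw [e1, v.map_mul, v.map_pow, hv, one_pow, one_mul, v.map_pow, v.map_mul] at hM
  have hp0 : v p ≠ 0 := (v.ne_zero_iff).2 (sub_ne_zero.2 h2.symm)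
  have hr0 : v r ≠ 0 := by
    refine (v.ne_zero_iff).2 (sub_ne_zero.2 fun h' => ?_)
    exact (aB4 n t b hb T (T + T') h.t1 h.t2 h.t7 h.t6 h.rot.t5).2.1 h'.symm
  rcases lt_trichotomy (v r) (v p) with hlt | heq | hlt
  · exfalso
    rw [v.map_add_eq_of_lt_left hlt, sq] at hM
    have h0 : 0 < v p := zero_lt_iff.2 hp0
    have : v p * v r < v p * v p := by gcongr
    exact absurd hM (not_le.2 this)
  · exact heq
  · exfalso
    rw [v.map_add_eq_of_lt_right hlt, sq] at hM
    have h0 : 0 < v r := zero_lt_iff.2 hr0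
    have : v p * v r < v r * v r := by gcongr
    exact absurd hM (not_le.2 this)

/-- Legendre's coordinate is good, `v 2 = 1`, for all imaginary quadratic fields. -/
theorem leg_good (hv : v 2 = 1) (hb : b ≠ ⊥) {T T' : ℂ} (h : Ord2 b T T') :
    GCd v b (wpC b T) (wpC b T' - wpC b T) ∧
      v (xx b (wpC b T) (wpC b T' - wpC b T) (T + T')) = 1 ∧
      v (1 - xx b (wpC b T) (wpC b T' - wpC b T) (T + T')) = 1 := by
  obtain ⟨hs0, e2, e4, e6, e8, ed⟩ := leg_c (la := xx b (wpC b T) (wpC b T' - wpC b T) (T + T')) hb h rfl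
  have k2 := leg_eqG hv hb h
  have k1 : v (wpC b (T + T') - wpC b T') = v (wpC b T' - wpC b T) := by
    have := leg_eqG hv hb h.sy
    rwa [add_comm T' T, v.map_sub_swap (wpC b T) (wpC b T')] at this
  set s := wpC b T' - wpC b T with hs
  have hsv : v s ≠ 0 := (v.ne_zero_iff).2 hs0
  have l1 : v (xx b (wpC b T) s (T + T')) = 1 := by
    unfold xx
    rw [v.map_div, k2]
    exact div_self hsv
  have l2 : v (1 - xx b (wpC b T) s (T + T')) = 1 := by
    have : 1 - xx b (wpC b T) s (T + T') = -((wpC b (T + T') - wpC b T') / s) := by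
      unfold xx
      field_simp
      rw [hs]
      ring
    rw [this, v.map_neg, v.map_div, k1]
    exact div_self hsv
  refine ⟨⟨⟨hs0, ?_, ?_, ?_, ?_⟩, ?_⟩, l1, l2⟩
  · rw [e2]
    exact vmul (vneg (vof v 4)) (vadd (by rw [v.map_one]) l1.le)
  · rw [e4]
    exact vmul (vof v 2) l1.le
  · rw [e6, v.map_zero]
    exact zero_le_one
  · rw [e8]
    exact vneg (vpow l1.le 2)
  · have h16 : (16 : ℂ) = 2 ^ 4 := by norm_num
    rw [ed, h16, v.map_mul, v.map_mul, v.map_pow, v.map_pow, v.map_pow, hv, l1, l2]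
    simp

/-- The second elementary symmetric function of the values at the points of order two. -/
theorem Ord2.sp4 (hb : b ≠ ⊥) {T T' : ℂ} (h : Ord2 b T T') {e s : ℂ} (hs : s ≠ 0) :
    c4 b e s = 2 * (xx b e s T * xx b e s T' + xx b e s T * xx b e s (T + T') +
      xx b e s T' * xx b e s (T + T')) := by
  obtain ⟨h1, -, h3, h4⟩ := h.g hb
  unfold c4 xx
  rw [h1, h3]
  field_simp
  ring

/-- A big value at a point of order two, `b2` a unit. -/
theorem big_val (hb : b ≠ ⊥) {e s : ℂ} (hi : ICd v b e s) (h2 : v (c2 e s) = 1) {T : ℂ}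
    (h1 : 2 * T ∈ Lam b) (h1' : T ∉ Lam b) (hT : 1 < v (xx b e s T)) : v (4 * xx b e s T) = 1 := by
  have hK := sVCrd n t Γ v b e s hb hi
  have h3 := hK.tw T h1' (by rwa [← two_mul])
  set X := xx b e s T with hX
  have hX0 : X ≠ 0 := ne_zero_of_lt hT
  have h0 : 0 < v X := lt_trans zero_lt_one hT
  have e1 : 4 * X - -(c2 e s) = -(2 * c4 b e s / X + c6 b e s / X ^ 2) := by
    field_simp
    linear_combination h3
  refine vcongr (y := -(c2 e s)) ?_ (by rw [v.map_neg]; exact h2)
  rw [e1]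
  refine mneg (madd ?_ ?_)
  · rw [div_eq_mul_inv]
    exact mmul (vmul (vof v 2) hi.v4) (inv_lt hT)
  · rw [div_eq_mul_inv, ← inv_pow]
    exact mmul hi.v6 (mpow (inv_lt hT) two_ne_zero)

/-- An integral coordinate with `b2` a unit is good, `v 2 < 1`. -/
theorem ord_good (hv : v 2 < 1) (hb : b ≠ ⊥) {e s : ℂ} (hi : ICd v b e s) (h2 : v (c2 e s) = 1) :
    v (dsc (c2 e s) (c4 b e s) (c6 b e s) (c8 b e s)) = 1 := by
  have hs := hi.ne
  have h40 : (4 : ℂ) ≠ 0 := by norm_num
  have h4v : v (4 : ℂ) < 1 := by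
    have : (4 : ℂ) = 2 * 2 := by norm_num
    rw [this]
    exact mmul hv.le hv
  obtain ⟨T, T', hT, h1⟩ := exists_big (v := v) hb hs (Or.inl (by
    rw [v.map_div, h2, one_div, ← v.map_inv]
    exact lt_inv h40 h4v))
  have b0 := big_val hb hi h2 hT.t1 hT.t2 h1
  -- the other two are integral
  have small : ∀ {U U' : ℂ}, Ord2 b U U' → 1 < v (xx b e s U) → v (4 * xx b e s U) = 1 →
      v (xx b e s U') ≤ 1 := by
    intro U U' hU hbig b1
    by_contra hc
    have b2 := big_val hb hi h2 hU.t3 hU.t4 (not_le.1 hc)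
    have k2' := (hU.sp3 hb (e := e) hs).2
    have k3' := hU.sp4 hb (e := e) hs
    have h5 : v (xx b e s (U + U')) < 1 := by
      have e1 : (4 * xx b e s U) * (4 * xx b e s U') * xx b e s (U + U') = -4 * c6 b e s := by
        rw [k2']
        ring
      have e2 := congrArg v e1
      rw [v.map_mul, v.map_mul, b1, b2, one_mul, one_mul] at e2
      rw [e2]
      exact mmulr (by rw [v.map_neg]; exact h4v) hi.v6
    have e3 : (4 * xx b e s U) * (4 * xx b e s U') =
        8 * c4 b e s - 4 * (xx b e s (U + U') * (4 * xx b e s U + 4 * xx b e s U')) := by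
      rw [k3']
      ring
    have e4 := congrArg v e3
    rw [v.map_mul, b1, b2, one_mul] at e4
    have h8 : v (8 : ℂ) < 1 := by
      have : (8 : ℂ) = 2 * 4 := by norm_num
      rw [this]
      exact mmul hv.le h4v
    have : v (8 * c4 b e s - 4 * (xx b e s (U + U') * (4 * xx b e s U + 4 * xx b e s U'))) < 1 :=
      msub (mmulr h8 hi.v4) (mmulr h4v (vmul h5.le (vadd b1.le b2.le)))
    exact absurd e4.symm (ne_of_lt this)
  have s1 := small hT h1 b0
  have s2 := small hT.rot h1 b0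
  -- LEMMA M at `T'`
  have hM := lemM v hb hT.sy
  have hs2 : s ^ 2 ≠ 0 := pow_ne_zero 2 hs
  have hvs : 0 < v (s ^ 2) := zero_lt_iff.2 ((v.ne_zero_iff).2 hs2)
  have e1 : (12 * wpC b T') ^ 2 = (c2 e s + 12 * xx b e s T') ^ 2 * s ^ 2 := by
    unfold c2 xx
    field_simp
    ring
  have e2 : (wpC b T - wpC b T') * (wpC b (T' + T) - wpC b T') =
      (xx b e s T - xx b e s T') * (xx b e s (T + T') - xx b e s T') * s ^ 2 := by
    rw [add_comm T' T]
    unfold xx
    field_simp
    ring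
  rw [e1, e2, v.map_mul _ (s ^ 2), v.map_mul _ (s ^ 2)] at hM
  have h12 : v (12 : ℂ) < 1 := by
    have : (12 : ℂ) = 4 * 3 := by norm_num
    rw [this]
    exact mmulr h4v (vof v 3)
  have u1 : v (c2 e s + 12 * xx b e s T') = 1 := by
    refine vcongr (y := c2 e s) ?_ h2
    rw [add_sub_cancel_left]
    exact mmulr h12 s1
  rw [v.map_pow, u1, one_pow] at hM
  have hM' : 1 ≤ v ((xx b e s T - xx b e s T') * (xx b e s (T + T') - xx b e s T')) :=
    le_of_mul_le_mul_right hM hvs
  have d1 : v (xx b e s T - xx b e s T') = v (xx b e s T) := v.map_sub_eq_of_lt_left (lt_of_le_of_lt s1 h1)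
  have d2 : v (xx b e s (T + T') - xx b e s T) = v (xx b e s T) :=
    v.map_sub_eq_of_lt_right (lt_of_le_of_lt s2 h1)
  refine le_antisymm ?_ ?_
  · unfold dsc
    refine vsub (vsub (vsub ?_ ?_) ?_) ?_
    · exact vmul (vmul (vmul (vof v 9) hi.v2) hi.v4) hi.v6
    · exact vmul (vpow hi.v2 2) hi.v8
    · exact vmul (vof v 8) (vpow hi.v4 3)
    · exact vmul (vof v 27) (vpow hi.v6 2)
  · rw [hT.dsc hb hs]
    have e3 : 16 * (xx b e s T - xx b e s T') ^ 2 * (xx b e s (T + T') - xx b e s T) ^ 2 *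
        (xx b e s (T + T') - xx b e s T') ^ 2 =
        (4 * (xx b e s (T + T') - xx b e s T)) ^ 2 *
          ((xx b e s T - xx b e s T') * (xx b e s (T + T') - xx b e s T')) ^ 2 := by ring
    have e4 : v (4 * (xx b e s (T + T') - xx b e s T)) = 1 := by
      rw [v.map_mul, d2, ← v.map_mul, b0]
    rw [e3, v.map_mul, v.map_pow, e4, one_pow, one_mul, v.map_pow]
    exact one_le_pow_of_one_le' hM' 2

end

end Pool.Agent.DN
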