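import Pool.Agent.Lib.DN.R.KmC

/-!
# The kernel of reduction, all imaginary quadratic fields, 4: scaling factors, units (helper46)
-/

set_option autoImplicit false

open scoped Pointwise nonZeroDivisors

noncomputable section

namespace Pool.Agent.DN

open Pool.Agent.MuZ Pool.Agent.FW NumberField IsDedekindDomain

section

variable {n t : ℕ} [SqN n t] {Γ : Type} [LinearOrderedCommGroupWithZero Γ] {v : Valuation ℂ Γ}
  {a b : Ideal (OO n t)}

/-- Translates of points of order `l` are not in the kernel. -/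
theorem ord_notG {e s : ℂ} (hb : b ≠ ⊥) (hi : ICd v b e s) {l : ℕ}
    (hl : Nat.Coprime l (NI a)) (hvl : v (l : ℂ) = 1) {z u : ℂ} (h1 : (l : ℂ) * z ∈ Lam b) (h2 : z ∉ Lam b)
    (hu : u ∈ Lam (a * b)) : ¬ Kr v (Lam b) (xx b e s) (z + u) := by
  intro hk
  have hK := sVCrd n t Γ v b e s hb hi
  have h3 := hK.kr_nsmul hk (NI a)
  rw [nsmul_eq_mul, mul_add] at h3
  have h4 : Kr v (Lam b) (xx b e s) ((NI a : ℂ) * z) := by
    have h5 := hK.kr_sub h3 (Or.inl (NI_lam hu) : Kr v (Lam b) (xx b e s) ((NI a : ℂ) * u))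
    rwa [add_sub_cancel_right] at h5
  have h6 : (NI a : ℂ) * z ∈ Lam b := by
    refine kr_nat hK h4 hvl ?_
    have : (l : ℂ) * ((NI a : ℂ) * z) = (NI a : ℂ) * (l * z) := by ring
    rw [this]
    exact lam_nat _ h1
  exact h2 (lam_copN hl h1 h6)

/-- Two points of different prime orders: the difference of the values is a unit. -/
theorem ord_dif {e s : ℂ} (hb : b ≠ ⊥) (hg : GCd v b e s) {l l' : ℕ} (c3 : Nat.Coprime l l')
    (hvl : v (l : ℂ) = 1) (hvl' : v (l' : ℂ) = 1) {z z' : ℂ} (h1 : (l : ℂ) * z ∈ Lam b) (h2 : z ∉ Lam b)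
    (h1' : (l' : ℂ) * z' ∈ Lam b) (h2' : z' ∉ Lam b) :
    v (xx b e s z) ≤ 1 ∧ v (xx b e s z') ≤ 1 ∧ v (xx b e s z - xx b e s z') = 1 := by
  have hK := sVCrd n t Γ v b e s hb hg.toICd
  have n1 : ¬ Kr v (Lam b) (xx b e s) z := fun hk => h2 (kr_nat hK hk hvl h1)
  have n2 : ¬ Kr v (Lam b) (xx b e s) z' := fun hk => h2' (kr_nat hK hk hvl' h1')
  have m1 : v (xx b e s z) ≤ 1 := not_lt.1 fun h => n1 (Or.inr h)
  have m2 : v (xx b e s z') ≤ 1 := not_lt.1 fun h => n2 (Or.inr h)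
  refine ⟨m1, m2, le_antisymm (vsub m1 m2) ?_⟩
  by_contra hc
  have hvll : v ((l * l' : ℕ) : ℂ) = 1 := by rw [Nat.cast_mul, v.map_mul, hvl, hvl', mul_one]
  have fin : ∀ ε : ℂ, ε = 1 ∨ ε = -1 → z + ε * z' ∈ Lam b → False := by
    intro ε hε h5
    apply h2'
    refine lam_copN c3 ?_ h1'
    have h6 : (l : ℂ) * (z + ε * z') ∈ Lam b := lam_nat _ h5
    have h7 : ε * ((l : ℂ) * z') ∈ Lam b := by
      have : ε * ((l : ℂ) * z') = (l : ℂ) * (z + ε * z') - l * z := by ring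
      rw [this]
      exact lam_sub h6 h1
    rcases hε with rfl | rfl
    · rwa [one_mul] at h7
    · rw [neg_one_mul] at h7
      exact lam_neg_iff.1 h7
  rcases hK.sep hg.ds n1 n2 (not_le.1 hc) with h5 | h5
  · refine fin 1 (Or.inl rfl) ?_
    rw [one_mul]
    refine kr_nat hK h5 hvll ?_
    have : ((l * l' : ℕ) : ℂ) * (z + z') = (l' : ℂ) * (l * z) + l * (l' * z') := by push_cast; ring
    rw [this]
    exact lam_add (lam_nat _ h1) (lam_nat _ h1')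
  · refine fin (-1) (Or.inr rfl) ?_
    rw [neg_one_mul, ← sub_eq_add_neg]
    refine kr_nat hK h5 hvll ?_
    have : ((l * l' : ℕ) : ℂ) * (z - z') = (l' : ℂ) * (l * z) - l * (l' * z') := by push_cast; ring
    rw [this]
    exact lam_sub (lam_nat _ h1) (lam_nat _ h1')

/-- Test points for an isogeny. -/
theorem ex_test (v : Valuation ℂ Γ) (ha : a ≠ ⊥) (hb : b ≠ ⊥) : ∃ (l l' : ℕ) (z z' : ℂ),
    Nat.Coprime l l' ∧ Nat.Coprime l (NI a) ∧ Nat.Coprime l' (NI a) ∧ v (l : ℂ) = 1 ∧ v (l' : ℂ) = 1 ∧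
    (l : ℂ) * z ∈ Lam b ∧ z ∉ Lam b ∧ (l' : ℂ) * z' ∈ Lam b ∧ z' ∉ Lam b ∧ z ∉ Lam (a * b) ∧
    z' ∉ Lam (a * b) := by
  obtain ⟨l, hl, hl1, hvl⟩ := ex_pr v (NI a)
  obtain ⟨l', hl', hl1', hvl'⟩ := ex_pr v l
  have hNa := NI_posG ha
  have c1 : Nat.Coprime l (NI a) := (Nat.Prime.coprime_iff_not_dvd hl).2 fun hd =>
    absurd (Nat.le_of_dvd hNa hd) (by omega)
  have c2 : Nat.Coprime l' (NI a) := (Nat.Prime.coprime_iff_not_dvd hl').2 fun hd =>
    absurd (Nat.le_of_dvd hNa hd) (by omega)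
  obtain ⟨z, hz1, hz2⟩ := ex_ord hb hl
  obtain ⟨z', hz1', hz2'⟩ := ex_ord hb hl'
  exact ⟨l, l', z, z', (Nat.coprime_primes hl hl').2 (by omega), c1, c2, hvl, hvl', hz1, hz2, hz1', hz2',
    ord_up c1 hz1 hz2, ord_up c2 hz1' hz2'⟩

/-- The scaling factor is integral, for all isogenies. -/
theorem scale_leG (ha : a ≠ ⊥) (hb : b ≠ ⊥) {e s e' s' : ℂ} (hi : ICd v b e s)
    (hg' : GCd v (a * b) e' s') : v (s' / s) ≤ 1 := by
  have hab : a * b ≠ ⊥ := mul_ne_zero ha hb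
  obtain ⟨l, l', z, z', c3, c1, c2, hvl, hvl', h1, h2, h1', h2', hza, hza'⟩ := ex_test v ha hb
  obtain ⟨-, -, R, hR, -⟩ := aL3 n t a b ha hb
  have hsum := iso_sum (e := e) (e' := e') ha hb hi.ne hg'.ne hR hza hza'
  have h3 : v (∑ u ∈ R, (xx b e s (z + u) - xx b e s (z' + u))) ≤ 1 := by
    refine vsum _ _ fun u hu => vsub ?_ ?_
    · exact not_lt.1 fun h => ord_notG hb hi c1 hvl h1 h2 (hR.mem u hu) (Or.inr h)
    · exact not_lt.1 fun h => ord_notG hb hi c2 hvl' h1' h2' (hR.mem u hu) (Or.inr h)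
  obtain ⟨-, -, h4⟩ := ord_dif hab hg' c3 hvl hvl' (lam_mono h1) hza (lam_mono h1') hza'
  have h5 := congrArg v hsum
  rw [v.map_mul, h4, mul_one] at h5
  rw [h5]
  exact h3

/-- All points of `E[a]` in the kernel. -/
theorem scale_all (ha : a ≠ ⊥) (hb : b ≠ ⊥) {e s e' s' : ℂ} (hg : GCd v b e s)
    (hg' : GCd v (a * b) e' s') (hva : v (NI a : ℂ) < 1)
    (hall : ∀ u ∈ Lam (a * b), Kr v (Lam b) (xx b e s) u) : v (s' / s) < 1 := by
  have hab : a * b ≠ ⊥ := mul_ne_zero ha hb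
  have hK := sVCrd n t Γ v b e s hb hg.toICd
  obtain ⟨l, l', z, z', c3, c1, c2, hvl, hvl', h1, h2, h1', h2', hza, hza'⟩ := ex_test v ha hb
  obtain ⟨-, -, R, hR, hRc⟩ := aL3 n t a b ha hb
  have hsum := iso_sum (e := e) (e' := e') ha hb hg.ne hg'.ne hR hza hza'
  obtain ⟨m1, m2, -⟩ := ord_dif hb hg c3 hvl hvl' h1 h2 h1' h2'
  have n1 : ¬ Kr v (Lam b) (xx b e s) z := fun hk => h2 (kr_nat hK hk hvl h1)
  have n2 : ¬ Kr v (Lam b) (xx b e s) z' := fun hk => h2' (kr_nat hK hk hvl' h1')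
  have h3 : v (∑ u ∈ R, (xx b e s (z + u) - xx b e s (z' + u))) < 1 := by
    have e1 : ∑ u ∈ R, (xx b e s (z + u) - xx b e s (z' + u)) =
        ∑ u ∈ R, ((xx b e s (z + u) - xx b e s z) - (xx b e s (z' + u) - xx b e s z')) +
          (NI a : ℂ) * (xx b e s z - xx b e s z') := by
      rw [← hRc, ← nsmul_eq_mul, ← Finset.sum_const, ← Finset.sum_add_distrib]
      refine Finset.sum_congr rfl fun u _ => ?_
      ring
    rw [e1]
    refine madd (v.map_sum_lt one_ne_zero fun u hu => ?_) (mmulr hva (vsub m1 m2))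
    exact msub (hK.red n1 (hall u (hR.mem u hu))) (hK.red n2 (hall u (hR.mem u hu)))
  obtain ⟨-, -, h4⟩ := ord_dif hab hg' c3 hvl hvl' (lam_mono h1) hza (lam_mono h1') hza'
  have h5 := congrArg v hsum
  rw [v.map_mul, h4, mul_one] at h5
  rw [h5]
  exact h3

/-- The annihilator of a point of `E[a]`. -/
theorem ex_ann (ha : a ≠ ⊥) (hb : b ≠ ⊥) {u : ℂ} (hu : u ∈ Lam (a * b)) : ∃ a' a'' : Ideal (OO n t),
    a' ≠ ⊥ ∧ a'' ≠ ⊥ ∧ a = a'' * a' ∧ (∀ c : OO n t, toC c * u ∈ Lam b ↔ c ∈ a') ∧ u ∈ Lam (a' * b) ∧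
    ∀ z ∈ Lam (a' * b), ∃ c : OO n t, z - toC c * u ∈ Lam b := by
  have hab : a * b ≠ ⊥ := mul_ne_zero ha hb
  have htor : Tor n t u := aL2 n t |>.2.2.2.2.2.1 (a * b) u hab hu
  obtain ⟨a', ha', hu', hann⟩ := (aL4 n t b hb).1 u htor
  have hle : a ≤ a' := fun c hc => (hann c).1 (lam_prod.1 hu c hc)
  obtain ⟨a'', he⟩ := Ideal.dvd_iff_le.2 hle
  have ha'' : a'' ≠ ⊥ := by
    rintro rfl
    rw [Ideal.mul_bot] at he
    exact ha he
  refine ⟨a', a'', ha', ha'', by rw [he, mul_comm], hann, hu', ?_⟩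
  refine ((aL3 n t a' b ha' hb).2.1 u hu' fun c hc hcu => ?_).2
  obtain ⟨β, hβ, hβ'⟩ := SetLike.exists_of_lt hc
  exact hβ' ((hann β).1 (lam_prod.1 hcu β hβ))

/-- A point of `E[a]` in the kernel: the scaling factor is not a unit. -/
theorem scale_lt (ha : a ≠ ⊥) (hb : b ≠ ⊥) {e s e' s' : ℂ} (hg : GCd v b e s)
    (hg' : GCd v (a * b) e' s') {u : ℂ} (hu : u ∈ Lam (a * b)) (hub : u ∉ Lam b)
    (hk : Kr v (Lam b) (xx b e s) u) : v (s' / s) < 1 := by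
  have hK := sVCrd n t Γ v b e s hb hg.toICd
  obtain ⟨a', a'', ha', ha'', he, hann, hu', hall⟩ := ex_ann ha hb hu
  have hab' : a' * b ≠ ⊥ := mul_ne_zero ha' hb
  obtain ⟨e₁, s₁, hg₁⟩ := pgr n t v hab'
  have hva : v (NI a' : ℂ) < 1 := by
    refine lt_of_le_of_ne (vnat v _) fun h1 => hub (kr_nat hK hk h1 (NI_lam hu'))
  have h1 : v (s₁ / s) < 1 := scale_all ha' hb hg hg₁ hva fun z hz => by
    obtain ⟨c, hc⟩ := hall z hz
    exact (hK.kr_congr hc).2 (kr_mulG hb hg c hk)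
  rw [he, mul_assoc] at hg'
  have h2 := scale_leG ha'' hab' hg₁.toICd hg'
  have e1 : s' / s = s' / s₁ * (s₁ / s) := by
    have := hg₁.ne
    field_simp
  rw [e1]
  exact mmul h2 h1

/-- **Multiplication by a unit is injective on the kernel.** -/
theorem kr_unitG (hb : b ≠ ⊥) {e s : ℂ} (hg : GCd v b e s) {α : OO n t} (hα : v (toC α) = 1) {z : ℂ}
    (hz : Kr v (Lam b) (xx b e s) z) (hαz : toC α * z ∈ Lam b) : z ∈ Lam b := by
  have hα0 : α ≠ 0 := by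
    rintro rfl
    rw [toC_zero, v.map_zero] at hα
    exact zero_ne_one hα
  by_contra hzb
  have h1 := scale_lt (sp_ne hα0) hb hg (hg.sp hb hα0) (lam_sp.2 hαz) hzb hz
  have e1 : toC α ^ 2 * s / s = toC α ^ 2 := by
    have := hg.ne
    field_simp
  rw [e1, v.map_pow, hα, one_pow] at h1
  exact lt_irrefl _ h1

end

end Pool.Agent.DN
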