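import Pool.Agent.Lib.DN.R.Den

/-!
# Theorem DN, part R, module `R2c`: good reduction at almost all primes (helper42)
-/

set_option autoImplicit false

open scoped Pointwise nonZeroDivisors

noncomputable section

namespace Pool.Agent.DN

open Pool.Agent.MuZ Pool.Agent.FW NumberField IsDedekindDomain
open Pool.Agent.DI (io ofC io_inj exists_io io_ofC ofC_io VP MP UP TP ex)

/-- Almost all primes. -/
theorem sR2c (h : S_R1) : S_R2c := by
  classical
  intro n t _
  obtain ⟨R, hR, hR'⟩ := a13_fin n t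
  obtain ⟨B, hB, hB'⟩ := den_fin (R.image (fun c => a1O c) ∪ (R.image (fun c => a3O c) ∪
    R.image fun c => a1O c ^ 3 - 27 * a3O c))
  refine ⟨B, hB, ?_⟩
  intro Q hQ hQB
  refine ⟨hQ, ?_⟩
  intro b hb
  obtain ⟨c, hc, e1, e3⟩ := hR' b hb
  have e1' : a1O b = a1O c := by unfold a1O; rw [e1]
  have e3' : a3O b = a3O c := by unfold a3O; rw [e3]
  rw [e1', e3']
  obtain ⟨i1, i3, -⟩ := (h.1 n t).1 c (hR c hc)
  obtain ⟨-, j3, j13, -⟩ := (aB1 n t c (hR c hc).ne).2.2.2.2.2 (hR c hc).cop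
  have k3 : a3O c ≠ 0 := by
    intro h0
    rw [h0, map_zero] at i3
    exact j3 i3.symm
  have k13 : a1O c ^ 3 - 27 * a3O c ≠ 0 := by
    intro h0
    have h1 := congrArg io h0
    rw [map_sub, map_mul, map_pow, i1, i3, map_ofNat, map_zero] at h1
    exact j13 h1
  refine ⟨(hB' Q hQ hQB _ (Finset.mem_union_left _ (Finset.mem_image.2 ⟨c, hc, rfl⟩))).1,
    (hB' Q hQ hQB _ (Finset.mem_union_right _ (Finset.mem_union_left _
      (Finset.mem_image.2 ⟨c, hc, rfl⟩)))).2 k3,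
    (hB' Q hQ hQB _ (Finset.mem_union_right _ (Finset.mem_union_right _
      (Finset.mem_image.2 ⟨c, hc, rfl⟩)))).2 k13⟩

end Pool.Agent.DN
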