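import Pool.Agent.Lib.DN.R.Spec
import Pool.Agent.Lib.DN.B.All
import Pool.Agent.Lib.DN.O.All
import Pool.Agent.Lib.DN.E.SpecB

/-!
# Theorem DN, part R: denominators; the numbers `A1`, `A3` of a ray class modulo 15 (helper42; no task)
-/

set_option autoImplicit false

open scoped Pointwise nonZeroDivisors

noncomputable section

namespace Pool.Agent.DN

open Pool.Agent.MuZ Pool.Agent.FW NumberField IsDedekindDomain
open Pool.Agent.DI (io ofC io_inj exists_io io_ofC ofC_io VP MP UP TP ex)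

variable {n t : ℕ}

/-- An algebraic number is integral at almost all primes. -/
theorem den_one (x : Om) : ∃ B : ℕ, 0 < B ∧ ∀ Q : Ideal ZZ, Npr Q → ¬ MP Q (B : Om) → VP Q x := by
  have halg : IsAlgebraic ℤ x := by
    have h : IsAlgebraic ℚ x := Algebra.IsAlgebraic.isAlgebraic x
    exact (IsFractionRing.isAlgebraic_iff ℤ ℚ Om).2 h
  obtain ⟨y, hy, hi⟩ := halg.exists_integral_multiple
  have hy0 : (y.natAbs : Om) ≠ 0 := by
    have := Int.natAbs_pos.2 hy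
    exact_mod_cast this.ne'
  refine ⟨y.natAbs, Int.natAbs_pos.2 hy, ?_⟩
  intro Q hQ hn
  have hP : Q.IsPrime := hQ.1
  have h1 : IsIntegral ℤ ((y.natAbs : Om) * x) := by
    rw [zsmul_eq_mul] at hi
    rcases Int.natAbs_eq y with h | h
    · rw [h] at hi
      simpa using hi
    · rw [h] at hi
      have := hi.neg
      simpa using this
  have h2 : VP Q ((y.natAbs : Om) * x) := DI.VP.integral h1
  have h3 : VP Q ((y.natAbs : Om))⁻¹ := DI.VP.inv (DI.VP.nat _) hn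
  have h4 : x = ((y.natAbs : Om))⁻¹ * ((y.natAbs : Om) * x) := by
    rw [inv_mul_cancel_left₀ hy0]
  rw [h4]
  exact h3.mul h2

/-- Finitely many algebraic numbers are integral, the nonzero ones are units, at almost all primes. -/
theorem den_fin (S : Finset Om) : ∃ B : ℕ, 0 < B ∧ ∀ Q : Ideal ZZ, Npr Q → ¬ MP Q (B : Om) →
    ∀ x ∈ S, VP Q x ∧ (x ≠ 0 → UP Q x) := by
  classical
  choose f hf hf' using den_one
  refine ⟨∏ x ∈ S, f x * f x⁻¹, Finset.prod_pos fun x _ => Nat.mul_pos (hf _) (hf _), ?_⟩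
  intro Q hQ hB x hx
  have hP : Q.IsPrime := hQ.1
  have h1 : ∀ d : ℕ, d ∣ ∏ x ∈ S, f x * f x⁻¹ → ¬ MP Q (d : Om) := by
    rintro d ⟨e, he⟩ hd
    refine hB ?_
    rw [he, Nat.cast_mul]
    exact DI.MP.mul_right hd (DI.VP.nat _)
  have h2 := Finset.dvd_prod_of_mem (fun x => f x * f x⁻¹) hx
  have h3 := hf' x Q hQ (h1 _ ((dvd_mul_right _ _).trans h2))
  have h4 := hf' x⁻¹ Q hQ (h1 _ ((dvd_mul_left _ _).trans h2))
  exact ⟨h3, fun h0 => DI.UP.iff.2 ⟨h0, h3, h4⟩⟩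

/-- `A1`, `A3` depend only on the ray class modulo `15`. -/
theorem a13_ray [SqN n t] {b b' : Ideal (OO n t)} (hb : G15 b) (hb' : G15 b') (h : Ray 15 b b') :
    A1 b = A1 b' ∧ A3 b = A3 b' := by
  obtain ⟨α, α', -, -, hα, hα', h1, h2⟩ := h
  have key : ∀ γ : OO n t, ((15 : ℕ) : OO n t) ∣ γ - 1 → ∀ c : Ideal (OO n t), G15 c →
      A1 (sp γ * c) = A1 c ∧ A3 (sp γ * c) = A3 c := by
    intro γ hγ c hc
    have h15 : ((15 : ℕ) : OO n t) = 15 := by norm_num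
    rw [h15] at hγ
    have h3 : (3 : OO n t) ∣ γ - 1 := by
      refine dvd_trans ⟨5, ?_⟩ hγ
      norm_num
    have h5 : (5 : OO n t) ∣ γ - 1 := by
      refine dvd_trans ⟨3, ?_⟩ hγ
      norm_num
    have h0 : γ ≠ 0 := by
      rintro rfl
      have h6 := ((nat_dvd_iff 15 ((0 : OO n t) - 1)).1 (by rw [h15]; exact hγ)).1
      rw [zero_sub, QuadraticAlgebra.re_neg, re_one] at h6
      norm_num at h6
    obtain ⟨-, -, h7⟩ := aB7 n t c hc.ne
    obtain ⟨h8, -⟩ := h7 hc.cop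
    obtain ⟨-, h9, h10, -⟩ := h8 γ h0 h3 (Or.inl h5)
    exact ⟨h9, h10⟩
  obtain ⟨β, hβ, h3⟩ := cop_inv hα
  have h4 : ((15 : ℕ) : OO n t) ∣ α' * β - 1 := by
    have e : α' * β - 1 = (α * β - 1) - (α - α') * β := by ring
    rw [e]
    exact dvd_sub h3 (h1.mul_right β)
  have e : sp (α * β) * b = sp (α' * β) * b' := by
    have e1 : ∀ x y : OO n t, sp (x * y) = sp y * sp x := fun x y => by
      rw [mul_comm x y]
      exact (Ideal.span_singleton_mul_span_singleton y x).symm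
    rw [e1, e1, mul_assoc, h2, mul_assoc]
  have h5 := key _ h3 b hb
  have h6 := key _ h4 b' hb'
  rw [e] at h5
  exact ⟨h5.1.symm.trans h6.1, h5.2.symm.trans h6.2⟩

/-- Finitely many curves. -/
theorem a13_fin (n t : ℕ) [SqN n t] : ∃ R : Finset (Ideal (OO n t)), (∀ c ∈ R, G15 c) ∧
    ∀ b : Ideal (OO n t), G15 b → ∃ c ∈ R, A1 b = A1 c ∧ A3 b = A3 c := by
  obtain ⟨-, -, -, -, -, -, -, -, -, -, R, hR⟩ := aO7 n t 15 (by norm_num)
  refine ⟨R, fun c hc => ⟨(hR.mem c hc).1, (hR.mem c hc).2⟩, ?_⟩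
  intro b hb
  obtain ⟨c, hc, h⟩ := hR.ex b hb.ne hb.cop
  exact ⟨c, hc, a13_ray hb ⟨(hR.mem c hc).1, (hR.mem c hc).2⟩ h⟩

end Pool.Agent.DN
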