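import Pool.Agent.Lib.DN.R.PgG

/-!
# The kernel of reduction, all imaginary quadratic fields, 1: isogenies of degree prime to the residue
characteristic (helper46)
-/

set_option autoImplicit false

open scoped Pointwise nonZeroDivisors

noncomputable section

namespace Pool.Agent.DN

open Pool.Agent.MuZ Pool.Agent.FW NumberField IsDedekindDomain

section

variable {n t : ℕ} [SqN n t] {Γ : Type} [LinearOrderedCommGroupWithZero Γ] {v : Valuation ℂ Γ}
  {a b : Ideal (OO n t)}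

/-- Two large primes which are units for `v`. -/
theorem ex_pr (v : Valuation ℂ Γ) (M : ℕ) : ∃ l : ℕ, l.Prime ∧ M < l ∧ v (l : ℂ) = 1 := by
  obtain ⟨l₁, h1, hp1⟩ := Nat.exists_infinite_primes (M + 1)
  obtain ⟨l₂, h2, hp2⟩ := Nat.exists_infinite_primes (l₁ + 1)
  by_cases hv : v (l₁ : ℂ) = 1
  · exact ⟨l₁, hp1, by omega, hv⟩
  · refine ⟨l₂, hp2, by omega, ?_⟩
    have hv1 : v (l₁ : ℂ) < 1 := lt_of_le_of_ne (vnat v l₁) hv
    refine le_antisymm (vnat v l₂) (not_lt.1 fun hlt => ?_)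
    have hco : Nat.Coprime l₁ l₂ := (Nat.coprime_primes hp1 hp2).2 (by omega)
    obtain ⟨x, y, hxy⟩ := Nat.isCoprime_iff_coprime.2 hco
    have h5 : (x : ℂ) * l₁ + (y : ℂ) * l₂ = 1 := by exact_mod_cast congrArg (fun z : ℤ => (z : ℂ)) hxy
    have h6 : v (1 : ℂ) < 1 := by
      rw [← h5]
      exact madd (mmul (vint v x) hv1) (mmul (vint v y) hlt)
    rw [v.map_one] at h6
    exact lt_irrefl _ h6

/-- Points of order `l`. -/
theorem ex_ord (hb : b ≠ ⊥) {l : ℕ} (hl : l.Prime) : ∃ g : ℂ, (l : ℂ) * g ∈ Lam b ∧ g ∉ Lam b := by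
  have hl0 : (l : OO n t) ≠ 0 := by
    intro h0
    have := congrArg (fun u : OO n t => toC u) h0
    simp only [toC_nat, toC_zero] at this
    exact hl.ne_zero (by exact_mod_cast this)
  obtain ⟨⟨g, hg, hg'⟩, h3, -⟩ := aL3 n t (sp (l : OO n t)) b (sp_ne hl0) hb
  obtain ⟨h4, -⟩ := h3 g hg hg'
  refine ⟨g, ?_, ?_⟩
  · have := lam_sp.1 hg
    rwa [toC_nat] at this
  · intro hgb
    have h5 : (1 : OO n t) ∈ sp (l : OO n t) := (h4 1).1 (by rwa [toC_one, one_mul])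
    rw [Ideal.mem_span_singleton] at h5
    have h6 := ((nat_dvd_iff l (1 : OO n t)).1 h5).1
    rw [re_one] at h6
    exact hl.one_lt.ne' (Nat.dvd_one.1 (by exact_mod_cast h6))

theorem lam_copN {j k : ℕ} (h : Nat.Coprime j k) {z : ℂ} (hj : (j : ℂ) * z ∈ Lam b)
    (hk : (k : ℂ) * z ∈ Lam b) : z ∈ Lam b :=
  lam_cop (Nat.isCoprime_iff_coprime.2 h) (by exact_mod_cast hj) (by exact_mod_cast hk)

/-- Points of finite order prime to the residue characteristic are not in the kernel. -/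
theorem kr_nat {x : ℂ → ℂ} {b2 b4 b6 b8 : ℂ} (h : KLn v (Lam b) x b2 b4 b6 b8) {z : ℂ}
    (hz : Kr v (Lam b) x z) {j : ℕ} (hj : v (j : ℂ) = 1) (hjz : (j : ℂ) * z ∈ Lam b) : z ∈ Lam b :=
  h.ker_nat hz hj (by rwa [nsmul_eq_mul])

theorem NI_posG (ha : a ≠ ⊥) : 0 < NI a := Nat.pos_of_ne_zero fun h => ha (((aO2 n t).2.2.2.2.2.1 a).1 h)

/-- The sum formula. -/
theorem iso_sum (ha : a ≠ ⊥) (hb : b ≠ ⊥) {e s e' s' : ℂ} (hs : s ≠ 0) (hs' : s' ≠ 0) {R : Finset ℂ}
    (hR : IsSys a b R) {z z' : ℂ} (hz : z ∉ Lam (a * b)) (hz' : z' ∉ Lam (a * b)) :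
    s' / s * (xx (a * b) e' s' z - xx (a * b) e' s' z') =
      ∑ u ∈ R, (xx b e s (z + u) - xx b e s (z' + u)) := by
  have h9 := (aB9 n t a b ha hb R hR).1 z z' hz hz'
  have : ∑ u ∈ R, (xx b e s (z + u) - xx b e s (z' + u)) =
      (∑ u ∈ R, (wpC b (z + u) - wpC b (z' + u))) / s := by
    rw [Finset.sum_div]
    refine Finset.sum_congr rfl fun u _ => ?_
    unfold xx
    ring
  rw [this, ← h9]
  unfold xx
  field_simp
  ring

/-- Points of order `l` in `ℂ / Lam (a b)`, `l` prime to `N a`. -/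
theorem ord_up {l : ℕ} (hl : Nat.Coprime l (NI a)) {z : ℂ} (h1 : (l : ℂ) * z ∈ Lam b) (h2 : z ∉ Lam b) :
    z ∉ Lam (a * b) := fun h' => h2 (lam_copN hl h1 (NI_lam h'))

theorem ord_not {e s : ℂ} (hb : b ≠ ⊥) (hi : ICd v b e s) (hva : v (NI a : ℂ) = 1) {l : ℕ}
    (hl : Nat.Coprime l (NI a)) (hvl : v (l : ℂ) = 1) {z u : ℂ} (h1 : (l : ℂ) * z ∈ Lam b) (h2 : z ∉ Lam b)
    (hu : u ∈ Lam (a * b)) : ¬ Kr v (Lam b) (xx b e s) (z + u) := by
  intro hk
  have hK := sVCrd n t Γ v b e s hb hi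
  apply ord_up hl h1 h2
  have h3 : z + u ∈ Lam b := by
    refine kr_nat hK hk (j := l * NI a) ?_ ?_
    · rw [Nat.cast_mul, v.map_mul, hvl, hva, mul_one]
    · have e1 : ((l * NI a : ℕ) : ℂ) * (z + u) = (NI a : ℂ) * (l * z) + (l : ℂ) * (NI a * u) := by
        push_cast
        ring
      rw [e1]
      exact lam_add (lam_nat _ h1) (lam_nat _ (NI_lam hu))
  have e2 : z = (z + u) - u := by ring
  rw [e2]
  exact lam_sub (lam_mono h3) hu

theorem scale_le (ha : a ≠ ⊥) (hb : b ≠ ⊥) (hva : v (NI a : ℂ) = 1) {e s e' s' : ℂ} (hi : ICd v b e s)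
    (hg' : GCd v (a * b) e' s') : v (s' / s) ≤ 1 := by
  have hab : a * b ≠ ⊥ := mul_ne_zero ha hb
  have hK' := sVCrd n t Γ v (a * b) e' s' hab hg'.toICd
  obtain ⟨l, hl, hl1, hvl⟩ := ex_pr v (NI a)
  obtain ⟨l', hl', hl1', hvl'⟩ := ex_pr v l
  have hNa := NI_posG ha
  have c1 : Nat.Coprime l (NI a) := (Nat.Prime.coprime_iff_not_dvd hl).2 fun hd =>
    absurd (Nat.le_of_dvd hNa hd) (by omega)
  have c2 : Nat.Coprime l' (NI a) := (Nat.Prime.coprime_iff_not_dvd hl').2 fun hd =>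
    absurd (Nat.le_of_dvd hNa hd) (by omega)
  have c3 : Nat.Coprime l l' := (Nat.coprime_primes hl hl').2 (by omega)
  obtain ⟨z, hz1, hz2⟩ := ex_ord hb hl
  obtain ⟨z', hz1', hz2'⟩ := ex_ord hb hl'
  obtain ⟨-, -, R, hR, -⟩ := aL3 n t a b ha hb
  have hza := ord_up c1 hz1 hz2
  have hza' := ord_up c2 hz1' hz2'
  have hsum := iso_sum (e := e) (e' := e') ha hb hi.ne hg'.ne hR hza hza'
  have h1 : v (∑ u ∈ R, (xx b e s (z + u) - xx b e s (z' + u))) ≤ 1 := by
    refine vsum _ _ fun u hu => vsub ?_ ?_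
    · exact not_lt.1 fun h => ord_not hb hi hva c1 hvl hz1 hz2 (hR.mem u hu) (Or.inr h)
    · exact not_lt.1 fun h => ord_not hb hi hva c2 hvl' hz1' hz2' (hR.mem u hu) (Or.inr h)
  have n1 : ¬ Kr v (Lam (a * b)) (xx (a * b) e' s') z := fun hk => hza (kr_nat hK' hk hvl (lam_mono hz1))
  have n2 : ¬ Kr v (Lam (a * b)) (xx (a * b) e' s') z' := fun hk => hza' (kr_nat hK' hk hvl' (lam_mono hz1'))
  have h2 : v (xx (a * b) e' s' z - xx (a * b) e' s' z') = 1 := by
    refine le_antisymm (vsub (not_lt.1 fun h => n1 (Or.inr h)) (not_lt.1 fun h => n2 (Or.inr h))) ?_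
    by_contra hc
    have hvll : v ((l * l' : ℕ) : ℂ) = 1 := by rw [Nat.cast_mul, v.map_mul, hvl, hvl', mul_one]
    have fin : ∀ ε : ℂ, ε = 1 ∨ ε = -1 → z + ε * z' ∈ Lam (a * b) → False := by
      intro ε hε h5
      apply hza'
      refine lam_copN c3 ?_ (lam_mono hz1')
      have h6 : (l : ℂ) * (z + ε * z') ∈ Lam (a * b) := lam_nat _ h5
      have h7 : ε * ((l : ℂ) * z') ∈ Lam (a * b) := by
        have : ε * ((l : ℂ) * z') = (l : ℂ) * (z + ε * z') - l * z := by ring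
        rw [this]
        exact lam_sub h6 (lam_mono hz1)
      rcases hε with rfl | rfl
      · rwa [one_mul] at h7
      · rw [neg_one_mul] at h7
        exact lam_neg_iff.1 h7
    rcases hK'.sep hg'.ds n1 n2 (not_le.1 hc) with h5 | h5
    · refine fin 1 (Or.inl rfl) ?_
      rw [one_mul]
      refine kr_nat hK' h5 hvll ?_
      have : ((l * l' : ℕ) : ℂ) * (z + z') = (l' : ℂ) * (l * z) + l * (l' * z') := by push_cast; ring
      rw [this]
      exact lam_add (lam_nat _ (lam_mono hz1)) (lam_nat _ (lam_mono hz1'))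
    · refine fin (-1) (Or.inr rfl) ?_
      rw [neg_one_mul, ← sub_eq_add_neg]
      refine kr_nat hK' h5 hvll ?_
      have : ((l * l' : ℕ) : ℂ) * (z - z') = (l' : ℂ) * (l * z) - l * (l' * z') := by push_cast; ring
      rw [this]
      exact lam_sub (lam_nat _ (lam_mono hz1)) (lam_nat _ (lam_mono hz1'))
  have h3 := congrArg v hsum
  rw [v.map_mul, h2, mul_one] at h3
  rw [h3]
  exact h1

/-- The scaling factor is a unit if the degree of the isogeny is a unit. -/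
theorem scale_eq (ha : a ≠ ⊥) (hb : b ≠ ⊥) (hva : v (NI a : ℂ) = 1) {e s e' s' : ℂ} (hg : GCd v b e s)
    (hg' : GCd v (a * b) e' s') : v s' = v s := by
  have hab : a * b ≠ ⊥ := mul_ne_zero ha hb
  have h1 := scale_le ha hb hva hg.toICd hg'
  have hca : cjI a * a = sp (NI a : OO n t) := by rw [mul_comm]; exact ((aO3 n t).2.2.1 a).2.2
  have hcn : NI (cjI a) = NI a := ((aO3 n t).2.2.1 a).2.1
  have hN0 : (NI a : OO n t) ≠ 0 := by
    intro h0
    have := congrArg (fun u : OO n t => toC u) h0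
    simp only [toC_nat, toC_zero] at this
    exact (NI_posG ha).ne' (by exact_mod_cast this)
  have hc : cjI a ≠ ⊥ := by
    intro h0
    rw [h0] at hca
    have := sp_ne hN0
    rw [← hca] at this
    exact this (by simp)
  have hg2 := hg.sp hb hN0
  rw [← hca, mul_assoc] at hg2
  have h2 := scale_le hc hab (by rw [hcn]; exact hva) hg'.toICd hg2
  rw [toC_nat, v.map_div, v.map_mul, v.map_pow, hva, one_pow, one_mul] at h2
  rw [v.map_div] at h1
  have p1 : 0 < v s := zero_lt_iff.2 ((v.ne_zero_iff).2 hg.ne)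
  have p2 : 0 < v s' := zero_lt_iff.2 ((v.ne_zero_iff).2 hg'.ne)
  exact le_antisymm ((div_le_one₀ p1).1 h1) ((div_le_one₀ p2).1 h2)

/-- The values on the kernel, `v (N a) = 1`. -/
theorem val_up (ha : a ≠ ⊥) (hb : b ≠ ⊥) (hva : v (NI a : ℂ) = 1) {e s e' s' : ℂ} (hg : GCd v b e s)
    (hg' : GCd v (a * b) e' s') {z : ℂ} (hz : Kr v (Lam b) (xx b e s) z) (hz0 : z ∉ Lam b) :
    z ∉ Lam (a * b) ∧ v (xx (a * b) e' s' z) = v (xx b e s z) := by
  have hab : a * b ≠ ⊥ := mul_ne_zero ha hb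
  have hK := sVCrd n t Γ v b e s hb hg.toICd
  have hK' := sVCrd n t Γ v (a * b) e' s' hab hg'.toICd
  have hza : z ∉ Lam (a * b) := fun h' => hz0 (kr_nat hK hz hva (NI_lam h'))
  refine ⟨hza, ?_⟩
  have hbig : 1 < v (xx b e s z) := hz.resolve_left hz0
  obtain ⟨l, hl, hl1, hvl⟩ := ex_pr v (NI a)
  have hNa := NI_posG ha
  have c1 : Nat.Coprime l (NI a) := (Nat.Prime.coprime_iff_not_dvd hl).2 fun hd =>
    absurd (Nat.le_of_dvd hNa hd) (by omega)
  obtain ⟨z', hz1', hz2'⟩ := ex_ord hb hl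
  obtain ⟨-, -, R, hR, -⟩ := aL3 n t a b ha hb
  have hza' := ord_up c1 hz1' hz2'
  have hsum := iso_sum (e := e) (e' := e') ha hb hg.ne hg'.ne hR hza hza'
  have hsc : v (s' / s) = 1 := by
    rw [v.map_div, scale_eq ha hb hva hg hg']
    exact div_self ((v.ne_zero_iff).2 hg.ne)
  obtain ⟨u₀, hu₀, h0⟩ := hR.ex 0 (lam_zero _)
  have hu₀' : u₀ ∈ Lam b := by
    have := lam_neg h0
    simpa using this
  have hint : ∀ u ∈ R, v (xx b e s (z' + u)) ≤ 1 := fun u hu =>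
    not_lt.1 fun h => ord_not hb hg.toICd hva c1 hvl hz1' hz2' (hR.mem u hu) (Or.inr h)
  have h1 : v (∑ u ∈ R.erase u₀, (xx b e s (z + u) - xx b e s (z' + u))) ≤ 1 := by
    refine vsum _ _ fun u hu => ?_
    obtain ⟨hne, hu'⟩ := Finset.mem_erase.1 hu
    have hub : u ∉ Lam b := fun h => hne (hR.uni u hu' u₀ hu₀ (lam_sub h hu₀'))
    refine vsub (not_lt.1 fun h => hub ?_) (hint u hu')
    have h5 : Kr v (Lam b) (xx b e s) u := by
      have := hK.kr_sub (Or.inr h : Kr v (Lam b) (xx b e s) (z + u)) hz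
      rwa [add_sub_cancel_left] at this
    exact kr_nat hK h5 hva (NI_lam (hR.mem u hu'))
  rw [← Finset.add_sum_erase R _ hu₀, hK.ev (z + u₀) z (Or.inl (by rwa [add_sub_cancel_left]))] at hsum
  have h2 : v (xx b e s z - xx b e s (z' + u₀) + ∑ u ∈ R.erase u₀, (xx b e s (z + u) - xx b e s (z' + u))) =
      v (xx b e s z) := by
    have e1 : xx b e s z - xx b e s (z' + u₀) + ∑ u ∈ R.erase u₀, (xx b e s (z + u) - xx b e s (z' + u)) =
      xx b e s z + (∑ u ∈ R.erase u₀, (xx b e s (z + u) - xx b e s (z' + u)) - xx b e s (z' + u₀)) := by ring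
    rw [e1]
    exact v.map_add_eq_of_lt_left (lt_of_le_of_lt (vsub h1 (hint u₀ hu₀)) hbig)
  have h3 := congrArg v hsum
  rw [v.map_mul, hsc, one_mul, h2] at h3
  have n2 : v (xx (a * b) e' s' z') ≤ 1 := not_lt.1 fun h =>
    hza' (kr_nat hK' (Or.inr h : Kr v (Lam (a * b)) (xx (a * b) e' s') z') hvl (lam_mono hz1'))
  have e4 : xx (a * b) e' s' z = (xx (a * b) e' s' z - xx (a * b) e' s' z') + xx (a * b) e' s' z' := by ring
  rw [e4, v.map_add_eq_of_lt_left (by rw [h3]; exact lt_of_le_of_lt n2 hbig), h3]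

end

end Pool.Agent.DN
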