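import Pool.Agent.Lib.DN.R.KmA

/-!
# The kernel of reduction, all imaginary quadratic fields, 2: halving, the kernel is an `O`-module (helper46)
-/

set_option autoImplicit false

open scoped Pointwise nonZeroDivisors

noncomputable section

namespace Pool.Agent.DN

open Pool.Agent.MuZ Pool.Agent.FW NumberField IsDedekindDomain

/-- `4 x³ + b2 x² + 2 b4 x + b6` is a unit if the double is not in the kernel. -/
theorem KLn.psi_unit {G F Γ : Type} [AddCommGroup G] [Field F] [LinearOrderedCommGroupWithZero Γ]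
    {v : Valuation F Γ} {Λ : Set G} {x : G → F} {b2 b4 b6 b8 : F} (h : KLn v Λ x b2 b4 b6 b8)
    (hd : v (dsc b2 b4 b6 b8) = 1) {z : G} (hz : ¬ Kr v Λ x z) (hz2 : ¬ Kr v Λ x (z + z)) :
    v (4 * x z ^ 3 + b2 * x z ^ 2 + 2 * b4 * x z + b6) = 1 := by
  have c1 : v (x z) ≤ 1 := not_lt.1 fun h' => hz (Or.inr h')
  have c2 : v (x (z + z)) ≤ 1 := not_lt.1 fun h' => hz2 (Or.inr h')
  obtain ⟨-, e1⟩ := h.dup z fun h' => hz2 (Or.inl h')
  refine le_antisymm ?_ ?_
  · exact vadd (vadd (vadd (vmul (vof v 4) (vpow c1 3)) (vmul h.v2 (vpow c1 2)))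
      (vmul (vmul (vof v 2) h.v4) c1)) h.v6
  · by_contra hc
    have g1 := not_le.1 hc
    have g2 : v (x z ^ 4 - b4 * x z ^ 2 - 2 * b6 * x z - b8) < 1 := by
      rw [← e1]
      exact mmul c2 g1
    have g3 : v (dsc b2 b4 b6 b8) < 1 := by
      have : dsc b2 b4 b6 b8 = (12 * x z ^ 3 - b2 * x z ^ 2 - 10 * b4 * x z + b2 * b4 - 27 * b6) *
          (4 * x z ^ 3 + b2 * x z ^ 2 + 2 * b4 * x z + b6) - (48 * x z ^ 2 + 8 * b2 * x z + 32 * b4 - b2 ^ 2) *
            (x z ^ 4 - b4 * x z ^ 2 - 2 * b6 * x z - b8) := by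
        unfold dsc
        linear_combination (-12 * x z ^ 2 - 2 * b2 * x z - 8 * b4) * h.rel
      rw [this]
      refine msub (mmul ?_ g1) (mmul ?_ g2)
      · exact vsub (vadd (vsub (vsub (vmul (vof v 12) (vpow c1 3)) (vmul h.v2 (vpow c1 2)))
          (vmul (vmul (vof v 10) h.v4) c1)) (vmul h.v2 h.v4)) (vmul (vof v 27) h.v6)
      · exact vsub (vadd (vadd (vmul (vof v 48) (vpow c1 2)) (vmul (vmul (vof v 8) h.v2) c1))
          (vmul (vof v 32) h.v4)) (vpow h.v2 2)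
    rw [hd] at g3
    exact lt_irrefl _ g3

section

variable {n t : ℕ} [SqN n t] {Γ : Type} [LinearOrderedCommGroupWithZero Γ] {v : Valuation ℂ Γ}
  {a b : Ideal (OO n t)}

/-- `ψ` and `℘'`. -/
theorem psi_wd (hb : b ≠ ⊥) {e s z : ℂ} (hs : s ≠ 0) (hz : z ∉ Lam b) :
    s ^ 3 * (4 * xx b e s z ^ 3 + c2 e s * xx b e s z ^ 2 + 2 * c4 b e s * xx b e s z + c6 b e s) =
      wdC b z ^ 2 := by
  have h := (aB2 n t b hb z hz).1.1
  rw [h]
  unfold xx c2 c4 c6
  field_simp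
  ring

/-- HALVING in the kernel. -/
theorem kr_halfG (hb : b ≠ ⊥) {e s : ℂ} (hg : GCd v b e s) {z : ℂ} (hz : Kr v (Lam b) (xx b e s) z) :
    ∃ y : ℂ, Kr v (Lam b) (xx b e s) y ∧ 2 * y - z ∈ Lam b := by
  by_cases hz0 : z ∈ Lam b
  · exact ⟨0, Or.inl (lam_zero b), by rw [mul_zero, zero_sub]; exact lam_neg hz0⟩
  have hK := sVCrd n t Γ v b e s hb hg.toICd
  have hbig : 1 < v (xx b e s z) := hz.resolve_left hz0
  obtain ⟨T, T', hT⟩ := ex_ord2 hb
  obtain ⟨l, hl, hl1, hvl⟩ := ex_pr v 2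
  obtain ⟨u, hu1, hu2⟩ := ex_ord hb hl
  have hcop : Nat.Coprime l 2 := (Nat.coprime_primes hl Nat.prime_two).2 (by omega)
  have h2u : 2 * u ∉ Lam b := fun h' => hu2 (lam_copN hcop hu1 (by exact_mod_cast h'))
  have nu : ¬ Kr v (Lam b) (xx b e s) u := fun hk => hu2 (kr_nat hK hk hvl hu1)
  have n2u : ¬ Kr v (Lam b) (xx b e s) (u + u) := fun hk => by
    rw [← two_mul] at hk
    refine h2u (kr_nat hK hk hvl ?_)
    have : (l : ℂ) * (2 * u) = ((2 : ℕ) : ℂ) * (l * u) := by push_cast; ring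
    rw [this]
    exact lam_nat _ hu1
  have hpsi := hK.psi_unit hg.ds nu n2u
  by_contra hcon
  push Not at hcon
  have hc2 : 2 * (z / 2) = z := by ring
  have notk : ∀ U : ℂ, 2 * U ∈ Lam b → v (xx b e s (z / 2 + U)) ≤ 1 := by
    intro U hU
    refine not_lt.1 fun h => hcon (z / 2 + U) (Or.inr h) ?_
    have : 2 * (z / 2 + U) - z = 2 * U := by ring
    rw [this]
    exact hU
  have hB := aB15 n t b hb T T' hT.t1 hT.t2 hT.t3 hT.t4 hT.t5 u (z / 2) h2u (by rwa [hc2])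
  rw [hc2] at hB
  have hs := hg.ne
  have e1 : (xx b e s (z / 2) - xx b e s u) * (xx b e s (z / 2 + T) - xx b e s u) *
      (xx b e s (z / 2 + T') - xx b e s u) * (xx b e s (z / 2 + (T + T')) - xx b e s u) =
      -((4 * xx b e s u ^ 3 + c2 e s * xx b e s u ^ 2 + 2 * c4 b e s * xx b e s u + c6 b e s) *
        (xx b e s z - xx b e s (2 * u))) := by
    have hp := psi_wd (e := e) hb hs hu2
    rw [← hp] at hB
    have hxx : ∀ y y' : ℂ, wpC b y - wpC b y' = s * (xx b e s y - xx b e s y') := by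
      intro y y'
      unfold xx
      field_simp
      ring
    rw [hxx, hxx, hxx, hxx, hxx] at hB
    have hs4 : s ^ 4 ≠ 0 := pow_ne_zero 4 hs
    apply mul_left_cancel₀ hs4
    linear_combination hB
  have e2 := congrArg v e1
  have hu' : v (xx b e s u) ≤ 1 := not_lt.1 fun h => nu (Or.inr h)
  have h2u' : v (xx b e s (2 * u)) ≤ 1 := not_lt.1 fun h => n2u (by rw [← two_mul]; exact Or.inr h)
  rw [v.map_neg, v.map_mul (4 * xx b e s u ^ 3 + c2 e s * xx b e s u ^ 2 + 2 * c4 b e s * xx b e s u + c6 b e s),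
    hpsi, one_mul, v.map_sub_eq_of_lt_left (lt_of_le_of_lt h2u' hbig)] at e2
  have h0 := notk 0 (by rw [mul_zero]; exact lam_zero b)
  rw [add_zero] at h0
  have e3 : v ((xx b e s (z / 2) - xx b e s u) * (xx b e s (z / 2 + T) - xx b e s u) *
      (xx b e s (z / 2 + T') - xx b e s u) * (xx b e s (z / 2 + (T + T')) - xx b e s u)) ≤ 1 :=
    vmul (vmul (vmul (vsub h0 hu') (vsub (notk T hT.t1) hu')) (vsub (notk T' hT.t3) hu'))
      (vsub (notk (T + T') hT.t7) hu')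
  rw [e2] at e3
  exact absurd e3 (not_le.2 hbig)

/-- An odd element of `O` keeps the kernel. -/
theorem kr_oddm (hb : b ≠ ⊥) {e s : ℂ} (hg : GCd v b e s) {c : OO n t} (hc0 : c ≠ 0) (hc : Cop c 2)
    {z : ℂ} (hz : Kr v (Lam b) (xx b e s) z) : Kr v (Lam b) (xx b e s) (toC c * z) := by
  have hpr : PrI (sp c) 2 := ((aO6 n t).2.2.2.1 2 c two_pos).2 hc
  rcases (vof v 2).lt_or_eq with hv | hv
  · by_cases hz0 : z ∈ Lam b
    · exact Or.inl (lam_mul _ hz0)
    have hodd := NI_odd hpr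
    obtain ⟨-, h2⟩ := val_up (sp_ne hc0) hb (v_odd hv hodd) hg (hg.sp hb hc0) hz hz0
    rw [xx_sp hb hc0] at h2
    right
    rw [h2]
    exact hz.resolve_left hz0
  · obtain ⟨T, T', h⟩ := ex_ord2 hb
    have := kr_up hv (sp_ne hc0) hb hpr hg (hg.sp hb hc0) h hz
    rwa [Kr_sp hb hc0] at this

theorem cop_w : Cop ((1 : OO n t) + 2 * wI n t) 2 := by
  refine cop_congr (a := 1) (b := 1 + 2 * wI n t) ?_ ?_
  · refine ⟨-wI n t, ?_⟩
    push_cast
    ring
  · unfold Cop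
    rw [Nm_one]
    exact isCoprime_one_left

theorem kr_wG (hb : b ≠ ⊥) {e s : ℂ} (hg : GCd v b e s) {z : ℂ}
    (hz : Kr v (Lam b) (xx b e s) z) : Kr v (Lam b) (xx b e s) (toC (wI n t) * z) := by
  have hK := sVCrd n t Γ v b e s hb hg.toICd
  obtain ⟨y, hy, hyz⟩ := kr_halfG hb hg hz
  have hc0 : (1 : OO n t) + 2 * wI n t ≠ 0 := by
    intro h0
    have h1 := cop_w (n := n) (t := t)
    rw [h0] at h1
    unfold Cop at h1
    rw [Nm_zero] at h1
    have := Int.isCoprime_iff_gcd_eq_one.1 h1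
    norm_num at this
  have h1 := kr_oddm hb hg hc0 cop_w hy
  have h2 := hK.kr_sub h1 hy
  have h3 : Kr v (Lam b) (xx b e s) (toC (wI n t) * (2 * y - z)) := Or.inl (lam_mul _ hyz)
  have h4 := hK.kr_sub h2 h3
  have e1 : toC (1 + 2 * wI n t) * y - y - toC (wI n t) * (2 * y - z) = toC (wI n t) * z := by
    rw [toC_add, toC_one, toC_mul, toC_two]
    ring
  rwa [e1] at h4

/-- **The kernel is an `O`-module.** -/
theorem kr_mulG (hb : b ≠ ⊥) {e s : ℂ} (hg : GCd v b e s)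
    (α : OO n t) {z : ℂ} (hz : Kr v (Lam b) (xx b e s) z) : Kr v (Lam b) (xx b e s) (toC α * z) := by
  have hK := sVCrd n t Γ v b e s hb hg.toICd
  have e1 : toC α * z = (α.re : ℂ) * z + (α.im : ℂ) * (toC (wI n t) * z) := by
    rw [toC_apply, toC_wI]
    ring
  rw [e1]
  exact hK.kr_add (hK.kr_int hz _) (hK.kr_int (kr_wG hb hg hz) _)

end

end Pool.Agent.DN
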