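import Pool.Agent.Lib.DN.R.KmB

/-!
# The kernel of reduction, all imaginary quadratic fields, 3: all isogenies (helper46)
-/

set_option autoImplicit false

open scoped Pointwise nonZeroDivisors

noncomputable section

namespace Pool.Agent.DN

open Pool.Agent.MuZ Pool.Agent.FW NumberField IsDedekindDomain

section

variable {n t : ℕ} [SqN n t] {Γ : Type} [LinearOrderedCommGroupWithZero Γ] {v : Valuation ℂ Γ}
  {a b : Ideal (OO n t)}

theorem NI_topG : NI (⊤ : Ideal (OO n t)) = 1 := by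
  have h : (NI (sp (1 : OO n t)) : ℤ) = Nm (1 : OO n t) := (aO2 n t).2.2.2.1 _
  have h1 : sp (1 : OO n t) = ⊤ := Ideal.span_singleton_one
  rw [Nm_one, h1] at h
  exact_mod_cast h

/-- Two good coordinates of the same lattice. -/
theorem kr_indepG (hb : b ≠ ⊥) {e s e' s' : ℂ} (hg : GCd v b e s) (hg' : GCd v b e' s') :
    v s' = v s ∧ (∀ z : ℂ, Kr v (Lam b) (xx b e s) z → v (xx b e' s' z) = v (xx b e s z) ∨ z ∈ Lam b) ∧
    ∀ z : ℂ, Kr v (Lam b) (xx b e s) z → Kr v (Lam b) (xx b e' s') z := by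
  have e0 : (⊤ : Ideal (OO n t)) * b = b := Ideal.top_mul b
  have ht : (⊤ : Ideal (OO n t)) ≠ ⊥ := top_ne_bot
  have hv : v (NI (⊤ : Ideal (OO n t)) : ℂ) = 1 := by rw [NI_topG, Nat.cast_one, v.map_one]
  have hg1 : GCd v (⊤ * b) e' s' := by rw [e0]; exact hg'
  have h1 := scale_eq ht hb hv hg hg1
  have h2 : ∀ z : ℂ, Kr v (Lam b) (xx b e s) z → z ∉ Lam b → v (xx b e' s' z) = v (xx b e s z) := by
    intro z hz hz0
    have := (val_up ht hb hv hg hg1 hz hz0).2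
    rwa [e0] at this
  refine ⟨h1, fun z hz => ?_, fun z hz => ?_⟩
  · by_cases hz0 : z ∈ Lam b
    · exact Or.inr hz0
    · exact Or.inl (h2 z hz hz0)
  · by_cases hz0 : z ∈ Lam b
    · exact Or.inl hz0
    · right
      rw [h2 z hz hz0]
      exact hz.resolve_left hz0

/-- The kernel and isogenies of odd degree. -/
theorem kr_upodd (ha : a ≠ ⊥) (hb : b ≠ ⊥) (ha2 : PrI a 2) {e s e' s' : ℂ} (hg : GCd v b e s)
    (hg' : GCd v (a * b) e' s') {z : ℂ} (hz : Kr v (Lam b) (xx b e s) z) :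
    Kr v (Lam (a * b)) (xx (a * b) e' s') z := by
  rcases (vof v 2).lt_or_eq with hv | hv
  · by_cases hz0 : z ∈ Lam b
    · exact Or.inl (lam_mono hz0)
    obtain ⟨-, h2⟩ := val_up ha hb (v_odd hv (NI_odd ha2)) hg hg' hz hz0
    right
    rw [h2]
    exact hz.resolve_left hz0
  · obtain ⟨T, T', h⟩ := ex_ord2 hb
    exact kr_up hv ha hb ha2 hg hg' h hz

/-- A complementary ideal prime to `M`. -/
theorem ex_dual (ha : a ≠ ⊥) (M : ℕ) (hM : 0 < M) :
    ∃ (c : Ideal (OO n t)) (μ : OO n t), c ≠ ⊥ ∧ PrI c M ∧ μ ≠ 0 ∧ c * a = sp μ := by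
  have hca : cjI a * a = sp (NI a : OO n t) := by rw [mul_comm]; exact ((aO3 n t).2.2.1 a).2.2
  have hN0 : (NI a : OO n t) ≠ 0 := by
    intro h0
    have := congrArg (fun u : OO n t => toC u) h0
    simp only [toC_nat, toC_zero] at this
    exact (NI_posG ha).ne' (by exact_mod_cast this)
  have hc : cjI a ≠ ⊥ := by
    intro h0
    rw [h0] at hca
    have := sp_ne hN0
    rw [← hca] at this
    exact this (by simp)
  obtain ⟨c, hc0, hcM, α, α', hα, hα', he⟩ := ex_prime_to n t M hM hc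
  have h1 : sp (α * (NI a : OO n t)) = sp α' * (c * a) := by
    have e1 : sp (α * (NI a : OO n t)) = sp α * sp (NI a : OO n t) := (Ideal.span_singleton_mul_span_singleton _ _).symm
    rw [e1, ← hca, ← mul_assoc, he, mul_assoc]
  have h2 : α' ∣ α * (NI a : OO n t) := by
    have h3 : α * (NI a : OO n t) ∈ sp α' * (c * a) := by
      rw [← h1]
      exact Ideal.mem_span_singleton_self _
    obtain ⟨y, -, hy⟩ := Ideal.mem_span_singleton_mul.1 h3
    exact ⟨y, hy.symm⟩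
  obtain ⟨μ, hμ⟩ := h2
  have hμ0 : μ ≠ 0 := by
    rintro rfl
    rw [mul_zero] at hμ
    exact mul_ne_zero hα hN0 hμ
  refine ⟨c, μ, hc0, hcM, hμ0, ?_⟩
  have e2 : sp (α' * μ) = sp α' * sp μ := (Ideal.span_singleton_mul_span_singleton _ _).symm
  rw [hμ, e2] at h1
  exact ((Ideal.span_singleton_mul_right_inj hα').1 h1).symm

/-- **The kernel and all isogenies** (torsion points). -/
theorem kr_upG (ha : a ≠ ⊥) (hb : b ≠ ⊥) {e s e' s' : ℂ} (hg : GCd v b e s)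
    (hg' : GCd v (a * b) e' s') {z : ℂ} {N : ℕ} (hN : 0 < N) (hNz : (N : ℂ) * z ∈ Lam b)
    (hz : Kr v (Lam b) (xx b e s) z) : Kr v (Lam (a * b)) (xx (a * b) e' s') z := by
  obtain ⟨c, μ, hc0, hcM, hμ0, hcm⟩ := ex_dual ha (2 * N) (Nat.mul_pos two_pos hN)
  obtain ⟨hc2, hcN⟩ := ((aO6 n t).2.1 2 N c).1 hcM
  have hC := NI_posG hc0
  have hcc : cjI c * c = sp (NI c : OO n t) := by rw [mul_comm]; exact ((aO3 n t).2.2.1 c).2.2
  have hcn : NI (cjI c) = NI c := ((aO3 n t).2.2.1 c).2.1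
  have hC0 : (NI c : OO n t) ≠ 0 := by
    intro h0
    have := congrArg (fun u : OO n t => toC u) h0
    simp only [toC_nat, toC_zero] at this
    exact hC.ne' (by exact_mod_cast this)
  have hcb : cjI c ≠ ⊥ := by
    intro h0
    rw [h0] at hcc
    have := sp_ne hC0
    rw [← hcc] at this
    exact this (by simp)
  have hcb2 : PrI (cjI c) 2 := ((aO3 n t).2.2.2.2.1 c 2).2 hc2
  have hab : a * b ≠ ⊥ := mul_ne_zero ha hb
  have hcbb : cjI c * b ≠ ⊥ := mul_ne_zero hcb hb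
  have hkey : sp (NI c : OO n t) * (a * b) = sp μ * (cjI c * b) := by
    rw [← hcc, ← hcm]
    ring
  obtain ⟨e₁, s₁, hg₁⟩ := pgr n t v hcbb
  have h1 := kr_upodd hcb hb hcb2 hg hg₁ hz
  have hcoN : Nat.Coprime (NI c) N := ((aO6 n t).2.2.1 N c hN).1 hcN
  obtain ⟨x, y, hxy⟩ := Nat.isCoprime_iff_coprime.2 hcoN
  have h2 := kr_mulG hcbb hg₁ (μ * (x : OO n t)) h1
  have h3 : Kr v (Lam (sp μ * (cjI c * b))) (xx (sp μ * (cjI c * b)) (toC μ ^ 2 * e₁) (toC μ ^ 2 * s₁))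
      ((x : ℂ) * z) := by
    rw [Kr_sp hcbb hμ0]
    have : toC (μ * (x : OO n t)) * z = toC μ * ((x : ℂ) * z) := by
      rw [toC_mul, toC_int]
      ring
    rwa [this] at h2
  have hgμ := hg₁.sp hcbb hμ0
  have hgC := hg'.sp hab hC0
  rw [hkey] at hgC
  have h4 := (kr_indepG (mul_ne_zero (sp_ne hμ0) hcbb) hgμ hgC).2.2 _ h3
  rw [← hkey] at h4
  rw [Kr_sp hab hC0, toC_nat] at h4
  have hK' := sVCrd n t Γ v (a * b) e' s' hab hg'.toICd
  refine (hK'.kr_congr (z := z) ?_).2 h4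
  have hxy' : ((x * (NI c : ℤ) + y * (N : ℤ) : ℤ) : ℂ) = 1 := by rw [hxy]; simp
  push_cast at hxy'
  have e1 : z - (NI c : ℂ) * ((x : ℂ) * z) = toC (y : OO n t) * ((N : ℂ) * z) := by
    rw [toC_int]
    linear_combination (-z) * hxy'
  rw [e1]
  exact lam_mono (lam_mul _ hNz)

end

end Pool.Agent.DN
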