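import Pool.Agent.Lib.DN.R.KmD

/-!
# The kernel of reduction, all imaginary quadratic fields, 5: above two; a criterion for the supersingular case (helper46)
-/

set_option autoImplicit false

open scoped Pointwise nonZeroDivisors

noncomputable section

namespace Pool.Agent.DN

open Pool.Agent.MuZ Pool.Agent.FW NumberField IsDedekindDomain

section

variable {n t : ℕ} [SqN n t] {Γ : Type} [LinearOrderedCommGroupWithZero Γ] {v : Valuation ℂ Γ}
  {a b : Ideal (OO n t)}

theorem v4_lt (hv : v 2 < 1) : v (4 : ℂ) < 1 := by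
  have : (4 : ℂ) = 2 * 2 := by norm_num
  rw [this]
  exact mmul hv.le hv

/-- `b6` is a unit in the supersingular case. -/
theorem b6_unit (hv : v 2 < 1) {e s : ℂ} (hg : GCd v b e s) (h2 : v (c2 e s) < 1) : v (c6 b e s) = 1 := by
  refine le_antisymm hg.v6 ?_
  by_contra hc
  have h6 := not_le.1 hc
  have hd := hg.ds
  have : v (dsc (c2 e s) (c4 b e s) (c6 b e s) (c8 b e s)) < 1 := by
    unfold dsc
    refine msub (msub (msub ?_ ?_) ?_) ?_
    · exact mmul (vmul (vmul (vof v 9) h2.le) hg.v4) h6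
    · exact mmulr (mpow h2 two_ne_zero) hg.v8
    · refine mmulr ?_ (vpow hg.v4 3)
      have : (8 : ℂ) = 2 * 4 := by norm_num
      rw [this]
      exact mmul hv.le (v4_lt hv)
    · exact mmul (vof v 27) (mpow h6 two_ne_zero)
  exact absurd hd (ne_of_lt this)

/-- Doubling outside of the kernel, the supersingular case. -/
theorem ss_double (hv : v 2 < 1) (hb : b ≠ ⊥) {e s : ℂ} (hg : GCd v b e s) (h2 : v (c2 e s) < 1) {z : ℂ}
    (hz : ¬ Kr v (Lam b) (xx b e s) z) : ¬ Kr v (Lam b) (xx b e s) (z + z) ∧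
      v (4 * xx b e s z ^ 3 + c2 e s * xx b e s z ^ 2 + 2 * c4 b e s * xx b e s z + c6 b e s) = 1 := by
  have hK := sVCrd n t Γ v b e s hb hg.toICd
  have h6 := b6_unit hv hg h2
  have c1 : v (xx b e s z) ≤ 1 := not_lt.1 fun h' => hz (Or.inr h')
  have hz0 : z ∉ Lam b := fun h' => hz (Or.inl h')
  have hpsi : v (4 * xx b e s z ^ 3 + c2 e s * xx b e s z ^ 2 + 2 * c4 b e s * xx b e s z + c6 b e s) = 1 := by
    refine vcongr (y := c6 b e s) ?_ h6
    rw [add_sub_cancel_right]
    refine madd (madd ?_ ?_) ?_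
    · exact mmulr (v4_lt hv) (vpow c1 3)
    · exact mmulr h2 (vpow c1 2)
    · exact mmulr (mmulr hv hg.v4) c1
  refine ⟨?_, hpsi⟩
  have h2z : z + z ∉ Lam b := fun h' => by
    rw [hK.tw z hz0 h', v.map_zero] at hpsi
    exact zero_ne_one hpsi
  rintro (h' | h')
  · exact h2z h'
  · have e1 := congrArg v (hK.dup z h2z).2
    rw [v.map_mul, hpsi, mul_one] at e1
    have : v (xx b e s z ^ 4 - c4 b e s * xx b e s z ^ 2 - 2 * c6 b e s * xx b e s z - c8 b e s) ≤ 1 :=
      vsub (vsub (vsub (vpow c1 4) (vmul hg.v4 (vpow c1 2))) (vmul (vmul (vof v 2) hg.v6) c1)) hg.v8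
    rw [← e1] at this
    exact absurd this (not_le.2 h')

/-- The 2-power torsion is in the kernel. -/
theorem ss_two (hv : v 2 < 1) (hb : b ≠ ⊥) {e s : ℂ} (hg : GCd v b e s) (h2 : v (c2 e s) < 1) (j : ℕ) :
    ∀ z : ℂ, (2 : ℂ) ^ j * z ∈ Lam b → Kr v (Lam b) (xx b e s) z := by
  induction j with
  | zero =>
    intro z hz
    rw [pow_zero, one_mul] at hz
    exact Or.inl hz
  | succ j ih =>
    intro z hz
    by_contra hc
    refine (ss_double hv hb hg h2 hc).1 (ih (z + z) ?_)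
    have : (2 : ℂ) ^ j * (z + z) = 2 ^ (j + 1) * z := by ring
    rw [this]
    exact hz

/-- In the ordinary case at most one point of order two is in the kernel. -/
theorem small_val (hv : v 2 < 1) (hb : b ≠ ⊥) {e s : ℂ} (hi : ICd v b e s) (h2 : v (c2 e s) = 1) {U U' : ℂ}
    (hU : Ord2 b U U') (hbig : 1 < v (xx b e s U)) : v (xx b e s U') ≤ 1 := by
  by_contra hc
  have hs := hi.ne
  have b1 := big_val hb hi h2 hU.t1 hU.t2 hbig
  have b2 := big_val hb hi h2 hU.t3 hU.t4 (not_le.1 hc)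
  have k2' := (hU.sp3 hb (e := e) hs).2
  have k3' := hU.sp4 hb (e := e) hs
  have h4v := v4_lt hv
  have h5 : v (xx b e s (U + U')) < 1 := by
    have e1 : (4 * xx b e s U) * (4 * xx b e s U') * xx b e s (U + U') = -4 * c6 b e s := by
      rw [k2']
      ring
    have e2 := congrArg v e1
    rw [v.map_mul, v.map_mul, b1, b2, one_mul, one_mul] at e2
    rw [e2]
    exact mmulr (by rw [v.map_neg]; exact h4v) hi.v6
  have e3 : (4 * xx b e s U) * (4 * xx b e s U') =
      8 * c4 b e s - 4 * (xx b e s (U + U') * (4 * xx b e s U + 4 * xx b e s U')) := by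
    rw [k3']
    ring
  have e4 := congrArg v e3
  rw [v.map_mul, b1, b2, one_mul] at e4
  have h8 : v (8 : ℂ) < 1 := by
    have : (8 : ℂ) = 2 * 4 := by norm_num
    rw [this]
    exact mmul hv.le h4v
  have : v (8 * c4 b e s - 4 * (xx b e s (U + U') * (4 * xx b e s U + 4 * xx b e s U'))) < 1 :=
    msub (mmulr h8 hi.v4) (mmulr h4v (vmul h5.le (vadd b1.le b2.le)))
  exact absurd e4.symm (ne_of_lt this)

/-- The ordinary case: the point of order two in the kernel. -/
theorem ord_two (hv : v 2 < 1) (hb : b ≠ ⊥) {e s : ℂ} (hi : ICd v b e s) (h2 : v (c2 e s) = 1) :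
    ∃ T : ℂ, 2 * T ∈ Lam b ∧ T ∉ Lam b ∧ Kr v (Lam b) (xx b e s) T ∧
      ∀ w : ℂ, 2 * w ∈ Lam b → Kr v (Lam b) (xx b e s) w → w ∈ Lam b ∨ w - T ∈ Lam b := by
  have h40 : (4 : ℂ) ≠ 0 := by norm_num
  obtain ⟨T, T', hT, h1⟩ := exists_big (v := v) hb hi.ne (Or.inl (by
    rw [v.map_div, h2, one_div, ← v.map_inv]
    exact lt_inv h40 (v4_lt hv)))
  refine ⟨T, hT.t1, hT.t2, Or.inr h1, fun w hw hk => ?_⟩
  by_contra hc
  rw [not_or] at hc
  have hO : Ord2 b T w := ⟨hT.t1, hT.t2, hw, hc.1, fun h' => hc.2 (by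
    have := lam_neg h'
    rwa [neg_sub] at this)⟩
  exact absurd (small_val hv hb hi h2 hO h1) (not_le.2 (hk.resolve_left hc.1))

/-- If an element of the ring has a norm `2 m`, `m` odd, and kills `y`, then `2 y` is in the lattice up to `m`. -/
theorem nm_two {β : OO n t} {m : ℤ} (hm : ¬ (2 : ℤ) ∣ m) (hβ : Nm β = 2 * m) {y T : ℂ} (hy : 2 * y - T ∈ Lam b)
    (h2T : 2 * T ∈ Lam b) (h : toC β * y ∈ Lam b) : T ∈ Lam b := by
  have h1 : toC (cjO β) * (toC β * y) ∈ Lam b := lam_mul _ h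
  have h2 : ((2 * m : ℤ) : ℂ) * y ∈ Lam b := by
    rw [← hβ, toC_Nm, mul_comm (toC β), mul_assoc]
    exact h1
  have h3 : (m : ℂ) * T ∈ Lam b := by
    have e1 : (m : ℂ) * T = ((2 * m : ℤ) : ℂ) * y - toC (m : OO n t) * (2 * y - T) := by
      rw [toC_int]
      push_cast
      ring
    rw [e1]
    exact lam_sub h2 (lam_mul _ hy)
  obtain ⟨k, hk⟩ := Int.odd_iff.2 (Int.two_dvd_ne_zero.1 hm)
  have e2 : T = (m : ℂ) * T - toC (k : OO n t) * (2 * T) := by
    rw [toC_int, hk]
    push_cast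
    ring
  rw [e2]
  exact lam_sub h3 (lam_mul _ h2T)

/-- **Two ramified: the reduction above two is supersingular.** `π` has a norm `2 m`, `m` odd, also `π - 2`. -/
theorem ram_ss (hv : v 2 < 1) (hb : b ≠ ⊥) {e s : ℂ} (hg : GCd v b e s) {π : OO n t} {m m' : ℤ}
    (hm : ¬ (2 : ℤ) ∣ m) (hπ : Nm π = 2 * m) (hm' : ¬ (2 : ℤ) ∣ m') (hπ' : Nm (π - 2) = 2 * m') :
    v (c2 e s) < 1 := by
  refine lt_of_le_of_ne hg.v2 fun h2 => ?_
  have hK := sVCrd n t Γ v b e s hb hg.toICd
  obtain ⟨T, h2T, hT, hTk, huni⟩ := ord_two hv hb hg.toICd h2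
  obtain ⟨y, hy, hyT⟩ := kr_halfG hb hg hTk
  have hπT : toC π * T ∈ Lam b := by
    rcases huni (toC π * T) (by
      have : 2 * (toC π * T) = toC π * (2 * T) := by ring
      rw [this]
      exact lam_mul _ h2T) (kr_mulG hb hg π hTk) with h | h
    · exact h
    · exfalso
      -- `(π - 1) T` is in the lattice, `N (π - 1)` is odd
      have h3 : toC (cjO (π - 1)) * (toC (π - 1) * T) ∈ Lam b := by
        refine lam_mul _ ?_
        rw [toC_sub, toC_one, sub_mul, one_mul]
        exact h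
      have h4 : ((Nm (π - 1) : ℤ) : ℂ) * T ∈ Lam b := by
        rw [toC_Nm, mul_comm (toC (π - 1)), mul_assoc]
        exact h3
      have h5 : ¬ (2 : ℤ) ∣ Nm (π - 1) := by
        have e5 : 2 * Nm (π - 1) = Nm π + Nm (π - 2) - 2 := by
          unfold Nm
          rw [QuadraticAlgebra.re_sub, QuadraticAlgebra.im_sub, QuadraticAlgebra.re_sub,
            QuadraticAlgebra.im_sub, re_one, im_one]
          have r2 : (2 : OO n t).re = 2 := by have := re_nat (n := n) (t := t) 2; exact_mod_cast this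
          have i2 : (2 : OO n t).im = 0 := by have := im_nat (n := n) (t := t) 2; exact_mod_cast this
          rw [r2, i2]
          ring
        rw [hπ, hπ'] at e5
        intro hd
        omega
      obtain ⟨k, hk⟩ := Int.odd_iff.2 (Int.two_dvd_ne_zero.1 h5)
      apply hT
      have e2 : T = ((Nm (π - 1) : ℤ) : ℂ) * T - toC (k : OO n t) * (2 * T) := by
        rw [toC_int, hk]
        push_cast
        ring
      rw [e2]
      exact lam_sub h4 (lam_mul _ h2T)
  rcases huni (toC π * y) (by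
      have : 2 * (toC π * y) = toC π * (2 * y - T) + toC π * T := by ring
      rw [this]
      exact lam_add (lam_mul _ hyT) hπT) (kr_mulG hb hg π hy) with h | h
  · exact hT (nm_two hm hπ hyT h2T h)
  · refine hT (nm_two hm' hπ' hyT h2T ?_)
    have : toC (π - 2) * y = (toC π * y - T) - (2 * y - T) := by
      rw [toC_sub, toC_two]
      ring
    rw [this]
    exact lam_sub h hyT

end

end Pool.Agent.DN
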