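import Pool.Agent.Lib.DN.R.KmE

/-!
# The kernel of reduction, all imaginary quadratic fields, 6: above three, not split: supersingular (helper46)

The third division polynomial of a Kummer line; `3` does not split: the 3-power torsion is in the kernel, `b₂` is in the maximal
ideal.
-/

set_option autoImplicit false

open scoped Pointwise nonZeroDivisors

noncomputable section

namespace Pool.Agent.DN

open Pool.Agent.MuZ Pool.Agent.FW NumberField IsDedekindDomain

section kl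

variable {G F Γ : Type} [AddCommGroup G] [Field F] [LinearOrderedCommGroupWithZero Γ] {v : Valuation F Γ}
  {Λ : Set G} {x : G → F} {b2 b4 b6 b8 : F}

/-- The third division polynomial, on the points whose multiple by 3 is in the kernel. -/
theorem KLn.psi3 (h : KLn v Λ x b2 b4 b6 b8) {z : G} (hz : ¬ Kr v Λ x z) (h3 : Kr v Λ x (z + z + z)) :
    v (3 * x z ^ 4 + b2 * x z ^ 3 + 3 * b4 * x z ^ 2 + 3 * b6 * x z + b8) < 1 := by
  have c1 : v (x z) ≤ 1 := not_lt.1 fun h' => hz (Or.inr h')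
  have hn : ¬ Kr v Λ x (-z) := fun h' => hz (by
    have := h.kr_neg h'
    rwa [neg_neg] at this)
  have hx : x (-z) = x z := h.ev _ _ (Or.inr (by rw [neg_add_cancel]; exact h.zero))
  have h2 : ¬ Kr v Λ x (z + z) := fun h' => hz (by
    have := h.kr_sub h3 h'
    have e : z + z + z - (z + z) = z := by abel
    rwa [e] at this)
  have hr := h.red hn h3
  have e : -z + (z + z + z) = z + z := by abel
  rw [e, hx] at hr
  have hd := (h.dup z (fun h' => h2 (Or.inl h'))).2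
  have key : 3 * x z ^ 4 + b2 * x z ^ 3 + 3 * b4 * x z ^ 2 + 3 * b6 * x z + b8 =
      -((x (z + z) - x z) * (4 * x z ^ 3 + b2 * x z ^ 2 + 2 * b4 * x z + b6)) := by
    linear_combination hd
  rw [key]
  refine mneg (mmulr hr ?_)
  exact vadd (vadd (vadd (vmul (vof v 4) (vpow c1 3)) (vmul h.v2 (vpow c1 2)))
    (vmul (vmul (vof v 2) h.v4) c1)) h.v6

/-- The third division polynomial at the points of order three. -/
theorem KLn.psi3_zero (h : KLn v Λ x b2 b4 b6 b8) {z : G} (hz : z ∉ Λ) (h3 : z + z + z ∈ Λ) :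
    3 * x z ^ 4 + b2 * x z ^ 3 + 3 * b4 * x z ^ 2 + 3 * b6 * x z + b8 = 0 := by
  have h2 : z + z ∉ Λ := fun h' => hz (by
    have := h.sub h3 h'
    have e : z + z + z - (z + z) = z := by abel
    rwa [e] at this)
  have hx : x (z + z) = x z := h.ev _ _ (Or.inr h3)
  have hd := (h.dup z h2).2
  rw [hx] at hd
  linear_combination hd

/-- Ordinary case: `x(z)` is determined modulo the maximal ideal by `3 z` in the kernel. -/
theorem KLn.ord3 (h : KLn v Λ x b2 b4 b6 b8) (hd : v (dsc b2 b4 b6 b8) = 1) (hv : v 3 < 1) (h2 : v b2 = 1)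
    {z z' : G} (hz : ¬ Kr v Λ x z) (hz' : ¬ Kr v Λ x z') (h3 : Kr v Λ x (z + z + z))
    (h3' : Kr v Λ x (z' + z' + z')) : Kr v Λ x (z + z') ∨ Kr v Λ x (z - z') := by
  refine h.sep hd hz hz' ?_
  have c1 : v (x z) ≤ 1 := not_lt.1 fun h' => hz (Or.inr h')
  have c1' : v (x z') ≤ 1 := not_lt.1 fun h' => hz' (Or.inr h')
  have k1 := h.psi3 hz h3
  have k2 := h.psi3 hz' h3'
  have e1 : b2 * (x z - x z') ^ 3 =
      (3 * x z ^ 4 + b2 * x z ^ 3 + 3 * b4 * x z ^ 2 + 3 * b6 * x z + b8) -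
      (3 * x z' ^ 4 + b2 * x z' ^ 3 + 3 * b4 * x z' ^ 2 + 3 * b6 * x z' + b8) -
      3 * (x z ^ 4 - x z' ^ 4 + b4 * (x z ^ 2 - x z' ^ 2) + b6 * (x z - x z') +
        b2 * (x z * x z' * (x z - x z'))) := by ring
  have e2 : v (b2 * (x z - x z') ^ 3) < 1 := by
    rw [e1]
    refine msub (msub k1 k2) (mmulr hv ?_)
    exact vadd (vadd (vadd (vsub (vpow c1 4) (vpow c1' 4)) (vmul h.v4 (vsub (vpow c1 2) (vpow c1' 2))))
      (vmul h.v6 (vsub c1 c1'))) (vmul h.v2 (vmul (vmul c1 c1') (vsub c1 c1')))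
  rw [v.map_mul, h2, one_mul, v.map_pow] at e2
  exact not_le.1 fun h' => absurd e2 (not_lt.2 (one_le_pow₀ h'))

/-- `b₈` is a unit in the supersingular case. -/
theorem b8_unit3 (h : KLn v Λ x b2 b4 b6 b8) (hd : v (dsc b2 b4 b6 b8) = 1) (hv : v 3 < 1) (h2 : v b2 < 1) :
    v b4 = 1 ∧ v b8 = 1 := by
  have v2 : v (2 : F) = 1 := by
    refine vcongr (y := -1) ?_ (by rw [v.map_neg, v.map_one])
    have : (2 : F) - -1 = 3 := by norm_num
    rwa [this]
  have h4 : v b4 = 1 := by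
    refine le_antisymm h.v4 (not_lt.1 fun h4 => ?_)
    have : v (dsc b2 b4 b6 b8) < 1 := by
      unfold dsc
      refine msub (msub (msub ?_ ?_) ?_) ?_
      · exact mmulr (mmul (vmul (vof v 9) h2.le) h4) h.v6
      · exact mmulr (mpow h2 two_ne_zero) h.v8
      · exact mmul (vof v 8) (mpow h4 three_ne_zero)
      · refine mmulr ?_ (vpow h.v6 2)
        have : (27 : F) = 3 * 9 := by norm_num
        rw [this]
        exact mmulr hv (vof v 9)
    exact absurd hd (ne_of_lt this)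
  refine ⟨h4, ?_⟩
  have e1 : v (4 * b8) = 1 := by
    refine vcongr (y := -b4 ^ 2) ?_ (by rw [v.map_neg, v.map_pow, h4, one_pow])
    have : 4 * b8 - -b4 ^ 2 = b2 * b6 := by rw [h.rel]; ring
    rw [this]
    exact mmulr h2 h.v6
  have v4 : v (4 : F) = 1 := by
    have : (4 : F) = 2 * 2 := by norm_num
    rw [this, v.map_mul, v2, one_mul]
  rwa [v.map_mul, v4, one_mul] at e1

/-- Supersingular case: the division polynomial is a unit outside of the kernel. -/
theorem KLn.ss3 (h : KLn v Λ x b2 b4 b6 b8) (hd : v (dsc b2 b4 b6 b8) = 1) (hv : v 3 < 1) (h2 : v b2 < 1)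
    {z : G} (hz : ¬ Kr v Λ x z) :
    v (3 * x z ^ 4 + b2 * x z ^ 3 + 3 * b4 * x z ^ 2 + 3 * b6 * x z + b8) = 1 := by
  have c1 : v (x z) ≤ 1 := not_lt.1 fun h' => hz (Or.inr h')
  refine vcongr (y := b8) ?_ (b8_unit3 h hd hv h2).2
  rw [add_sub_cancel_right]
  exact madd (madd (madd (mmulr hv (vpow c1 4)) (mmulr h2 (vpow c1 3)))
    (mmulr (mmulr hv h.v4) (vpow c1 2))) (mmulr (mmulr hv h.v6) c1)

/-- Two different non-integral roots of the division polynomial: `b₂` is in the maximal ideal. -/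
theorem b2_small (hv : v 3 < 1) (h4 : v b4 ≤ 1) (h6 : v b6 ≤ 1) (h8 : v b8 ≤ 1) {y y' : F} (hy : 1 < v y)
    (hy' : 1 < v y') (hne : y ≠ y') (h1 : 3 * y ^ 4 + b2 * y ^ 3 + 3 * b4 * y ^ 2 + 3 * b6 * y + b8 = 0)
    (h1' : 3 * y' ^ 4 + b2 * y' ^ 3 + 3 * b4 * y' ^ 2 + 3 * b6 * y' + b8 = 0) : v b2 < 1 := by
  have hy0 : y ≠ 0 := ne_zero_of_lt hy
  have hy0' : y' ≠ 0 := ne_zero_of_lt hy'
  obtain ⟨i, hi⟩ : ∃ i, i = y⁻¹ := ⟨_, rfl⟩
  obtain ⟨i', hi'⟩ : ∃ i', i' = y'⁻¹ := ⟨_, rfl⟩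
  have vi : v i < 1 := by rw [hi]; exact inv_lt hy
  have vi' : v i' < 1 := by rw [hi']; exact inv_lt hy'
  have hyi : y * i = 1 := by rw [hi]; exact mul_inv_cancel₀ hy0
  have hyi' : y' * i' = 1 := by rw [hi']; exact mul_inv_cancel₀ hy0'
  have k : 3 + b2 * i + 3 * b4 * i ^ 2 + 3 * b6 * i ^ 3 + b8 * i ^ 4 = 0 := by
    have : 3 + b2 * i + 3 * b4 * i ^ 2 + 3 * b6 * i ^ 3 + b8 * i ^ 4 =
        (3 * y ^ 4 + b2 * y ^ 3 + 3 * b4 * y ^ 2 + 3 * b6 * y + b8) * i ^ 4 := by
      have e4 : y ^ 4 * i ^ 4 = 1 := by rw [← mul_pow, hyi, one_pow]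
      have e3 : y ^ 3 * i ^ 3 = 1 := by rw [← mul_pow, hyi, one_pow]
      have e2 : y ^ 2 * i ^ 2 = 1 := by rw [← mul_pow, hyi, one_pow]
      linear_combination (-3) * e4 - b2 * i * e3 - 3 * b4 * i ^ 2 * e2 - 3 * b6 * i ^ 3 * hyi
    rw [this, h1, zero_mul]
  have k' : 3 + b2 * i' + 3 * b4 * i' ^ 2 + 3 * b6 * i' ^ 3 + b8 * i' ^ 4 = 0 := by
    have : 3 + b2 * i' + 3 * b4 * i' ^ 2 + 3 * b6 * i' ^ 3 + b8 * i' ^ 4 =
        (3 * y' ^ 4 + b2 * y' ^ 3 + 3 * b4 * y' ^ 2 + 3 * b6 * y' + b8) * i' ^ 4 := by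
      have e4 : y' ^ 4 * i' ^ 4 = 1 := by rw [← mul_pow, hyi', one_pow]
      have e3 : y' ^ 3 * i' ^ 3 = 1 := by rw [← mul_pow, hyi', one_pow]
      have e2 : y' ^ 2 * i' ^ 2 = 1 := by rw [← mul_pow, hyi', one_pow]
      linear_combination (-3) * e4 - b2 * i' * e3 - 3 * b4 * i' ^ 2 * e2 - 3 * b6 * i' ^ 3 * hyi'
    rw [this, h1', zero_mul]
  have hii : i - i' ≠ 0 := fun h => hne (by
    have h2 : i = i' := sub_eq_zero.1 h
    rw [hi, hi'] at h2
    exact inv_injective h2)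
  have e : b2 = -(3 * b4 * (i + i') + 3 * b6 * (i ^ 2 + i * i' + i' ^ 2) +
      b8 * (i ^ 3 + i ^ 2 * i' + i * i' ^ 2 + i' ^ 3)) := by
    refine mul_left_cancel₀ hii ?_
    linear_combination k - k'
  rw [e]
  refine mneg (madd (madd ?_ ?_) ?_)
  · exact mmulr (mmulr hv h4) (vadd vi.le vi'.le)
  · exact mmulr (mmulr hv h6) (vadd (vadd (vpow vi.le 2) (vmul vi.le vi'.le)) (vpow vi'.le 2))
  · refine mmul h8 (madd (madd (madd ?_ ?_) ?_) ?_)
    · exact mpow vi three_ne_zero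
    · exact mmul (vpow vi.le 2) vi'
    · exact mmul vi.le (mpow vi' two_ne_zero)
    · exact mpow vi' three_ne_zero

end kl

section

variable {n t : ℕ} [SqN n t] {Γ : Type} [LinearOrderedCommGroupWithZero Γ] {v : Valuation ℂ Γ}
  {b : Ideal (OO n t)}

/-- Divide by an integer prime to three. -/
theorem kr_cop3 (hb : b ≠ ⊥) {e s : ℂ} (hg : GCd v b e s) {m : ℤ} (hm : ¬ (3 : ℤ) ∣ m) {z : ℂ}
    (h1 : Kr v (Lam b) (xx b e s) ((m : ℂ) * z)) (h3 : Kr v (Lam b) (xx b e s) (3 * z)) :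
    Kr v (Lam b) (xx b e s) z := by
  have hK := sVCrd n t Γ v b e s hb hg.toICd
  have hc : IsCoprime (3 : ℤ) m := (Prime.coprime_iff_not_dvd Int.prime_three).2 hm
  obtain ⟨x, y, hxy⟩ := hc
  have e1 : z = toC (x : OO n t) * (3 * z) + toC (y : OO n t) * ((m : ℂ) * z) := by
    have := congrArg (fun u : ℤ => (u : ℂ)) hxy
    push_cast at this
    rw [toC_int, toC_int]
    linear_combination (-z) * this
  rw [e1]
  exact hK.kr_add (kr_mulG hb hg _ h3) (kr_mulG hb hg _ h1)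

theorem kr_nm3 (hb : b ≠ ⊥) {e s : ℂ} (hg : GCd v b e s) {u : OO n t} (hm : ¬ (3 : ℤ) ∣ Nm u) {z : ℂ}
    (h1 : Kr v (Lam b) (xx b e s) (toC u * z)) (h3 : Kr v (Lam b) (xx b e s) (3 * z)) :
    Kr v (Lam b) (xx b e s) z := by
  refine kr_cop3 hb hg hm ?_ h3
  have := kr_mulG hb hg (cjO u) h1
  rw [toC_Nm, mul_comm (toC u), mul_assoc]
  exact this

/-- The discriminant is not divisible by nine. -/
theorem Dk_nine : ¬ (9 : ℤ) ∣ (Dk n t : ℤ) := by
  intro h9
  rw [Dk_cast] at h9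
  have ht := (inferInstance : SqN n t).out
  rcases ht with ⟨h1, h2, h3⟩ | ⟨h1, h2, h3, h4⟩
  · subst h1
    have h5 : (3 : ℕ) * 3 ∣ 4 * n - 1 := by
      have : ((9 : ℕ) : ℤ) ∣ ((4 * n - 1 : ℕ) : ℤ) := by
        rw [Nat.cast_sub (by omega)]
        push_cast at h9 ⊢
        simpa using h9
      exact_mod_cast this
    have h6 := h3 3 h5
    rw [Nat.isUnit_iff] at h6
    omega
  · subst h1
    have h5 : (3 : ℕ) * 3 ∣ n := by
      have : (9 : ℤ) ∣ (n : ℤ) := by
        push_cast at h9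
        omega
      exact_mod_cast this
    have h6 := h3 3 h5
    rw [Nat.isUnit_iff] at h6
    omega

/-- The algebra of the norm of `w - c`. -/
theorem nm_wc (c : ℤ) : 4 * Nm (wI n t - (c : OO n t)) = (2 * c - t) ^ 2 + (Dk n t : ℤ) := by
  rw [Dk_cast]
  unfold Nm
  rw [QuadraticAlgebra.re_sub, QuadraticAlgebra.im_sub, re_int, im_int]
  simp only [wI]
  ring

/-- **Division by three.** `3` is not split, `v 3 < 1`: if `3 z` is in the kernel, so is `z`. -/
theorem three_div (hns : Dk n t % 3 ≠ 2) (hv : v 3 < 1) (hb : b ≠ ⊥) {e s : ℂ} (hg : GCd v b e s) {z : ℂ}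
    (h3 : Kr v (Lam b) (xx b e s) (3 * z)) : Kr v (Lam b) (xx b e s) z := by
  have hK := sVCrd n t Γ v b e s hb hg.toICd
  have e3 : ∀ y : ℂ, y + y + y = 3 * y := fun y => by ring
  by_contra hz
  rcases lt_or_eq_of_le hg.v2 with h2 | h2
  · have k1 := hK.psi3 hz (by rw [e3]; exact h3)
    rw [hK.ss3 hg.ds hv h2 hz] at k1
    exact lt_irrefl _ k1
  · have huni : ∀ y : ℂ, Kr v (Lam b) (xx b e s) (3 * y) → ¬ Kr v (Lam b) (xx b e s) y →
        Kr v (Lam b) (xx b e s) (y + z) ∨ Kr v (Lam b) (xx b e s) (y - z) := fun y hy hy' =>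
      hK.ord3 hg.ds hv h2 hy' hz (by rw [e3]; exact hy) (by rw [e3]; exact h3)
    have hw3 : Kr v (Lam b) (xx b e s) (3 * (toC (wI n t) * z)) := by
      have : 3 * (toC (wI n t) * z) = toC (wI n t) * (3 * z) := by ring
      rw [this]
      exact kr_mulG hb hg _ h3
    obtain ⟨c, hc⟩ : ∃ c : ℤ, Kr v (Lam b) (xx b e s) (toC (wI n t - (c : OO n t)) * z) := by
      by_cases hw : Kr v (Lam b) (xx b e s) (toC (wI n t) * z)
      · refine ⟨0, ?_⟩
        rw [toC_sub, toC_int]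
        simpa using hw
      · rcases huni _ hw3 hw with h | h
        · refine ⟨-1, ?_⟩
          rw [toC_sub, toC_int]
          have : (toC (wI n t) - ((-1 : ℤ) : ℂ)) * z = toC (wI n t) * z + z := by push_cast; ring
          rwa [this]
        · refine ⟨1, ?_⟩
          rw [toC_sub, toC_int]
          have : (toC (wI n t) - ((1 : ℤ) : ℂ)) * z = toC (wI n t) * z - z := by push_cast; ring
          rwa [this]
    set π := wI n t - (c : OO n t) with hπ
    have hN : (3 : ℤ) ∣ Nm π := by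
      by_contra hN
      exact hz (kr_nm3 hb hg hN hc h3)
    have h4N := nm_wc (n := n) (t := t) c
    rw [← hπ] at h4N
    obtain ⟨m', hm'⟩ := hN
    have hs3 : (3 : ℤ) ∣ 2 * c - t := by
      have h1 : ((2 * c - t) ^ 2 + (Dk n t : ℤ)) % 3 = 0 := by rw [← h4N, hm']; omega
      have h2 : (Dk n t : ℤ) % 3 ≠ 2 := by omega
      generalize hs : (2 * c - t : ℤ) = s at *
      have h5 : s % 3 = 0 ∨ s % 3 = 1 ∨ s % 3 = 2 := by omega
      rcases h5 with h5 | h5 | h5
      · exact Int.dvd_of_emod_eq_zero h5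
      · exfalso
        have h6 : s ^ 2 % 3 = 1 := by rw [pow_two, Int.mul_emod, h5]; norm_num
        omega
      · exfalso
        have h6 : s ^ 2 % 3 = 1 := by rw [pow_two, Int.mul_emod, h5]; norm_num
        omega
    obtain ⟨k, hk⟩ := hs3
    have hm3 : ¬ (3 : ℤ) ∣ m' := by
      rintro ⟨j, rfl⟩
      apply Dk_nine (n := n) (t := t)
      refine ⟨4 * j - k ^ 2, ?_⟩
      rw [hm', hk] at h4N
      linarith
    -- `π` kills all `y` with `3 y` in the kernel
    have hall : ∀ y : ℂ, Kr v (Lam b) (xx b e s) (3 * y) → Kr v (Lam b) (xx b e s) (toC π * y) := by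
      intro y hy
      by_cases hy' : Kr v (Lam b) (xx b e s) y
      · exact kr_mulG hb hg π hy'
      · rcases huni y hy hy' with h | h
        · have := hK.kr_sub (kr_mulG hb hg π h) hc
          have e1 : toC π * (y + z) - toC π * z = toC π * y := by ring
          rwa [e1] at this
        · have := hK.kr_add (kr_mulG hb hg π h) hc
          have e1 : toC π * (y - z) + toC π * z = toC π * y := by ring
          rwa [e1] at this
    have hcj : Kr v (Lam b) (xx b e s) (toC (cjO π) * z) := by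
      have e0 : cjO π = ((-(3 * k) : ℤ) : OO n t) - π := by
        have r1 : π.re = -c := by
          rw [hπ, QuadraticAlgebra.re_sub, re_int]
          simp [wI]
        have i1 : π.im = 1 := by
          rw [hπ, QuadraticAlgebra.im_sub, im_int]
          simp [wI]
        refine QuadraticAlgebra.ext ?_ ?_
        · rw [QuadraticAlgebra.re_sub, re_int, r1]
          simp only [cjO, r1, i1]
          linarith
        · rw [QuadraticAlgebra.im_sub, im_int, i1]
          simp only [cjO, i1]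
          ring
      have e1 : toC (cjO π) * z = toC ((-k : ℤ) : OO n t) * (3 * z) - toC π * z := by
        rw [e0, toC_sub, toC_int, toC_int]
        push_cast
        ring
      rw [e1]
      exact hK.kr_sub (kr_mulG hb hg _ h3) hc
    have hy := hall (toC (cjO π) * z / 3) (by
      have : 3 * (toC (cjO π) * z / 3) = toC (cjO π) * z := by ring
      rwa [this])
    refine hz (kr_cop3 hb hg hm3 ?_ h3)
    have e1 : toC π * (toC (cjO π) * z / 3) = (m' : ℂ) * z := by
      have h5 := toC_Nm π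
      rw [hm'] at h5
      push_cast at h5
      linear_combination (-z / 3) * h5
    rwa [e1] at hy

/-- The 3-power torsion is in the kernel. -/
theorem ss_three (hns : Dk n t % 3 ≠ 2) (hv : v 3 < 1) (hb : b ≠ ⊥) {e s : ℂ} (hg : GCd v b e s) (j : ℕ) :
    ∀ z : ℂ, (3 : ℂ) ^ j * z ∈ Lam b → Kr v (Lam b) (xx b e s) z := by
  induction j with
  | zero =>
    intro z hz
    rw [pow_zero, one_mul] at hz
    exact Or.inl hz
  | succ j ih =>
    intro z hz
    refine three_div hns hv hb hg (ih (3 * z) ?_)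
    have : (3 : ℂ) ^ j * (3 * z) = 3 ^ (j + 1) * z := by ring
    rw [this]
    exact hz

/-- A generator of the 3-torsion. -/
theorem ex_gen3 (hb : b ≠ ⊥) : ∃ g : ℂ, 3 * g ∈ Lam b ∧
    ∀ u : OO n t, toC u * g ∈ Lam b ↔ (3 : ℤ) ∣ u.re ∧ (3 : ℤ) ∣ u.im := by
  have h3 : ((3 : ℕ) : OO n t) ≠ 0 := by
    intro h0
    have := congrArg (fun u : OO n t => toC u) h0
    simp only [toC_nat, toC_zero] at this
    norm_num at this
  obtain ⟨⟨g, hg, hg'⟩, h3', -⟩ := aL3 n t (sp ((3 : ℕ) : OO n t)) b (sp_ne h3) hb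
  obtain ⟨h4, -⟩ := h3' g hg hg'
  refine ⟨g, ?_, fun u => ?_⟩
  · have := lam_sp.1 hg
    rw [toC_nat] at this
    exact_mod_cast this
  · rw [h4 u, Ideal.mem_span_singleton]
    exact_mod_cast nat_dvd_iff 3 u

/-- **Three not split: supersingular reduction.** -/
theorem ss3_c2 (hns : Dk n t % 3 ≠ 2) (hv : v 3 < 1) (hb : b ≠ ⊥) {e s : ℂ} (hg : GCd v b e s) :
    v (c2 e s) < 1 := by
  have hK := sVCrd n t Γ v b e s hb hg.toICd
  obtain ⟨g, hg3, hu⟩ := ex_gen3 hb
  have e3 : ∀ y : ℂ, y + y + y = 3 * y := fun y => by ring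
  have hn : g ∉ Lam b := fun h => by
    have := ((hu 1).1 (by rwa [toC_one, one_mul])).1
    rw [re_one] at this
    omega
  have wr : (wI n t).re = 0 := rfl
  have wi : (wI n t).im = 1 := rfl
  have hn' : toC (wI n t) * g ∉ Lam b := fun h => by
    have := ((hu _).1 h).2
    rw [wi] at this
    omega
  have h3' : 3 * (toC (wI n t) * g) ∈ Lam b := by
    have : 3 * (toC (wI n t) * g) = toC (wI n t) * (3 * g) := by ring
    rw [this]
    exact lam_mul _ hg3
  have hp : g + toC (wI n t) * g ∉ Lam b := fun h => by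
    have := ((hu (1 + wI n t)).1 (by rwa [toC_add, toC_one, add_mul, one_mul])).2
    rw [QuadraticAlgebra.im_add, im_one, wi] at this
    omega
  have hm : g - toC (wI n t) * g ∉ Lam b := fun h => by
    have := ((hu (1 - wI n t)).1 (by rwa [toC_sub, toC_one, sub_mul, one_mul])).2
    rw [QuadraticAlgebra.im_sub, im_one, wi] at this
    omega
  have hk : Kr v (Lam b) (xx b e s) g := three_div hns hv hb hg (Or.inl hg3)
  have hk' : Kr v (Lam b) (xx b e s) (toC (wI n t) * g) := three_div hns hv hb hg (Or.inl h3')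
  exact b2_small hv hg.v4 hg.v6 hg.v8 (hk.resolve_left hn) (hk'.resolve_left hn') (hK.ne _ _ hn hn' hp hm)
    (hK.psi3_zero hn (by rwa [e3])) (hK.psi3_zero hn' (by rwa [e3]))

end

end Pool.Agent.DN
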