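import Pool.Agent.Lib.DN.R.VK

/-!
# Potential good reduction for all imaginary quadratic fields, 1: the Kummer line of a node (helper46)

`b2 = 1`, `b4 = 2 A`, `b6 = 0`, `b8 = - A²`, `v A < 1`: the curve `W² = x (4 x² + x + 4 A)`.
-/

set_option autoImplicit false

noncomputable section

namespace Pool.Agent.DN

variable {G F Γ : Type} [AddCommGroup G] [Field F] [LinearOrderedCommGroupWithZero Γ]
  {v : Valuation F Γ} {Λ : Set G} {x : G → F} {A : F}

/-- The node. -/
structure Node (v : Valuation F Γ) (Λ : Set G) (x : G → F) (A : F) : Prop where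
  kl : KLn v Λ x 1 (2 * A) 0 (-A ^ 2)
  ne : A ≠ 0
  lt : v A < 1

/-- Two numbers with product of size `r²` and sum of size at most `r`. -/
theorem pair_eq {a b : F} {r : Γ} (h1 : v a * v b = r * r) (h2 : v (a + b) ≤ r) : v a = r := by
  rcases lt_trichotomy (v a) r with h | h | h
  · have h3 : r < v b := by
      by_contra hc
      have h0 : 0 < r := lt_of_le_of_lt zero_le' h
      have : v a * v b < r * r := lt_of_le_of_lt (mul_le_mul' le_rfl (not_lt.1 hc)) (by gcongr)
      exact absurd h1 (ne_of_lt this)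
    rw [v.map_add_eq_of_lt_right (lt_trans h h3)] at h2
    exact absurd h2 (not_le.2 h3)
  · exact h
  · have h3 : v b < r := by
      by_contra hc
      have h0 : 0 < v a := lt_of_le_of_lt zero_le' h
      rcases eq_or_ne r 0 with hr | hr
      · rw [hr] at h1 h2
        have : v b = 0 := by
          rcases mul_eq_zero.1 (h1.trans (mul_zero 0)) with h5 | h5
          · exact absurd h5 h0.ne'
          · exact h5
        rw [v.map_add_eq_of_lt_left (by rw [this]; exact h0)] at h2
        exact absurd h2 (not_le.2 h0)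
      · have hr0 : 0 < r := zero_lt_iff.2 hr
        have : r * r < v a * v b := lt_of_lt_of_le (b := v a * r) (by gcongr) (mul_le_mul' le_rfl (not_lt.1 hc))
        exact absurd h1 (ne_of_gt this)
    rw [v.map_add_eq_of_lt_left (lt_trans h3 h)] at h2
    exact absurd h2 (not_le.2 h)

namespace Node

variable (h : Node v Λ x A)
include h

theorem pos : 0 < v A := zero_lt_iff.2 ((v.ne_zero_iff).2 h.ne)

theorem dup {z : G} (hz : z + z ∉ Λ) :
    x (z + z) * (4 * x z ^ 3 + x z ^ 2 + 4 * A * x z) = (x z ^ 2 - A) ^ 2 := by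
  linear_combination (h.kl.dup z hz).2

theorem sum {z u : G} (hz : z ∉ Λ) (hu : u ∉ Λ) (h1 : z + u ∉ Λ) (h2 : z - u ∉ Λ) :
    (x (z + u) + x (z - u)) * (x z - x u) ^ 2 =
      x z * x u * (1 + 2 * (x z + x u)) + 2 * A * (x z + x u) := by
  linear_combination h.kl.kad z u hz hu h1 h2

theorem prod {z u : G} (hz : z ∉ Λ) (hu : u ∉ Λ) (h1 : z + u ∉ Λ) (h2 : z - u ∉ Λ) :
    x (z + u) * x (z - u) * (x z - x u) ^ 2 = (x z * x u - A) ^ 2 := by
  linear_combination h.kl.kml z u hz hu h1 h2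

/-- The half component goes to the component of the origin. -/
theorem dup_lo {z : G} (hz : z + z ∉ Λ) (hx : v (x z) ≤ v A) : 1 ≤ v (x (z + z)) := by
  by_contra hc
  have h0 := h.pos
  have e1 : v (x z ^ 2 - A) = v A := by
    refine v.map_sub_eq_of_lt_right ?_
    rw [v.map_pow, sq]
    calc v (x z) * v (x z) ≤ v A * v A := mul_le_mul' hx hx
      _ < 1 * v A := by gcongr; exact h.lt
      _ = v A := one_mul _
  have e2 : v (4 * x z ^ 3 + x z ^ 2 + 4 * A * x z) ≤ v A * v A := by
    have l1 : v (4 * x z ^ 3) ≤ v A * v A := by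
      have : (4 : F) * x z ^ 3 = (4 * x z) * (x z * x z) := by ring
      rw [this, v.map_mul, v.map_mul (x z)]
      refine le_trans (mul_le_of_le_one_left' (vmul (vof v 4) (le_trans hx h.lt.le))) (mul_le_mul' hx hx)
    have l2 : v (x z ^ 2) ≤ v A * v A := by
      rw [v.map_pow, sq]
      exact mul_le_mul' hx hx
    have l3 : v (4 * A * x z) ≤ v A * v A := by
      rw [mul_assoc, v.map_mul, v.map_mul A]
      exact le_trans (mul_le_of_le_one_left' (vof v 4)) (mul_le_mul' le_rfl hx)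
    exact v.map_add_le (v.map_add_le l1 l2) l3
  have e3 := congrArg v (h.dup hz)
  rw [v.map_mul, v.map_pow, e1, sq (v A)] at e3
  have : v (x (z + z)) * v (4 * x z ^ 3 + x z ^ 2 + 4 * A * x z) < v A * v A := by
    calc v (x (z + z)) * v (4 * x z ^ 3 + x z ^ 2 + 4 * A * x z) ≤ v (x (z + z)) * (v A * v A) :=
          mul_le_mul' le_rfl e2
      _ < 1 * (v A * v A) := by
          have : 0 < v A * v A := mul_pos h0 h0
          gcongr
          exact not_le.1 hc
      _ = v A * v A := one_mul _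
  exact absurd e3 (ne_of_lt this)

theorem dup_hi {z : G} (hz : z + z ∉ Λ) (hx : 1 ≤ v (x z)) : 1 ≤ v (x (z + z)) := by
  by_contra hc
  set r := v (x z) with hr
  have hr0 : 0 < r := lt_of_lt_of_le zero_lt_one hx
  have e1 : v (x z ^ 2 - A) = r * r := by
    rw [v.map_sub_eq_of_lt_left, v.map_pow, sq]
    rw [v.map_pow, sq]
    exact lt_of_lt_of_le h.lt (one_le_mul hx hx)
  have e2 : v (4 * x z ^ 3 + x z ^ 2 + 4 * A * x z) ≤ r * (r * r) := by
    have l1 : v (4 * x z ^ 3) ≤ r * (r * r) := by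
      have : (4 : F) * x z ^ 3 = 4 * (x z * (x z * x z)) := by ring
      rw [this, v.map_mul, v.map_mul (x z), v.map_mul (x z)]
      exact mul_le_of_le_one_left' (vof v 4)
    have l2 : v (x z ^ 2) ≤ r * (r * r) := by
      rw [v.map_pow, sq]
      exact le_mul_of_one_le_left' hx
    have l3 : v (4 * A * x z) ≤ r * (r * r) := by
      rw [v.map_mul]
      calc v (4 * A) * v (x z) ≤ 1 * v (x z) := mul_le_mul' (vmul (vof v 4) h.lt.le) le_rfl
        _ = r := one_mul _
        _ ≤ r * (r * r) := le_mul_of_one_le_right' (one_le_mul hx hx)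
    exact v.map_add_le (v.map_add_le l1 l2) l3
  have e3 := congrArg v (h.dup hz)
  rw [v.map_mul, v.map_pow, e1, sq (r * r)] at e3
  have : v (x (z + z)) * v (4 * x z ^ 3 + x z ^ 2 + 4 * A * x z) < r * r * (r * r) := by
    calc v (x (z + z)) * v (4 * x z ^ 3 + x z ^ 2 + 4 * A * x z) ≤ v (x (z + z)) * (r * (r * r)) :=
          mul_le_mul' le_rfl e2
      _ < 1 * (r * (r * r)) := by
          have : 0 < r * (r * r) := mul_pos hr0 (mul_pos hr0 hr0)
          gcongr
          exact not_le.1 hc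
      _ = 1 * r * (r * r) := by rw [one_mul, one_mul]
      _ ≤ r * r * (r * r) := mul_le_mul' (mul_le_mul' hx le_rfl) le_rfl
  exact absurd e3 (ne_of_lt this)

/-- Points of odd order are not in the half component. -/
theorem odd {z : G} (hz : z ∉ Λ) {N : ℕ} (hN : Odd N) (hNz : N • z ∈ Λ) : v A < v (x z) := by
  by_contra hc
  have hc := not_lt.1 hc
  have hnat : ∀ (w : G) (k : ℕ), w ∈ Λ → k • w ∈ Λ := by
    intro w k hw
    induction k with
    | zero => rw [zero_nsmul]; exact h.kl.zero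
    | succ k ih => rw [succ_nsmul]; exact h.kl.add _ ih _ hw
  have hJ : ∀ k : ℕ, 2 ^ (N.totient * k) • z - z ∈ Λ := by
    intro k
    have h1 : (2 ^ N.totient) ^ k ≡ 1 ^ k [MOD N] := (Nat.ModEq.pow_totient (Nat.coprime_two_left.2 hN)).pow k
    rw [← pow_mul, one_pow] at h1
    obtain ⟨m, hm⟩ := (Nat.modEq_iff_dvd' (Nat.one_le_two_pow)).1 h1.symm
    have h2 : 2 ^ (N.totient * k) = m * N + 1 := by
      have := Nat.one_le_two_pow (n := N.totient * k)
      rw [mul_comm m]
      omega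
    rw [h2, add_smul, one_smul, add_sub_cancel_right, mul_smul]
    exact hnat _ _ hNz
  have hpow : ∀ j : ℕ, 2 ^ j • z ∉ Λ := by
    intro j hj
    have hφ : 0 < N.totient := Nat.totient_pos.2 hN.pos
    have h1 := hJ j
    have h2 : 2 ^ (N.totient * j) • z ∈ Λ := by
      have : N.totient * j = (N.totient - 1) * j + j := by
        obtain ⟨p, hp⟩ := Nat.exists_eq_succ_of_ne_zero hφ.ne'
        rw [hp]
        simp only [Nat.succ_eq_add_one, Nat.add_sub_cancel]
        ring
      rw [this, pow_add, mul_smul]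
      exact hnat _ _ hj
    exact hz ((h.kl.mem_congr h1).1 h2)
  have hge : ∀ j : ℕ, 1 ≤ v (x (2 ^ (j + 1) • z)) := by
    intro j
    induction j with
    | zero =>
      have h1 : (2 : ℕ) ^ (0 + 1) • z = z + z := by rw [zero_add, pow_one, two_nsmul]
      have h2 := hpow (0 + 1)
      rw [h1] at h2 ⊢
      exact h.dup_lo h2 hc
    | succ j ih =>
      have h1 : (2 : ℕ) ^ (j + 1 + 1) • z = 2 ^ (j + 1) • z + 2 ^ (j + 1) • z := by
        rw [pow_succ, mul_comm, mul_smul, two_nsmul]
      have h2 := hpow (j + 1 + 1)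
      rw [h1] at h2 ⊢
      exact h.dup_hi h2 ih
  have hφ : 0 < N.totient := Nat.totient_pos.2 hN.pos
  have h3 := hge (N.totient - 1)
  have h4 := hJ 1
  rw [Nat.sub_add_cancel hφ] at h3
  rw [mul_one] at h4
  rw [h.kl.ev _ _ (Or.inl h4)] at h3
  exact absurd (le_trans h3 hc) (not_le.2 h.lt)

/-- Translation by a point of the component of the origin. -/
theorem trans {z u : G} (hz : z ∉ Λ) (hu : u ∉ Λ) (h1 : z + u ∉ Λ) (h2 : z - u ∉ Λ) (hvz : v (x z) = 1)
    (hvu : v A < v (x u)) (hvu' : v (x u) < 1) : v (x (z + u)) = v (x u) := by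
  have e0 : v (x z - x u) = 1 := by
    rw [v.map_sub_eq_of_lt_left (by rw [hvz]; exact hvu'), hvz]
  have e1 := congrArg v (h.prod hz hu h1 h2)
  have e2 := congrArg v (h.sum hz hu h1 h2)
  have e3 : v (x z * x u) = v (x u) := by rw [v.map_mul, hvz, one_mul]
  have e4 : v (x z * x u - A) = v (x u) := by
    rw [v.map_sub_eq_of_lt_left (by rw [e3]; exact hvu), e3]
  rw [v.map_mul, v.map_pow, e0, one_pow, mul_one, v.map_pow, e4, v.map_mul, sq] at e1
  rw [v.map_mul, v.map_pow, e0, one_pow, mul_one] at e2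
  refine pair_eq e1 ?_
  rw [e2]
  refine v.map_add_le ?_ ?_
  · rw [v.map_mul, e3]
    refine mul_le_of_le_one_right' ?_
    exact vadd (by rw [v.map_one]) (vmul (vof v 2) (vadd hvz.le hvu'.le))
  · rw [v.map_mul]
    refine le_trans (mul_le_of_le_one_right' (vadd hvz.le hvu'.le)) ?_
    rw [v.map_mul]
    exact le_trans (mul_le_of_le_one_left' (vof v 2)) hvu.le

theorem trans' {z u : G} (hz : z ∉ Λ) (hu : u ∉ Λ) (h1 : z + u ∉ Λ) (h2 : z - u ∉ Λ) (hvz : v (x z) = 1)
    (hvu : v (x u) = 1) (h3 : v (x (z + u)) ≤ 1) (h4 : v (x (z - u)) ≤ 1) : v (x (z + u)) = 1 := by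
  have e1 := congrArg v (h.prod hz hu h1 h2)
  have e4 : v (x z * x u - A) = 1 := by
    have : v (x z * x u) = 1 := by rw [v.map_mul, hvz, hvu, one_mul]
    rw [v.map_sub_eq_of_lt_left (by rw [this]; exact h.lt), this]
  rw [v.map_pow, e4, one_pow] at e1
  refine le_antisymm h3 ?_
  by_contra hc
  have : v (x (z + u) * x (z - u) * (x z - x u) ^ 2) < 1 :=
    mmulr (mmulr (not_le.1 hc) h4) (vpow (vsub hvz.le hvu.le) 2)
  exact absurd e1 (ne_of_lt this)

/-- The descent. -/
theorem desc {z g : G} (hz : z ∉ Λ) (hg : g ∉ Λ) (h1 : z + g ∉ Λ) (h2 : z - g ∉ Λ) (hA : v A < v (x z))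
    (hzg : v (x z) < v (x g)) (hg1 : v (x g) < 1) : v (x z) < v (x (z + g)) ∨ v (x z) < v (x (z - g)) := by
  have hz0 : 0 < v (x z) := lt_of_le_of_lt zero_le' hA
  have hg0 : 0 < v (x g) := lt_trans hz0 hzg
  have e2 := congrArg v (h.sum hz hg h1 h2)
  have e0 : v (x z - x g) = v (x g) := v.map_sub_eq_of_lt_right hzg
  have e3 : v (1 + 2 * (x z + x g)) = 1 := by
    refine vone ?_
    rw [add_sub_cancel_left]
    exact mmul (vof v 2) (madd (lt_trans hzg hg1) hg1)
  have e5 : v (x z * x g * (1 + 2 * (x z + x g)) + 2 * A * (x z + x g)) = v (x z) * v (x g) := by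
    have e6 : v (x z * x g * (1 + 2 * (x z + x g))) = v (x z) * v (x g) := by
      rw [v.map_mul, e3, mul_one, v.map_mul]
    rw [v.map_add_eq_of_lt_left, e6]
    rw [e6]
    have e7 : v (x z + x g) = v (x g) := v.map_add_eq_of_lt_right hzg
    rw [v.map_mul, e7, v.map_mul]
    calc v 2 * v A * v (x g) ≤ v A * v (x g) := mul_le_mul' (mul_le_of_le_one_left' (vof v 2)) le_rfl
      _ < v (x z) * v (x g) := by gcongr
  rw [e5, v.map_mul, v.map_pow, e0] at e2
  by_contra hc
  rw [not_or, not_lt, not_lt] at hc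
  have e8 : v (x (z + g) + x (z - g)) ≤ v (x z) := v.map_add_le hc.1 hc.2
  have : v (x (z + g) + x (z - g)) * v (x g) ^ 2 < v (x z) * v (x g) := by
    calc v (x (z + g) + x (z - g)) * v (x g) ^ 2 ≤ v (x z) * v (x g) ^ 2 := mul_le_mul' e8 le_rfl
      _ = v (x z) * (v (x g) * v (x g)) := by rw [sq]
      _ < v (x z) * (1 * v (x g)) := by gcongr
      _ = v (x z) * v (x g) := by rw [one_mul]
  exact absurd e2 (ne_of_lt this)

theorem desc' {z g : G} (hz : z ∉ Λ) (hg : g ∉ Λ) (h1 : z + g ∉ Λ) (h2 : z - g ∉ Λ) (hA : v A < v (x z))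
    (hzg : v (x z) = v (x g)) (hg1 : v (x g) < 1) : 1 ≤ v (x (z + g)) ∨ 1 ≤ v (x (z - g)) := by
  have hz0 : 0 < v (x z) := lt_of_le_of_lt zero_le' hA
  have e2 := congrArg v (h.sum hz hg h1 h2)
  have e3 : v (1 + 2 * (x z + x g)) = 1 := by
    refine vone ?_
    rw [add_sub_cancel_left]
    exact mmul (vof v 2) (madd (by rw [hzg]; exact hg1) hg1)
  have e5 : v (x z * x g * (1 + 2 * (x z + x g)) + 2 * A * (x z + x g)) = v (x z) * v (x z) := by
    have e6 : v (x z * x g * (1 + 2 * (x z + x g))) = v (x z) * v (x z) := by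
      rw [v.map_mul, e3, mul_one, v.map_mul, ← hzg]
    rw [v.map_add_eq_of_lt_left, e6]
    rw [e6]
    have e7 : v (x z + x g) ≤ v (x z) := v.map_add_le le_rfl hzg.ge
    rw [v.map_mul, v.map_mul]
    calc v 2 * v A * v (x z + x g) ≤ v A * v (x z) := mul_le_mul' (mul_le_of_le_one_left' (vof v 2)) e7
      _ < v (x z) * v (x z) := by gcongr
  rw [e5, v.map_mul, v.map_pow] at e2
  by_contra hc
  rw [not_or, not_le, not_le] at hc
  have e8 : v (x (z + g) + x (z - g)) < 1 := madd hc.1 hc.2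
  have e9 : v (x z - x g) ≤ v (x z) := v.map_sub_le le_rfl hzg.ge
  have : v (x (z + g) + x (z - g)) * v (x z - x g) ^ 2 < v (x z) * v (x z) := by
    calc v (x (z + g) + x (z - g)) * v (x z - x g) ^ 2 ≤
          v (x (z + g) + x (z - g)) * (v (x z) * v (x z)) := by
            rw [sq]
            exact mul_le_mul' le_rfl (mul_le_mul' e9 e9)
      _ < 1 * (v (x z) * v (x z)) := by
          have : 0 < v (x z) * v (x z) := mul_pos hz0 hz0
          gcongr
      _ = v (x z) * v (x z) := one_mul _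
  exact absurd e2 (ne_of_lt this)

end Node

end Pool.Agent.DN
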