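import Pool.Agent.Lib.DN.R.VLeg

/-!
# Potential good reduction for all imaginary quadratic fields, 2: inert primes (helper46)
-/

set_option autoImplicit false

open scoped Pointwise nonZeroDivisors NumberTheorySymbols

noncomputable section

namespace Pool.Agent.DN

open Pool.Agent.MuZ Pool.Agent.FW NumberField IsDedekindDomain

/-- An odd prime `q`, not dividing `m`, modulo which `-D` is not a square. -/
theorem exists_inert (D m : ℕ) (hD : 0 < D) (hm : 0 < m) :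
    ∃ q : ℕ, q.Prime ∧ ¬ q ∣ 2 * m ∧ ∀ a b : ℤ, (q : ℤ) ∣ a ^ 2 + D * b ^ 2 → (q : ℤ) ∣ a ∧ (q : ℤ) ∣ b := by
  set N : ℕ := 4 * D * m ^ 2 - 1 with hN
  have hpos : 0 < D * m ^ 2 := Nat.mul_pos hD (pow_pos hm 2)
  have hN1 : N + 1 = 4 * D * m ^ 2 := by
    have : 4 * D * m ^ 2 = 4 * (D * m ^ 2) := by ring
    omega
  have h3 : N % 4 = 3 := by
    have : 4 * D * m ^ 2 = 4 * (D * m ^ 2) := by ring
    omega
  have hodd : Odd N := by
    rw [Nat.odd_iff]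
    omega
  have hc : ((2 * m : ℕ) : ℤ).gcd N = 1 := by
    rw [Int.gcd_natCast_natCast]
    have h1 : Nat.gcd (2 * m) N ∣ N + 1 := by
      rw [hN1]
      have : 4 * D * m ^ 2 = 2 * m * (2 * D * m) := by ring
      rw [this]
      exact Dvd.dvd.mul_right (Nat.gcd_dvd_left _ _) _
    exact Nat.dvd_one.1 ((Nat.dvd_add_right (Nat.gcd_dvd_right _ _)).1 h1)
  have hJ : J(-(D : ℤ) | N) = -1 := by
    have h1 : J(-(D : ℤ) * ((2 * m : ℕ) : ℤ) ^ 2 | N) = J(-1 | N) := by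
      refine jacobiSym.mod_left' (Int.modEq_iff_dvd.2 ⟨1, ?_⟩)
      have : (N : ℤ) + 1 = 4 * D * m ^ 2 := by exact_mod_cast hN1
      push_cast
      linear_combination this.symm
    rw [jacobiSym.mul_left, jacobiSym.sq_one' hc, mul_one] at h1
    rw [h1, jacobiSym.at_neg_one hodd]
    exact ZMod.χ₄_nat_three_mod_four h3
  obtain ⟨q, hq, hqN, hqJ⟩ := jacobiSym.eq_neg_one_at_prime_divisor_of_eq_neg_one hJ
  refine ⟨q, hq, ?_, ?_⟩
  · intro hd
    have : q ∣ 1 := by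
      have h1 : q ∣ N + 1 := by
        rw [hN1]
        have : 4 * D * m ^ 2 = 2 * m * (2 * D * m) := by ring
        rw [this]
        exact Dvd.dvd.mul_right hd _
      exact (Nat.dvd_add_right hqN).1 h1
    exact hq.one_lt.ne' (Nat.dvd_one.1 this)
  · intro a b hab
    haveI : Fact q.Prime := ⟨hq⟩
    refine jacobiSym.prime_dvd_of_eq_neg_one hqJ (x := a) (y := b) ?_
    have : a ^ 2 - -(D : ℤ) * b ^ 2 = a ^ 2 + D * b ^ 2 := by ring
    rwa [this]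

/-- The elements `1 + 2 m w`. -/
theorem Nm_am {n t : ℕ} (m : ℕ) :
    Nm ((1 : OO n t) + 2 * (m : OO n t) * wI n t) = 1 + 2 * m * t + 4 * m ^ 2 * n := by
  have e : (1 : OO n t) + 2 * (m : OO n t) * wI n t = ⟨1, 2 * m⟩ := by
    have : (2 : OO n t) * (m : OO n t) = ((2 * m : ℕ) : OO n t) := by push_cast; rfl
    rw [this]
    ext
    · rw [QuadraticAlgebra.re_add, re_one, QuadraticAlgebra.re_mul, re_nat, im_nat]
      simp [wI]
    · rw [QuadraticAlgebra.im_add, im_one, QuadraticAlgebra.im_mul, re_nat, im_nat]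
      simp [wI]
  rw [e]
  unfold Nm
  simp only
  ring

theorem Dk_pos {n t : ℕ} [h : SqN n t] : 0 < Dk n t := by
  unfold Dk
  rcases h.out with ⟨ht, hn, -⟩ | ⟨ht, hn, -⟩
  · rw [ht]
    omega
  · rw [ht]
    omega

/-- `4 N(β) = (2 x + t y)² + D y²`. -/
theorem four_Nm' {n t : ℕ} [h : SqN n t] (β : OO n t) :
    4 * Nm β = (2 * β.re + t * β.im) ^ 2 + (Dk n t : ℤ) * β.im ^ 2 := by
  rw [Dk_cast]
  unfold Nm
  ring

/-- The prime `q` is inert. -/
theorem inert_dvd {n t : ℕ} [h : SqN n t] {q : ℕ} (hq : q.Prime) (hq2 : ¬ q ∣ 2)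
    (hq3 : ∀ a b : ℤ, (q : ℤ) ∣ a ^ 2 + Dk n t * b ^ 2 → (q : ℤ) ∣ a ∧ (q : ℤ) ∣ b) {β : OO n t}
    (hβ : (q : ℤ) ∣ Nm β) : (q : OO n t) ∣ β := by
  have h1 : (q : ℤ) ∣ (2 * β.re + t * β.im) ^ 2 + (Dk n t : ℤ) * β.im ^ 2 := by
    rw [← four_Nm']
    exact Dvd.dvd.mul_left hβ 4
  obtain ⟨h2, h3⟩ := hq3 _ _ h1
  have h4 : (q : ℤ) ∣ 2 * β.re := by
    have := dvd_sub h2 (Dvd.dvd.mul_left h3 (t : ℤ))
    rwa [add_sub_cancel_right] at this
  have h5 : (q : ℤ) ∣ β.re := by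
    rcases (Int.Prime.dvd_mul' hq h4) with h | h
    · exact absurd (by exact_mod_cast h) hq2
    · exact h
  exact (nat_dvd_iff q β).2 ⟨h5, h3⟩

/-- The prime `q` and the element `1 + 2 m w` for a valuation. -/
theorem exists_qm (n t : ℕ) [SqN n t] {Γ : Type} [LinearOrderedCommGroupWithZero Γ] (v : Valuation ℂ Γ) :
    ∃ m q : ℕ, 0 < m ∧ q.Prime ∧ ¬ q ∣ 2 * m ∧
      (∀ a b : ℤ, (q : ℤ) ∣ a ^ 2 + Dk n t * b ^ 2 → (q : ℤ) ∣ a ∧ (q : ℤ) ∣ b) ∧ v (q : ℂ) = 1 ∧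
      v ((Nm ((1 : OO n t) + 2 * (m : OO n t) * wI n t) : ℤ) : ℂ) = 1 := by
  have hD : 0 < Dk n t := Dk_pos
  by_cases hp : ∃ p : ℕ, p.Prime ∧ v (p : ℂ) < 1
  · obtain ⟨p, hp, hpv⟩ := hp
    obtain ⟨q, hq, h2, h3⟩ := exists_inert (Dk n t) p hD hp.pos
    refine ⟨p, q, hp.pos, hq, h2, h3, ?_, ?_⟩
    · refine le_antisymm (vnat v q) (not_lt.1 fun hlt => ?_)
      have hco : Nat.Coprime p q := (Nat.coprime_primes hp hq).2 fun h => h2 (h ▸ Dvd.intro_left _ rfl)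
      have h4 : IsCoprime (p : ℤ) (q : ℤ) := Nat.isCoprime_iff_coprime.2 hco
      obtain ⟨a, c, hac⟩ := h4
      have h5 : (a : ℂ) * p + (c : ℂ) * q = 1 := by exact_mod_cast congrArg (fun z : ℤ => (z : ℂ)) hac
      have h6 : v (1 : ℂ) < 1 := by
        rw [← h5]
        exact madd (mmul (vint v a) hpv) (mmul (vint v c) hlt)
      rw [v.map_one] at h6
      exact lt_irrefl _ h6
    · refine vone ?_
      rw [Nm_am]
      have : ((1 + 2 * (p : ℤ) * t + 4 * (p : ℤ) ^ 2 * n : ℤ) : ℂ) - 1 =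
          (p : ℂ) * ((2 * t + 4 * p * n : ℕ) : ℂ) := by
        push_cast
        ring
      rw [this]
      exact mmulr hpv (vnat v _)
  · push Not at hp
    have hall : ∀ j : ℕ, j ≠ 0 → v (j : ℂ) = 1 := by
      intro j
      induction j using Nat.recOnMul with
      | zero => intro h; exact absurd rfl h
      | one => intro _; rw [Nat.cast_one, v.map_one]
      | prime p hpp => intro _; exact le_antisymm (vnat v p) (hp p hpp)
      | mul a b ha hb =>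
        intro hab
        obtain ⟨h1, h2⟩ := mul_ne_zero_iff.1 hab
        rw [Nat.cast_mul, v.map_mul, ha h1, hb h2, mul_one]
    obtain ⟨q, hq, h2, h3⟩ := exists_inert (Dk n t) 1 hD one_pos
    refine ⟨1, q, one_pos, hq, h2, h3, hall q hq.ne_zero, ?_⟩
    rw [Nm_am]
    have : ((1 + 2 * ((1 : ℕ) : ℤ) * t + 4 * ((1 : ℕ) : ℤ) ^ 2 * n : ℤ) : ℂ) = ((1 + 2 * t + 4 * n : ℕ) : ℂ) := by
      push_cast
      ring
    rw [this]
    exact hall _ (by omega)

end Pool.Agent.DN
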