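import Pool.Agent.Lib.DN.R.VKM

/-!
# Theorem DN, part R: the kernel is an `O`-module where `2` is a unit (helper46)
-/

set_option autoImplicit false

open scoped Pointwise nonZeroDivisors

noncomputable section

namespace Pool.Agent.DN

open Pool.Agent.MuZ Pool.Agent.FW NumberField IsDedekindDomain
open Pool.Agent.DI (io ofC io_inj exists_io io_ofC ofC_io VP MP UP TP ex)

section

variable {n t : ℕ} {Γ : Type} [LinearOrderedCommGroupWithZero Γ] {v : Valuation ℂ Γ}

/-- The coordinate of `sp c * b`. -/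
theorem xx_sp [SqN n t] {b : Ideal (OO n t)} (hb : b ≠ ⊥) {c : OO n t} (hc : c ≠ 0) (e s z : ℂ) :
    xx (sp c * b) (toC c ^ 2 * e) (toC c ^ 2 * s) z = xx b e s (toC c * z) := by
  unfold xx
  rw [((aB7 n t b hb).1 c hc).1 z |>.1, ← mul_sub]
  exact mul_div_mul_left _ _ (pow_ne_zero 2 (toC_ne hc))

theorem GCd.sp [SqN n t] {b : Ideal (OO n t)} (hb : b ≠ ⊥) {c : OO n t} (hc : c ≠ 0) {e s : ℂ}
    (h : GCd v b e s) : GCd v (sp c * b) (toC c ^ 2 * e) (toC c ^ 2 * s) := by
  have hcC : toC c ≠ 0 := toC_ne hc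
  have hs := h.ne
  obtain ⟨-, g2, g3⟩ := (aB7 n t b hb).1 c hc
  have e2 : c2 (toC c ^ 2 * e) (toC c ^ 2 * s) = c2 e s := by
    unfold c2
    field_simp
  have e4 : c4 (DN.sp c * b) (toC c ^ 2 * e) (toC c ^ 2 * s) = c4 b e s := by
    unfold c4
    rw [g2]
    field_simp
  have e6 : c6 (DN.sp c * b) (toC c ^ 2 * e) (toC c ^ 2 * s) = c6 b e s := by
    unfold c6
    rw [g2, g3]
    field_simp
  have e8 : c8 (DN.sp c * b) (toC c ^ 2 * e) (toC c ^ 2 * s) = c8 b e s := by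
    unfold c8
    rw [e2, e4, e6]
  refine ⟨⟨mul_ne_zero (pow_ne_zero 2 hcC) hs, ?_, ?_, ?_, ?_⟩, ?_⟩
  · rw [e2]; exact h.v2
  · rw [e4]; exact h.v4
  · rw [e6]; exact h.v6
  · rw [e8]; exact h.v8
  · rw [e2, e4, e6, e8]; exact h.ds

theorem Kr_sp [SqN n t] {b : Ideal (OO n t)} (hb : b ≠ ⊥) {c : OO n t} (hc : c ≠ 0) (e s z : ℂ) :
    Kr v (Lam (sp c * b)) (xx (sp c * b) (toC c ^ 2 * e) (toC c ^ 2 * s)) z ↔
      Kr v (Lam b) (xx b e s) (toC c * z) := by
  unfold Kr
  rw [xx_sp hb hc, lam_sp]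

theorem wI_odd [h : Ine n t] : Cop (wI n t) 2 := by
  have := cop_two_of_odd (n := n) (t := t) 0
  simpa using this

theorem wI_ne : wI n t ≠ 0 := by
  intro h
  have := congrArg QuadraticAlgebra.im h
  simp [wI] at this

theorem kr_w [Ine n t] (hv : v 2 = 1) {b : Ideal (OO n t)} (hb : b ≠ ⊥) {e s : ℂ} (hg : GCd v b e s) {z : ℂ}
    (hz : Kr v (Lam b) (xx b e s) z) : Kr v (Lam b) (xx b e s) (toC (wI n t) * z) := by
  obtain ⟨T, T', h⟩ := ex_ord2 hb
  have hpr : PrI (sp (wI n t)) 2 := ((aO6 n t).2.2.2.1 2 (wI n t) two_pos).2 wI_odd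
  have := kr_up hv (sp_ne wI_ne) hb hpr hg (hg.sp hb wI_ne) h hz
  rwa [Kr_sp hb wI_ne] at this

theorem KLn.kr_int {b : Ideal (OO n t)} {x : ℂ → ℂ} {b2 b4 b6 b8 : ℂ} (h : KLn v (Lam b) x b2 b4 b6 b8)
    {z : ℂ} (hz : Kr v (Lam b) x z) (m : ℤ) : Kr v (Lam b) x ((m : ℂ) * z) := by
  rcases Int.natAbs_eq m with hm | hm
  · rw [hm, Int.cast_natCast, ← nsmul_eq_mul]
    exact h.kr_nsmul hz _
  · rw [hm, Int.cast_neg, Int.cast_natCast, neg_mul, ← nsmul_eq_mul]
    exact h.kr_neg (h.kr_nsmul hz _)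

theorem kr_mul [Ine n t] (hv : v 2 = 1) {b : Ideal (OO n t)} (hb : b ≠ ⊥) {e s : ℂ} (hg : GCd v b e s)
    (α : OO n t) {z : ℂ} (hz : Kr v (Lam b) (xx b e s) z) : Kr v (Lam b) (xx b e s) (toC α * z) := by
  have hK := sVCrd n t Γ v b e s hb hg.toICd
  have e1 : toC α * z = (α.re : ℂ) * z + (α.im : ℂ) * (toC (wI n t) * z) := by
    rw [toC_apply, toC_wI]
    ring
  rw [e1]
  exact hK.kr_add (hK.kr_int hz _) (hK.kr_int (kr_w hv hb hg hz) _)

theorem kr_unit [Ine n t] (hv : v 2 = 1) {b : Ideal (OO n t)} (hb : b ≠ ⊥) {e s : ℂ} (hg : GCd v b e s)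
    (m : ℕ) : ∀ (α : OO n t) (z : ℂ), Nm α ≤ m → v (toC α) = 1 → Kr v (Lam b) (xx b e s) z →
      toC α * z ∈ Lam b → z ∈ Lam b := by
  have hK := sVCrd n t Γ v b e s hb hg.toICd
  induction m with
  | zero =>
    intro α z h1 h2 _ _
    have h3 : α = 0 := Nm_eq_zero (le_antisymm (by exact_mod_cast h1) (Nm_nonneg α))
    rw [h3, toC_zero, v.map_zero] at h2
    exact absurd h2 zero_ne_one
  | succ m ih =>
    intro α z h1 h2 hz hαz
    have hα0 : α ≠ 0 := by
      rintro rfl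
      rw [toC_zero, v.map_zero] at h2
      exact zero_ne_one h2
    by_cases hc : Cop α 2
    · have hpr : PrI (sp α) 2 := ((aO6 n t).2.2.2.1 2 α two_pos).2 hc
      obtain ⟨T, T', h⟩ := ex_ord2 hb
      refine ker_odd hv (sp_ne hα0) hb hpr hg (hg.sp hb hα0) h ?_ (lam_sp.2 hαz) hz
      rw [v.map_mul, v.map_pow, h2, one_pow, one_mul]
    · have hd : (2 : OO n t) ∣ α := by
        by_contra hd
        exact hc (((aO4 n t).2.2.1 α).2 hd)
      obtain ⟨β, rfl⟩ := hd
      have hβ : v (toC β) = 1 := by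
        rw [toC_mul, toC_two, v.map_mul, hv, one_mul] at h2
        exact h2
      have hβ0 : β ≠ 0 := by
        rintro rfl
        exact hα0 (mul_zero _)
      refine ih β z ?_ hβ hz ?_
      · have h3 : Nm (2 * β) = 4 * Nm β := by
          have : Nm (2 : OO n t) = 4 := by
            have := Nm_nat (n := n) (t := t) 2
            exact_mod_cast this
          rw [Nm_mul, this]
        have h4 := Nm_pos hβ0
        rw [h3] at h1
        push_cast at h1
        omega
      · have hkβ := kr_mul hv hb hg β hz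
        refine hK.ker_nat hkβ (j := 2) (by exact_mod_cast hv) ?_
        rw [nsmul_eq_mul]
        have : ((2 : ℕ) : ℂ) * (toC β * z) = toC (2 * β) * z := by
          rw [toC_mul, toC_two]
          push_cast
          ring
        rw [this]
        exact hαz

end

theorem sVO : S_VO := by
  intro n t _ Γ _ v hv b hb e s hg
  exact ⟨fun α z hz => kr_mul hv hb hg α hz, fun α z h1 h2 h3 =>
    kr_unit hv hb hg (Nm α).toNat α z (by rw [Int.toNat_of_nonneg (Nm_nonneg α)]) h1 h2 h3⟩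

theorem sVEx : S_VEx := by
  intro Q hQ
  haveI := hQ.1
  let V₀ : ValuationSubring Om := ValuationSubring.ofSubring
    { carrier := {x | VP Q x}
      mul_mem' := fun h h' => DI.VP.mul h h'
      one_mem' := DI.VP.one
      add_mem' := fun h h' => DI.VP.add h h'
      zero_mem' := DI.VP.zero
      neg_mem' := fun h => DI.VP.neg h } (fun x => DI.VP.or_vp_inv x)
  have hV₀ : ∀ x : Om, x ∈ V₀ ↔ VP Q x := fun x => Iff.rfl
  obtain ⟨V, hle, hloc⟩ := (LocalSubring.map io V₀.toLocalSubring).exists_le_valuationSubring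
  have hA : ∀ x : Om, x ∈ V₀ → io x ∈ V.toSubring := fun x hx => hle (Subring.mem_map.2 ⟨x, hx, rfl⟩)
  have key : ∀ x : Om, io x ∈ V ↔ VP Q x := by
    intro x
    constructor
    · intro hx
      by_contra hn
      obtain ⟨hx0, hm⟩ := DI.VP.not_iff.1 hn
      have h1 : x⁻¹ ∈ V₀ := (hV₀ _).2 hm.vp
      have h2 : io x⁻¹ ∈ (LocalSubring.map io V₀.toLocalSubring).toSubring :=
        Subring.mem_map.2 ⟨x⁻¹, h1, rfl⟩
      have hu : IsUnit (Subring.inclusion hle ⟨io x⁻¹, h2⟩) := by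
        refine isUnit_iff_exists_inv.2 ⟨⟨io x, hx⟩, Subtype.ext ?_⟩
        change io x⁻¹ * io x = 1
        rw [← map_mul, inv_mul_cancel₀ hx0, map_one]
      obtain ⟨y, hy⟩ := isUnit_iff_exists_inv.1 (hloc.map_nonunit _ hu)
      obtain ⟨y', hy1, hy2⟩ := Subring.mem_map.1 y.2
      have h3 : io x⁻¹ * io y' = 1 := by
        have := congrArg Subtype.val hy
        rw [hy2]
        exact this
      have h4 : x⁻¹ * y' = 1 := io_inj (by rw [map_mul, h3, map_one])
      have h5 : y' = x := by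
        have := congrArg (fun u => x * u) h4
        simp only [mul_one] at this
        rw [mul_inv_cancel_left₀ hx0] at this
        exact this
      rw [h5] at hy1
      exact hn hy1
    · intro hx
      exact hA x hx
  have k1 : ∀ x : Om, V.valuation (io x) ≤ 1 ↔ VP Q x := fun x => by
    rw [V.valuation_le_one_iff]
    exact key x
  have k2 : ∀ x : Om, V.valuation (io x) < 1 ↔ MP Q x := by
    intro x
    by_cases hx : x = 0
    · subst hx
      rw [map_zero, map_zero]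
      exact ⟨fun _ => DI.MP.zero, fun _ => zero_lt_one⟩
    · have hx' : io x ≠ 0 := fun h => hx (io_inj (by rw [h, map_zero]))
      rw [Valuation.val_lt_one_iff _ hx', ← map_inv₀ io, ← not_le, k1, DI.VP.not_iff, inv_inv]
      exact ⟨fun h => h.2, fun h => ⟨inv_ne_zero hx, h⟩⟩
  refine ⟨V, k1, k2, fun x => ?_⟩
  constructor
  · intro h
    exact ⟨(k1 x).1 h.le, fun h' => absurd h (ne_of_lt ((k2 x).2 h'))⟩
  · intro h
    exact le_antisymm ((k1 x).2 h.1) (not_lt.1 fun h' => h.2 ((k2 x).1 h'))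

end Pool.Agent.DN
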