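import Pool.Agent.Lib.DN.R.PgA
import Pool.Agent.Lib.DN.R.PgB
import Pool.Agent.Lib.DN.R.VO

/-!
# Potential good reduction for all imaginary quadratic fields, 3: there is no multiplicative reduction (helper46)
-/

set_option autoImplicit false

open scoped Pointwise nonZeroDivisors

noncomputable section

namespace Pool.Agent.DN

open Pool.Agent.MuZ Pool.Agent.FW NumberField IsDedekindDomain

section

variable {n t : ℕ} {Γ : Type} [LinearOrderedCommGroupWithZero Γ]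

/-- `z` has a finite odd order, prime to the residue characteristic. -/
def GdP (v : Valuation ℂ Γ) (b : Ideal (OO n t)) (z : ℂ) : Prop :=
  ∃ N : ℕ, Odd N ∧ v (N : ℂ) = 1 ∧ (N : ℂ) * z ∈ Lam b

variable {v : Valuation ℂ Γ}

theorem GdP.add [SqN n t] {b : Ideal (OO n t)} {z z' : ℂ} (h : GdP v b z) (h' : GdP v b z') : GdP v b (z + z') := by
  obtain ⟨N, h1, h2, h3⟩ := h
  obtain ⟨N', h1', h2', h3'⟩ := h'
  refine ⟨N * N', h1.mul h1', by rw [Nat.cast_mul, v.map_mul, h2, h2', mul_one], ?_⟩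
  have e : ((N * N' : ℕ) : ℂ) * (z + z') = N' * (N * z) + N * (N' * z') := by
    push_cast
    ring
  rw [e]
  exact lam_add (lam_nat _ h3) (lam_nat _ h3')

theorem GdP.neg {b : Ideal (OO n t)} {z : ℂ} (h : GdP v b z) : GdP v b (-z) := by
  obtain ⟨N, h1, h2, h3⟩ := h
  refine ⟨N, h1, h2, ?_⟩
  rw [mul_neg]
  exact lam_neg h3

theorem GdP.sub [SqN n t] {b : Ideal (OO n t)} {z z' : ℂ} (h : GdP v b z) (h' : GdP v b z') : GdP v b (z - z') := by
  rw [sub_eq_add_neg]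
  exact h.add h'.neg

theorem GdP.mul [SqN n t] {b : Ideal (OO n t)} {z : ℂ} (h : GdP v b z) (c : OO n t) : GdP v b (toC c * z) := by
  obtain ⟨N, h1, h2, h3⟩ := h
  refine ⟨N, h1, h2, ?_⟩
  have e : (N : ℂ) * (toC c * z) = toC c * (N * z) := by ring
  rw [e]
  exact lam_mul _ h3

theorem GdP.le {b : Ideal (OO n t)} {x : ℂ → ℂ} {b2 b4 b6 b8 : ℂ} (hK : KLn v (Lam b) x b2 b4 b6 b8)
    {z : ℂ} (h : GdP v b z) (hz : z ∉ Lam b) : v (x z) ≤ 1 := by
  obtain ⟨N, h1, h2, h3⟩ := h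
  by_contra hc
  exact hz (hK.ker_nat (Or.inr (not_le.1 hc)) h2 (by rwa [nsmul_eq_mul]))

theorem GdP.lt {b : Ideal (OO n t)} {x : ℂ → ℂ} {A : ℂ} (hN : Node v (Lam b) x A)
    {z : ℂ} (h : GdP v b z) (hz : z ∉ Lam b) : v A < v (x z) := by
  obtain ⟨N, h1, h2, h3⟩ := h
  exact hN.odd hz h1 (by rwa [nsmul_eq_mul])

/-- The data of a node. -/
structure NodeC (v : Valuation ℂ Γ) (b : Ideal (OO n t)) (e s A T T' : ℂ) : Prop where
  o : Ord2 b T T'
  s0 : s ≠ 0
  N : Node v (Lam b) (xx b e s) A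
  xT : xx b e s T = 0
  xA : xx b e s T' * xx b e s (T + T') = A

/-- The node. -/
theorem node_of [SqN n t] {b : Ideal (OO n t)} (hb : b ≠ ⊥) {T T' : ℂ} (h : Ord2 b T T')
    (hlt : v ((wpC b T' - wpC b T) * (wpC b (T + T') - wpC b T)) < v ((12 * wpC b T) ^ 2)) :
    NodeC v b (wpC b T) (12 * wpC b T)
      ((wpC b T' - wpC b T) * (wpC b (T + T') - wpC b T) / (12 * wpC b T) ^ 2) T T' := by
  obtain ⟨g1, g2, g3, g4⟩ := h.g hb
  have hD := h.D hb
  set e := wpC b T with he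
  set s := 12 * e with hs
  set D := (wpC b T' - e) * (wpC b (T + T') - e) with hDd
  have hs0 : s ≠ 0 := by
    intro h0
    rw [h0, zero_pow two_ne_zero, v.map_zero] at hlt
    exact not_lt_zero hlt
  have hvs : 0 < v (s ^ 2) := zero_lt_iff.2 ((v.ne_zero_iff).2 (pow_ne_zero 2 hs0))
  have hA : v (D / s ^ 2) < 1 := by
    rw [v.map_div]
    exact (div_lt_one₀ hvs).2 hlt
  have e2 : c2 e s = 1 := by
    unfold c2
    exact div_self hs0
  have e4 : c4 b e s = 2 * (D / s ^ 2) := by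
    unfold c4
    rw [hD]
    field_simp
    ring
  have e6 : c6 b e s = 0 := by
    unfold c6
    rw [g3, g4, div_eq_zero_iff]
    left
    ring
  have e8 : c8 b e s = -(D / s ^ 2) ^ 2 := by
    unfold c8
    rw [e2, e4, e6]
    ring
  have hI : ICd v b e s := by
    refine ⟨hs0, ?_, ?_, ?_, ?_⟩
    · rw [e2, v.map_one]
    · rw [e4]
      exact vmul (vof v 2) hA.le
    · rw [e6, v.map_zero]
      exact zero_le_one
    · rw [e8]
      exact vneg (vpow hA.le 2)
  have hK := sVCrd n t Γ v b e s hb hI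
  rw [e2, e4, e6, e8] at hK
  have hB4 := aB4 n t b hb T (T + T') h.t1 h.t2 h.t7 h.t6 h.rot.t5
  have hA0 : D / s ^ 2 ≠ 0 := by
    refine div_ne_zero (mul_ne_zero (sub_ne_zero.2 g2.symm) (sub_ne_zero.2 ?_)) (pow_ne_zero 2 hs0)
    exact fun h' => hB4.2.1 h'.symm
  refine ⟨h, hs0, ⟨hK, hA0, hA⟩, ?_, ?_⟩
  · unfold xx
    rw [he]
    simp
  · unfold xx
    rw [hDd]
    field_simp

/-- The value at an integral multiple. -/
theorem NodeC.ev {b : Ideal (OO n t)} {e s A T T' : ℂ} (h : NodeC v b e s A T T') {z z' : ℂ}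
    (hz : z - z' ∈ Lam b) : xx b e s z = xx b e s z' := h.N.kl.ev _ _ (Or.inl hz)

open Classical in
/-- The product formula. -/
theorem NodeC.pr [SqN n t] {b : Ideal (OO n t)} (hb : b ≠ ⊥) {e s A T T' : ℂ} (h : NodeC v b e s A T T')
    {c : OO n t} (hc0 : c ≠ 0) (hc : PrI (sp c) 2) (hvc : v (toC c) = 1) (hcT : toC c * T - T ∈ Lam b)
    (hcT' : toC c * T' - T' ∈ Lam b) {R : Finset ℂ} (hR : IsSys (sp c) b R) :
    (∀ z : ℂ, z ∉ Lam (sp c * b) → ∏ u ∈ R, v (xx b e s (z + u)) =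
      (∏ u ∈ R, v (if u ∈ Lam b then 1 else xx b e s u)) * v (xx b e s (toC c * z))) ∧
    v A ^ R.card = (∏ u ∈ R, v (if u ∈ Lam b then 1 else xx b e s u)) ^ 2 * v A := by
  have hcC : toC c ≠ 0 := toC_ne hc0
  obtain ⟨C, hC, h1, h2⟩ := sVPr n t (sp c) b (sp_ne hc0) hb hc R hR e s (toC c ^ 2 * e) (toC c ^ 2 * s) T T' h.s0
    (mul_ne_zero (pow_ne_zero 2 hcC) h.s0) h.o
  have hCv : v C = ∏ u ∈ R, v (if u ∈ Lam b then 1 else xx b e s u) := by
    have e1 : toC c ^ 2 * s / s = toC c ^ 2 := by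
      have := h.s0
      field_simp
    rw [hC, e1, v.map_mul, v.map_pow, hvc, one_pow, one_mul, map_prod]
    refine Finset.prod_congr rfl fun u _ => ?_
    rw [h.xT, sub_zero]
  have hxT : xx b e s (toC c * T) = 0 := by rw [h.ev hcT, h.xT]
  constructor
  · intro z hz
    have h3 := congrArg v (h1 z hz)
    rw [map_prod, v.map_mul, hCv, xx_sp hb hc0, xx_sp hb hc0, hxT, sub_zero] at h3
    rw [← h3]
    refine Finset.prod_congr rfl fun u _ => ?_
    rw [h.xT, sub_zero]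
  · have e2 : xx b e s (toC c * (T + T')) = xx b e s (T + T') := by
      refine h.ev ?_
      have : toC c * (T + T') - (T + T') = (toC c * T - T) + (toC c * T' - T') := by ring
      rw [this]
      exact lam_add hcT hcT'
    rw [xx_sp hb hc0, xx_sp hb hc0, xx_sp hb hc0, hxT, h.xT, h.ev hcT', e2, sub_zero, sub_zero, h.xA] at h2
    have h3 := congrArg v h2
    rwa [v.map_pow, v.map_mul, v.map_pow, hCv] at h3

end

end Pool.Agent.DN
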