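import Pool.Agent.Lib.DN.R.PgC

/-!
# Potential good reduction for all imaginary quadratic fields, 4: LEMMA M (helper46)
-/

set_option autoImplicit false

open scoped Pointwise nonZeroDivisors

noncomputable section

namespace Pool.Agent.DN

open Pool.Agent.MuZ Pool.Agent.FW NumberField IsDedekindDomain

section

variable {n t : ℕ} [SqN n t] {Γ : Type} [LinearOrderedCommGroupWithZero Γ] {v : Valuation ℂ Γ}
  {b : Ideal (OO n t)} {q : ℕ}

/-- If two coprime integers kill `z` then `z` is in the lattice. -/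
theorem lam_cop {a c : ℤ} (h : IsCoprime a c) {z : ℂ} (ha : (a : ℂ) * z ∈ Lam b) (hc : (c : ℂ) * z ∈ Lam b) :
    z ∈ Lam b := by
  obtain ⟨x, y, hxy⟩ := h
  have e : z = toC (x : OO n t) * ((a : ℂ) * z) + toC (y : OO n t) * ((c : ℂ) * z) := by
    rw [toC_int, toC_int]
    have : ((x * a + y * c : ℤ) : ℂ) = 1 := by rw [hxy]; simp
    push_cast at this
    linear_combination (-z) * this
  rw [e]
  exact lam_add (lam_mul _ ha) (lam_mul _ hc)

/-- If `β z` is in the lattice, `z` of order `q`, `q` inert, then `q ∣ β`. -/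
theorem ann_q (hq : q.Prime) (hq2 : ¬ q ∣ 2)
    (hq3 : ∀ a b : ℤ, (q : ℤ) ∣ a ^ 2 + Dk n t * b ^ 2 → (q : ℤ) ∣ a ∧ (q : ℤ) ∣ b) {z : ℂ}
    (hz : z ∉ Lam b) (hqz : (q : ℂ) * z ∈ Lam b) {β : OO n t} (hβ : toC β * z ∈ Lam b) : (q : OO n t) ∣ β := by
  refine inert_dvd hq hq2 hq3 ?_
  by_contra hc
  have h1 : IsCoprime (q : ℤ) (Nm β) := (Nat.prime_iff_prime_int.1 hq).coprime_iff_not_dvd.2 hc
  refine hz (lam_cop h1 (by exact_mod_cast hqz) ?_)
  rw [toC_Nm, mul_comm (toC β), mul_assoc]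
  exact lam_mul _ hβ

theorem dvd_parts {β : OO n t} (h : (q : OO n t) ∣ β) : (q : ℤ) ∣ β.re ∧ (q : ℤ) ∣ β.im := (nat_dvd_iff q β).1 h

theorem sp_q (hq : q.Prime) : PrI (sp (q : OO n t)) 2 ↔ ¬ q ∣ 2 := by
  rw [(aO6 n t).2.2.2.1 2 (q : OO n t) two_pos]
  unfold Cop
  rw [Nm_nat]
  constructor
  · intro h hd
    have h2 : q = 2 := (Nat.prime_dvd_prime_iff_eq hq Nat.prime_two).1 hd
    rw [h2] at h
    have := Int.isCoprime_iff_gcd_eq_one.1 h
    norm_num at this
  · intro h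
    refine IsCoprime.pow_left ?_
    have : Nat.Coprime q 2 := (Nat.coprime_primes hq Nat.prime_two).2 fun h' => h (h' ▸ dvd_rfl)
    exact_mod_cast Nat.isCoprime_iff_coprime.2 this

variable {e s A T T' : ℂ}

open Classical in
/-- (ii) Not all points of order `q` are in the component of the origin. -/
theorem NodeC.not_all (hb : b ≠ ⊥) (h : NodeC v b e s A T T') (hq : q.Prime) (hq2 : ¬ q ∣ 2)
    (hvq : v (q : ℂ) = 1) : ¬ ∀ z : ℂ, (q : ℂ) * z ∈ Lam b → z ∉ Lam b → v (xx b e s z) = 1 := by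
  intro hall
  have hq0 : (q : OO n t) ≠ 0 := by
    intro h0
    have := congrArg (fun u : OO n t => toC u) h0
    simp only [toC_nat, toC_zero] at this
    exact hq.ne_zero (by exact_mod_cast this)
  have hodd : Odd q := hq.odd_of_ne_two fun h' => hq2 (h' ▸ dvd_rfl)
  obtain ⟨k, hk⟩ := hodd
  have hT : ∀ U : ℂ, 2 * U ∈ Lam b → toC (q : OO n t) * U - U ∈ Lam b := by
    intro U hU
    have : toC (q : OO n t) * U - U = (k : ℂ) * (2 * U) := by
      rw [toC_nat, hk]
      push_cast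
      ring
    rw [this]
    exact lam_nat _ hU
  obtain ⟨-, -, R, hR, hRc⟩ := aL3 n t (sp (q : OO n t)) b (sp_ne hq0) hb
  obtain ⟨-, h2⟩ := h.pr hb hq0 ((sp_q hq).2 hq2) (by rw [toC_nat]; exact hvq) (hT T h.o.t1) (hT T' h.o.t3) hR
  have h1 : ∏ u ∈ R, v (if u ∈ Lam b then 1 else xx b e s u) = 1 := by
    refine Finset.prod_eq_one fun u hu => ?_
    by_cases hub : u ∈ Lam b
    · rw [if_pos hub, v.map_one]
    · rw [if_neg hub]
      refine hall u ?_ hub
      have := lam_sp.1 (hR.mem u hu)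
      rwa [toC_nat] at this
  rw [h1, one_pow, one_mul] at h2
  have h3 : 1 < R.card := by
    rw [hRc]
    have h4 : (NI (sp (q : OO n t)) : ℤ) = Nm (q : OO n t) := (aO2 n t).2.2.2.1 _
    rw [Nm_nat] at h4
    have h5 : NI (sp (q : OO n t)) = q ^ 2 := by exact_mod_cast h4
    rw [h5]
    exact Nat.one_lt_pow two_ne_zero hq.one_lt
  obtain ⟨j, hj⟩ := Nat.exists_eq_add_of_lt h3
  rw [hj] at h2
  have h0 := h.N.pos
  have h6 : v A ^ (1 + j + 1) < v A := by
    rw [pow_succ']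
    calc v A * v A ^ (1 + j) < v A * 1 := by
          have : v A ^ (1 + j) < 1 := pow_lt_one' h.N.lt (by omega)
          gcongr
      _ = v A := mul_one _
  exact absurd h2 (ne_of_lt h6)

/-- (iii) Some point of order `q` is in the component of the origin. -/
theorem NodeC.exists_one (hb : b ≠ ⊥) (h : NodeC v b e s A T T') (hq : q.Prime) (hq2 : ¬ q ∣ 2)
    (hq3 : ∀ a b : ℤ, (q : ℤ) ∣ a ^ 2 + Dk n t * b ^ 2 → (q : ℤ) ∣ a ∧ (q : ℤ) ∣ b)
    (hvq : v (q : ℂ) = 1) : ∃ z : ℂ, (q : ℂ) * z ∈ Lam b ∧ z ∉ Lam b ∧ v (xx b e s z) = 1 := by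
  classical
  by_contra hcon
  push Not at hcon
  have hq0 : (q : OO n t) ≠ 0 := by
    intro h0
    have := congrArg (fun u : OO n t => toC u) h0
    simp only [toC_nat, toC_zero] at this
    exact hq.ne_zero (by exact_mod_cast this)
  have hodd : Odd q := hq.odd_of_ne_two fun h' => hq2 (h' ▸ dvd_rfl)
  have hGd : ∀ z : ℂ, (q : ℂ) * z ∈ Lam b → GdP v b z := fun z hz => ⟨q, hodd, hvq, hz⟩
  have hlt1 : ∀ z : ℂ, (q : ℂ) * z ∈ Lam b → z ∉ Lam b → v (xx b e s z) < 1 := fun z hz hzb =>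
    lt_of_le_of_ne ((hGd z hz).le h.N.kl hzb) (hcon z hz hzb)
  have hltA : ∀ z : ℂ, (q : ℂ) * z ∈ Lam b → z ∉ Lam b → v A < v (xx b e s z) := fun z hz hzb =>
    (hGd z hz).lt h.N hzb
  obtain ⟨⟨g, hg, hg'⟩, h3, R, hR, -⟩ := aL3 n t (sp (q : OO n t)) b (sp_ne hq0) hb
  obtain ⟨h4, -⟩ := h3 g hg hg'
  have hgb : g ∉ Lam b := by
    intro hgb
    have h5 : (1 : OO n t) ∈ sp (q : OO n t) := (h4 1).1 (by rwa [toC_one, one_mul])
    rw [Ideal.mem_span_singleton] at h5
    have h6 := ((nat_dvd_iff q (1 : OO n t)).1 h5).1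
    rw [re_one] at h6
    exact hq.one_lt.ne' (Nat.dvd_one.1 (by exact_mod_cast h6))
  have hmem : ∀ z : ℂ, z ∈ Lam (sp (q : OO n t) * b) ↔ (q : ℂ) * z ∈ Lam b := by
    intro z
    rw [lam_sp, toC_nat]
  set R' := R.filter (fun u => u ∉ Lam b) with hR'
  have hrep : ∀ u : ℂ, (q : ℂ) * u ∈ Lam b → u ∉ Lam b → ∃ r ∈ R', u - r ∈ Lam b := by
    intro u hu hub
    obtain ⟨r, hr, hur⟩ := hR.ex u ((hmem u).2 hu)
    exact ⟨r, Finset.mem_filter.2 ⟨hr, fun hrb => hub ((lam_sub_iff hur).2 hrb)⟩, hur⟩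
  have hne : R'.Nonempty := by
    obtain ⟨r, hr, -⟩ := hrep g ((hmem g).1 hg) hgb
    exact ⟨r, hr⟩
  obtain ⟨g₁, hg₁, hmax⟩ := R'.exists_max_image (fun u => v (xx b e s u)) hne
  have hg₁b : g₁ ∉ Lam b := (Finset.mem_filter.1 hg₁).2
  have hg₁q : (q : ℂ) * g₁ ∈ Lam b := (hmem _).1 (hR.mem _ (Finset.mem_filter.1 hg₁).1)
  have hmax' : ∀ u : ℂ, (q : ℂ) * u ∈ Lam b → u ∉ Lam b → v (xx b e s u) ≤ v (xx b e s g₁) := by
    intro u hu hub
    obtain ⟨r, hr, hur⟩ := hrep u hu hub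
    rw [h.ev hur]
    exact hmax r hr
  have key : ∀ (k : ℕ) (u : ℂ), (q : ℂ) * u ∈ Lam b → u ∉ Lam b →
      (R'.filter (fun r => v (xx b e s u) < v (xx b e s r))).card ≤ k →
      ∃ j : ℤ, u - (j : ℂ) * g₁ ∈ Lam b := by
    intro k
    induction k with
    | zero =>
      intro u hu hub hk
      have h5 : v (xx b e s u) = v (xx b e s g₁) := by
        refine le_antisymm (hmax' u hu hub) (not_lt.1 fun hlt => ?_)
        have : g₁ ∈ R'.filter (fun r => v (xx b e s u) < v (xx b e s r)) := Finset.mem_filter.2 ⟨hg₁, hlt⟩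
        exact absurd (Finset.card_pos.2 ⟨_, this⟩) (by omega)
      by_cases c1 : u - g₁ ∈ Lam b
      · exact ⟨1, by rwa [Int.cast_one, one_mul]⟩
      by_cases c2 : u + g₁ ∈ Lam b
      · refine ⟨-1, ?_⟩
        have : u - ((-1 : ℤ) : ℂ) * g₁ = u + g₁ := by
          push_cast
          ring
        rwa [this]
      exfalso
      rcases h.N.desc' hub hg₁b c2 c1 (hltA u hu hub) h5 (hlt1 g₁ hg₁q hg₁b) with h6 | h6
      · exact absurd h6 (not_le.2 (hlt1 _ (by rw [mul_add]; exact lam_add hu hg₁q) c2))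
      · exact absurd h6 (not_le.2 (hlt1 _ (by rw [mul_sub]; exact lam_sub hu hg₁q) c1))
    | succ k ih =>
      intro u hu hub hk
      rcases (hmax' u hu hub).lt_or_eq with h5 | h5
      · have c1 : u - g₁ ∉ Lam b := fun c => absurd (congrArg v (h.ev c)) (ne_of_lt h5)
        have c2 : u + g₁ ∉ Lam b := fun c => absurd (congrArg v (h.N.kl.ev _ _ (Or.inr c))) (ne_of_lt h5)
        have hu1 : (q : ℂ) * (u + g₁) ∈ Lam b := by rw [mul_add]; exact lam_add hu hg₁q
        have hu2 : (q : ℂ) * (u - g₁) ∈ Lam b := by rw [mul_sub]; exact lam_sub hu hg₁q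
        have hstep : ∀ w : ℂ, (q : ℂ) * w ∈ Lam b → w ∉ Lam b → v (xx b e s u) < v (xx b e s w) →
            ∃ j : ℤ, w - (j : ℂ) * g₁ ∈ Lam b := by
          intro w hw hwb huw
          refine ih w hw hwb ?_
          have hsub : R'.filter (fun r => v (xx b e s w) < v (xx b e s r)) ⊂
              R'.filter (fun r => v (xx b e s u) < v (xx b e s r)) := by
            rw [Finset.ssubset_iff_of_subset]
            · obtain ⟨r, hr, hwr⟩ := hrep w hw hwb
              refine ⟨r, Finset.mem_filter.2 ⟨hr, by rw [← h.ev hwr]; exact huw⟩, fun hm => ?_⟩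
              have := (Finset.mem_filter.1 hm).2
              rw [h.ev hwr] at this
              exact lt_irrefl _ this
            · intro r hr
              obtain ⟨hr1, hr2⟩ := Finset.mem_filter.1 hr
              exact Finset.mem_filter.2 ⟨hr1, lt_trans huw hr2⟩
          have := Finset.card_lt_card hsub
          omega
        rcases h.N.desc hub hg₁b c2 c1 (hltA u hu hub) h5 (hlt1 g₁ hg₁q hg₁b) with h6 | h6
        · obtain ⟨j, hj⟩ := hstep _ hu1 c2 h6
          refine ⟨j - 1, ?_⟩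
          have : u - ((j - 1 : ℤ) : ℂ) * g₁ = u + g₁ - (j : ℂ) * g₁ := by
            push_cast
            ring
          rwa [this]
        · obtain ⟨j, hj⟩ := hstep _ hu2 c1 h6
          refine ⟨j + 1, ?_⟩
          have : u - ((j + 1 : ℤ) : ℂ) * g₁ = u - g₁ - (j : ℂ) * g₁ := by
            push_cast
            ring
          rwa [this]
      · refine ih u hu hub ?_
        have : R'.filter (fun r => v (xx b e s u) < v (xx b e s r)) = ∅ := by
          rw [Finset.filter_eq_empty_iff]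
          intro r hr
          rw [h5]
          exact not_lt.2 (hmax r hr)
        rw [this, Finset.card_empty]
        exact Nat.zero_le _
  obtain ⟨j, hj⟩ : ∃ j : ℤ, toC (wI n t) * g₁ - (j : ℂ) * g₁ ∈ Lam b := by
    by_cases hw : toC (wI n t) * g₁ ∈ Lam b
    · exact ⟨0, by rwa [Int.cast_zero, zero_mul, sub_zero]⟩
    · refine key _ _ ?_ hw le_rfl
      have : (q : ℂ) * (toC (wI n t) * g₁) = toC (wI n t) * (q * g₁) := by ring
      rw [this]
      exact lam_mul _ hg₁q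
  have h7 : toC (wI n t - (j : OO n t)) * g₁ ∈ Lam b := by
    rw [toC_sub, toC_int, sub_mul]
    exact hj
  have h8 := (dvd_parts (ann_q hq hq2 hq3 hg₁b hg₁q h7)).2
  rw [QuadraticAlgebra.im_sub] at h8
  simp only [wI, im_int, sub_zero] at h8
  exact hq.one_lt.ne' (Nat.dvd_one.1 (by exact_mod_cast h8))

end

end Pool.Agent.DN
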