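import Pool.Agent.Lib.DN.R.PgD

/-!
# Potential good reduction for all imaginary quadratic fields, 5: LEMMA M, the end (helper46)
-/

set_option autoImplicit false

open scoped Pointwise nonZeroDivisors

noncomputable section

namespace Pool.Agent.DN

open Pool.Agent.MuZ Pool.Agent.FW NumberField IsDedekindDomain

section

variable {n t : ℕ} [SqN n t] {Γ : Type} [LinearOrderedCommGroupWithZero Γ] {v : Valuation ℂ Γ}
  {b : Ideal (OO n t)} {q m : ℕ} {e s A T T' : ℂ}

/-- A point of order `q` in the component of the origin, or `0`. -/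
def Cz (v : Valuation ℂ Γ) (b : Ideal (OO n t)) (e s : ℂ) (q : ℕ) (z : ℂ) : Prop :=
  (q : ℂ) * z ∈ Lam b ∧ (z ∈ Lam b ∨ v (xx b e s z) = 1)

theorem NodeC.cz_add (h : NodeC v b e s A T T') (hq : q.Prime) (hq2 : ¬ q ∣ 2)
    (hvq : v (q : ℂ) = 1) {z z' : ℂ} (h1 : Cz v b e s q z) (h2 : Cz v b e s q z') : Cz v b e s q (z + z') := by
  have hodd : Odd q := hq.odd_of_ne_two fun h' => hq2 (h' ▸ dvd_rfl)
  have hGd : ∀ z : ℂ, (q : ℂ) * z ∈ Lam b → GdP v b z := fun z hz => ⟨q, hodd, hvq, hz⟩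
  have hsum : (q : ℂ) * (z + z') ∈ Lam b := by rw [mul_add]; exact lam_add h1.1 h2.1
  have hdif : (q : ℂ) * (z - z') ∈ Lam b := by rw [mul_sub]; exact lam_sub h1.1 h2.1
  refine ⟨hsum, ?_⟩
  by_cases c0 : z + z' ∈ Lam b
  · exact Or.inl c0
  by_cases c1 : z ∈ Lam b
  · right
    have : xx b e s (z + z') = xx b e s z' := h.ev (by rwa [add_sub_cancel_right])
    rw [this]
    exact h2.2.resolve_left fun h' => c0 (lam_add c1 h')
  by_cases c2 : z' ∈ Lam b
  · right
    have : xx b e s (z + z') = xx b e s z := h.ev (by rwa [add_sub_cancel_left])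
    rw [this]
    exact h1.2.resolve_left fun h' => c0 (lam_add h' c2)
  have v1 := h1.2.resolve_left c1
  have v2 := h2.2.resolve_left c2
  right
  by_cases c3 : z - z' ∈ Lam b
  · have e1 : xx b e s (z + z') = xx b e s (z + z) := h.ev (by
      have : z + z' - (z + z) = -(z - z') := by ring
      rw [this]
      exact lam_neg c3)
    have c4 : z + z ∉ Lam b := by
      intro h'
      apply c0
      have : z + z' = (z + z) - (z - z') := by ring
      rw [this]
      exact lam_sub h' c3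
    rw [e1]
    refine le_antisymm ?_ (h.N.dup_hi c4 v1.ge)
    refine GdP.le h.N.kl (hGd _ ?_) c4
    rw [mul_add]
    exact lam_add h1.1 h1.1
  · exact h.N.trans' c1 c2 c0 c3 v1 v2 ((hGd _ hsum).le h.N.kl c0) ((hGd _ hdif).le h.N.kl c3)

theorem NodeC.cz_neg (h : NodeC v b e s A T T') {z : ℂ} (h1 : Cz v b e s q z) : Cz v b e s q (-z) := by
  refine ⟨by rw [mul_neg]; exact lam_neg h1.1, ?_⟩
  rcases h1.2 with h2 | h2
  · exact Or.inl (lam_neg h2)
  · right
    rw [h.N.kl.ev (-z) z (Or.inr (by rw [neg_add_cancel]; exact lam_zero b))]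
    exact h2

theorem NodeC.cz_int (h : NodeC v b e s A T T') (hq : q.Prime) (hq2 : ¬ q ∣ 2)
    (hvq : v (q : ℂ) = 1) {z : ℂ} (h1 : Cz v b e s q z) (j : ℤ) : Cz v b e s q ((j : ℂ) * z) := by
  have hnat : ∀ k : ℕ, Cz v b e s q ((k : ℂ) * z) := by
    intro k
    induction k with
    | zero =>
      rw [Nat.cast_zero, zero_mul]
      exact ⟨by rw [mul_zero]; exact lam_zero b, Or.inl (lam_zero b)⟩
    | succ k ih =>
      have : ((k + 1 : ℕ) : ℂ) * z = (k : ℂ) * z + z := by push_cast; ring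
      rw [this]
      exact h.cz_add hq hq2 hvq ih h1
  rcases Int.natAbs_eq j with hj | hj
  · rw [hj, Int.cast_natCast]
    exact hnat _
  · rw [hj, Int.cast_neg, Int.cast_natCast, neg_mul]
    exact h.cz_neg (hnat _)

theorem NodeC.cz_lam (h : NodeC v b e s A T T') {z z' : ℂ} (h1 : Cz v b e s q z') (h2 : z - z' ∈ Lam b) :
    Cz v b e s q z := by
  refine ⟨?_, ?_⟩
  · have : (q : ℂ) * z = q * (z - z') + q * z' := by ring
    rw [this]
    exact lam_add (lam_nat _ h2) h1.1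
  · rcases h1.2 with h3 | h3
    · exact Or.inl ((lam_sub_iff h2).2 h3)
    · right
      rw [h.ev h2]
      exact h3

open Classical in
/-- (iv) Stability under `α = 1 + 2 m w`. -/
theorem NodeC.cz_al (hb : b ≠ ⊥) (h : NodeC v b e s A T T') (hq : q.Prime) (hq2 : ¬ q ∣ 2)
    (hq3 : ∀ a b : ℤ, (q : ℤ) ∣ a ^ 2 + Dk n t * b ^ 2 → (q : ℤ) ∣ a ∧ (q : ℤ) ∣ b)
    (hvq : v (q : ℂ) = 1) {α : OO n t} (hα2 : Cop α 2) (hαT : (2 : OO n t) ∣ α - 1)
    (hvα : v ((Nm α : ℤ) : ℂ) = 1) (hqα : ¬ (q : OO n t) ∣ α) {z : ℂ}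
    (h1 : Cz v b e s q z) (hzb : z ∉ Lam b) : Cz v b e s q (toC α * z) := by
  have hα0 : α ≠ 0 := fun h0 => hqα (h0 ▸ dvd_zero _)
  have hpr : PrI (sp α) 2 := ((aO6 n t).2.2.2.1 2 α two_pos).2 hα2
  have hodd : Odd q := hq.odd_of_ne_two fun h' => hq2 (h' ▸ dvd_rfl)
  have hGd : ∀ z : ℂ, (q : ℂ) * z ∈ Lam b → GdP v b z := fun z hz => ⟨q, hodd, hvq, hz⟩
  have hT : ∀ U : ℂ, 2 * U ∈ Lam b → toC α * U - U ∈ Lam b := by
    intro U hU
    obtain ⟨β, hβ⟩ := hαT
    have : toC α * U - U = toC β * (2 * U) := by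
      have h2 : toC α - 1 = 2 * toC β := by
        have := congrArg (fun u : OO n t => toC u) hβ
        simpa only [toC_sub, toC_one, toC_mul, toC_two] using this
      linear_combination U * h2
    rw [this]
    exact lam_mul _ hU
  obtain ⟨-, -, R, hR, -⟩ := aL3 n t (sp α) b (sp_ne hα0) hb
  obtain ⟨h2, -⟩ := h.pr hb hα0 hpr (v_toC_one hvα) (hT T h.o.t1) (hT T' h.o.t3) hR
  have hzα : toC α * z ∉ Lam b := fun h' => hqα (ann_q hq hq2 hq3 hzb h1.1 h')
  have h3 := h2 z (fun h' => hzα (lam_sp.1 h'))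
  have hvz := h1.2.resolve_left hzb
  have hNo : Odd (NI (sp α)) := NI_odd hpr
  have hNv : v ((NI (sp α) : ℕ) : ℂ) = 1 := by
    have h4 : (NI (sp α) : ℤ) = Nm α := (aO2 n t).2.2.2.1 _
    have h5 : ((NI (sp α) : ℕ) : ℂ) = ((Nm α : ℤ) : ℂ) := by
      rw [← h4]
      simp
    rw [h5]
    exact hvα
  have hGu : ∀ u ∈ R, GdP v b u := fun u hu => ⟨NI (sp α), hNo, hNv, NI_lam (hR.mem u hu)⟩
  have hterm : ∀ u ∈ R, v (xx b e s (z + u)) = v (if u ∈ Lam b then 1 else xx b e s u) := by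
    intro u hu
    by_cases hub : u ∈ Lam b
    · rw [if_pos hub, v.map_one, h.ev (z := z + u) (z' := z) (by rwa [add_sub_cancel_left])]
      exact hvz
    · rw [if_neg hub]
      have hmem := lam_sp.1 (hR.mem u hu)
      have c1 : z + u ∉ Lam b := by
        intro h'
        apply hzα
        have : toC α * z = toC α * (z + u) - toC α * u := by ring
        rw [this]
        exact lam_sub (lam_mul _ h') hmem
      have c2 : z - u ∉ Lam b := by
        intro h'
        apply hzα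
        have : toC α * z = toC α * (z - u) + toC α * u := by ring
        rw [this]
        exact lam_add (lam_mul _ h') hmem
      have hu1 := (hGu u hu).le h.N.kl hub
      have huA := (hGu u hu).lt h.N hub
      rcases hu1.lt_or_eq with h5 | h5
      · exact h.N.trans hzb hub c1 c2 hvz huA h5
      · rw [h5]
        refine h.N.trans' hzb hub c1 c2 hvz h5 ?_ ?_
        · exact GdP.le h.N.kl ((hGd z h1.1).add (hGu u hu)) c1
        · exact GdP.le h.N.kl ((hGd z h1.1).sub (hGu u hu)) c2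
  rw [Finset.prod_congr rfl hterm] at h3
  have hC0 : ∏ u ∈ R, v (if u ∈ Lam b then 1 else xx b e s u) ≠ 0 := by
    rw [Finset.prod_ne_zero_iff]
    intro u hu
    by_cases hub : u ∈ Lam b
    · rw [if_pos hub, v.map_one]
      exact one_ne_zero
    · rw [if_neg hub]
      exact ne_of_gt (lt_of_le_of_lt zero_le' ((hGu u hu).lt h.N hub))
  have h6 : v (xx b e s (toC α * z)) = 1 := by
    have := h3.symm
    rw [mul_eq_left₀ hC0] at this
    exact this
  refine ⟨?_, Or.inr h6⟩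
  have : (q : ℂ) * (toC α * z) = toC α * (q * z) := by ring
  rw [this]
  exact lam_mul _ h1.1

/-- LEMMA M: there is no node. -/
theorem no_node (hb : b ≠ ⊥) (h : NodeC v b e s A T T') : False := by
  obtain ⟨m, q, hm, hq, hqm, hq3, hvq, hvα⟩ := exists_qm n t v
  have hq2 : ¬ q ∣ 2 := fun h' => hqm (Dvd.dvd.mul_right h' m)
  obtain ⟨z, hqz, hzb, hvz⟩ := h.exists_one hb hq hq2 hq3 hvq
  have h1 : Cz v b e s q z := ⟨hqz, Or.inr hvz⟩
  set α : OO n t := 1 + 2 * (m : OO n t) * wI n t with hα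
  have hαT : (2 : OO n t) ∣ α - 1 := ⟨(m : OO n t) * wI n t, by rw [hα]; ring⟩
  have hα2 : Cop α 2 := by
    refine cop_congr (a := 1) (b := α) ?_ ?_
    · have h9 : (2 : OO n t) ∣ 1 - α := by
        have := (dvd_neg (α := OO n t)).2 hαT
        rwa [neg_sub] at this
      exact_mod_cast h9
    · unfold Cop
      rw [Nm_one]
      exact isCoprime_one_left
  have him : α.im = 2 * m := by
    rw [hα]
    have : (2 : OO n t) * (m : OO n t) = ((2 * m : ℕ) : OO n t) := by push_cast; rfl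
    rw [this, QuadraticAlgebra.im_add, im_one, QuadraticAlgebra.im_mul, re_nat, im_nat]
    simp [wI]
  have hqα : ¬ (q : OO n t) ∣ α := by
    intro hd
    have h2 := (dvd_parts hd).2
    rw [him] at h2
    exact hqm (by exact_mod_cast h2)
  have h2 := h.cz_al hb hq hq2 hq3 hvq hα2 hαT hvα hqα h1 hzb
  -- `2 m w z`
  have h3 : Cz v b e s q ((2 * m : ℤ) * (toC (wI n t) * z)) := by
    have e1 : ((2 * m : ℤ) : ℂ) * (toC (wI n t) * z) = toC α * z + -z := by
      rw [hα]
      rw [toC_add, toC_one, toC_mul, toC_mul, toC_two, toC_nat]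
      push_cast
      ring
    have := h.cz_add hq hq2 hvq h2 (h.cz_neg h1)
    rw [← e1] at this
    exact_mod_cast this
  have h4 : Cz v b e s q (toC (wI n t) * z) := by
    have hco : IsCoprime (q : ℤ) (2 * m : ℤ) := by
      rw [(Nat.prime_iff_prime_int.1 hq).coprime_iff_not_dvd]
      intro hd
      exact hqm (by exact_mod_cast hd)
    obtain ⟨x, y, hxy⟩ := hco
    refine h.cz_lam (h.cz_int hq hq2 hvq h3 y) ?_
    have hc : ((x * q + y * (2 * m) : ℤ) : ℂ) = 1 := by rw [hxy]; simp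
    push_cast at hc
    have e1 : toC (wI n t) * z - (y : ℂ) * ((2 * m : ℤ) * (toC (wI n t) * z)) =
        toC ((x : OO n t) * wI n t) * ((q : ℂ) * z) := by
      rw [toC_mul, toC_int]
      push_cast
      linear_combination (-(toC (wI n t) * z)) * hc
    rw [e1]
    exact lam_mul _ hqz
  -- all multiples
  have h5 : ∀ β : OO n t, Cz v b e s q (toC β * z) := by
    intro β
    have e1 : toC β * z = (β.re : ℂ) * z + (β.im : ℂ) * (toC (wI n t) * z) := by
      rw [toC_apply, toC_wI]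
      ring
    rw [e1]
    exact h.cz_add hq hq2 hvq (h.cz_int hq hq2 hvq h1 _) (h.cz_int hq hq2 hvq h4 _)
  have hq0 : (q : OO n t) ≠ 0 := by
    intro h0
    have := congrArg (fun u : OO n t => toC u) h0
    simp only [toC_nat, toC_zero] at this
    exact hq.ne_zero (by exact_mod_cast this)
  obtain ⟨-, h6, -⟩ := aL3 n t (sp (q : OO n t)) b (sp_ne hq0) hb
  have hmem : ∀ z : ℂ, z ∈ Lam (sp (q : OO n t) * b) ↔ (q : ℂ) * z ∈ Lam b := by
    intro z
    rw [lam_sp, toC_nat]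
  have h7 : ∀ a' : Ideal (OO n t), sp (q : OO n t) < a' → z ∉ Lam (a' * b) := by
    intro a' ha' hz'
    obtain ⟨β, hβ, hβ'⟩ := SetLike.exists_of_lt ha'
    apply hβ'
    rw [Ideal.mem_span_singleton]
    exact ann_q hq hq2 hq3 hzb hqz (lam_prod.1 hz' β hβ)
  obtain ⟨-, h8⟩ := h6 z ((hmem z).2 hqz) h7
  refine h.not_all hb hq hq2 hvq fun u hu hub => ?_
  obtain ⟨β, hβ⟩ := h8 u ((hmem u).2 hu)
  exact (h.cz_lam (h5 β) hβ).2.resolve_left hub

end

/-- **LEMMA M.** -/
theorem lemM {n t : ℕ} [SqN n t] {Γ : Type} [LinearOrderedCommGroupWithZero Γ] (v : Valuation ℂ Γ)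
    {b : Ideal (OO n t)} (hb : b ≠ ⊥) {T T' : ℂ} (h : Ord2 b T T') :
    v ((12 * wpC b T) ^ 2) ≤ v ((wpC b T' - wpC b T) * (wpC b (T + T') - wpC b T)) :=
  not_lt.1 fun hlt => no_node hb (node_of hb h hlt)

end Pool.Agent.DN
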