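import Pool.Agent.Lib.DN.R.PgF

/-!
# Potential good reduction for all imaginary quadratic fields, 7: the theorem (PGR) (helper46)
-/

set_option autoImplicit false

open scoped Pointwise nonZeroDivisors

noncomputable section

namespace Pool.Agent.DN

open Pool.Agent.MuZ Pool.Agent.FW NumberField IsDedekindDomain

section

variable {n t : ℕ} [SqN n t] {Γ : Type} [LinearOrderedCommGroupWithZero Γ] {v : Valuation ℂ Γ}
  {b : Ideal (OO n t)}

/-- The model `X` is good above two, for all imaginary quadratic fields. -/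
theorem mod_two (hv : v 2 < 1) (hG : G15 b) :
    v (A3 b) = 1 ∧ v (A1 b) ≤ 1 ∧ v (A1 b ^ 3 - 27 * A3 b) = 1 ∧ GCd v b (wpC b (1 / 3)) (fr b ^ 2) := by
  have hb := hG.ne
  obtain ⟨hf, h30, hd, he, hx3, hx5, hv3, hg2, hg3⟩ := (aB1 n t b hG.ne).2.2.2.2.2 hG.cop
  rcases lt_or_ge (v (A3 b)) (v (A1 b) ^ 3) with hcase | hcase
  · exfalso
    have h10 : A1 b ≠ 0 := by
      intro h0
      rw [h0, v.map_zero, zero_pow three_ne_zero] at hcase
      exact not_lt_zero hcase
    obtain ⟨e2, e4, e6, e8, es, ed, -⟩ := mod_c hG h10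
    set e := wpC b (1 / 3)
    set s := fr b ^ 2 * A1 b ^ 2
    set a := A3 b / A1 b ^ 3 with ha
    have ha1 : v a < 1 := by
      rw [ha, v.map_div, v.map_pow]
      exact (div_lt_one₀ (pow_pos (zero_lt_iff.2 ((v.ne_zero_iff).2 h10)) 3)).2 hcase
    have f2 : c2 e s = 1 := by rw [e2]; exact div_self (pow_ne_zero 2 h10)
    have f4 : c4 b e s = a := by rw [e4, ha]; field_simp
    have f6 : c6 b e s = a ^ 2 := by rw [e6, ha]; field_simp
    have fd : dsc (c2 e s) (c4 b e s) (c6 b e s) (c8 b e s) = a ^ 3 * (1 - 27 * a) := by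
      rw [f2, f4, f6, e8]
      unfold dsc
      ring
    have hi : ICd v b e s := by
      refine ⟨es, ?_, ?_, ?_, ?_⟩
      · rw [f2, v.map_one]
      · rw [f4]; exact ha1.le
      · rw [f6]; exact vpow ha1.le 2
      · rw [e8, v.map_zero]; exact zero_le_one
    have h1 := ord_good hv hb hi (by rw [f2, v.map_one])
    rw [fd] at h1
    have h2 : v (a ^ 3 * (1 - 27 * a)) < 1 :=
      mmulr (mpow ha1 three_ne_zero) (vsub (by rw [v.map_one]) (vmul (vof v 27) ha1.le))
    exact absurd h1 (ne_of_lt h2)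
  · obtain ⟨r, hr⟩ : ∃ r : ℂ, r ^ 3 = A3 b := IsAlgClosed.exists_pow_nat_eq _ (by norm_num)
    have hr0 : r ≠ 0 := by
      rintro rfl
      exact h30 (by rw [← hr]; ring)
    obtain ⟨e2, e4, e6, e8, es, ed, ex⟩ := mod_c hG hr0
    obtain ⟨g2, g4, g6, g8, gs, gd, -⟩ := mod_c hG (one_ne_zero (α := ℂ))
    simp only [one_pow, mul_one, div_one] at g2 g4 g6 g8 gs gd
    set e := wpC b (1 / 3)
    set s := fr b ^ 2 * r ^ 2
    set al := A1 b / r with hal
    have hal1 : v al ≤ 1 := by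
      refine vof_pow three_ne_zero ?_
      rw [hal, div_pow, hr, v.map_div, v.map_pow]
      exact (div_le_one₀ (zero_lt_iff.2 ((v.ne_zero_iff).2 h30))).2 hcase
    have f2 : c2 e s = al ^ 2 := by rw [e2, hal, div_pow]
    have f4 : c4 b e s = al := by rw [e4, hal, ← hr]; field_simp
    have f6 : c6 b e s = 1 := by rw [e6, ← hr]; field_simp
    have fd : dsc (c2 e s) (c4 b e s) (c6 b e s) (c8 b e s) = al ^ 3 - 27 := by
      rw [f2, f4, f6, e8]
      unfold dsc
      ring
    have hi : ICd v b e s := by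
      refine ⟨es, ?_, ?_, ?_, ?_⟩
      · rw [f2]; exact vpow hal1 2
      · rw [f4]; exact hal1
      · rw [f6, v.map_one]
      · rw [e8, v.map_zero]; exact zero_le_one
    have hds : v (dsc (c2 e s) (c4 b e s) (c6 b e s) (c8 b e s)) = 1 := by
      rcases hal1.lt_or_eq with h5 | h5
      · rw [fd]
        refine vcongr (y := -27) ?_ ?_
        · have : al ^ 3 - 27 - -27 = al ^ 3 := by ring
          rw [this]
          exact mpow h5 three_ne_zero
        · rw [v.map_neg]
          have := v_odd (F := ℂ) hv (by decide : Odd 27)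
          exact_mod_cast this
      · exact ord_good hv hb hi (by rw [f2, v.map_pow, h5, one_pow])
    have hg : GCd v b e s := ⟨hi, hds⟩
    have hK := sVCrd n t Γ v b e s hb hi
    have hpt := aPt n t b hb hG.cop
    have one_mem : ∀ c : ℤ, (c : ℂ) ∈ Lam b := fun c => fun u _ =>
      ⟨u * (c : OO n t), by rw [toC_mul, toC_int]⟩
    have not15 : ∀ j : ℤ, ¬ (15 : ℤ) ∣ j → ¬ Kr v (Lam b) (xx b e s) ((j : ℂ) / 15) := by
      intro j hj
      refine odd_not hv hK (fun h' => hj ((hpt j).1 h')) (N := 15) (by decide) ?_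
      have : ((15 : ℕ) : ℂ) * ((j : ℂ) / 15) = j := by
        push_cast
        ring
      rw [this]
      exact one_mem j
    have x3 : xx b e s (1 / 3) = 0 := by rw [ex, hx3, zero_div]
    have x5 : xx b e s (1 / 5) = r := by rw [ex, hx5, ← hr]; field_simp
    have n3 : ¬ Kr v (Lam b) (xx b e s) (1 / 3) := by
      have := not15 5 (by decide)
      have e1 : ((5 : ℤ) : ℂ) / 15 = 1 / 3 := by norm_num
      rwa [e1] at this
    have n5 : ¬ Kr v (Lam b) (xx b e s) (1 / 5) := by
      have := not15 3 (by decide)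
      have e1 : ((3 : ℤ) : ℂ) / 15 = 1 / 5 := by norm_num
      rwa [e1] at this
    have hr1 : v r ≤ 1 := by
      rw [← x5]
      exact not_lt.1 fun h' => n5 (Or.inr h')
    have hr2 : v r = 1 := by
      refine le_antisymm hr1 ?_
      by_contra hc
      have h5 := hK.sep hg.ds n5 n3 (by rw [x5, x3, sub_zero]; exact not_le.1 hc)
      rcases h5 with h5 | h5
      · have := not15 8 (by decide)
        have e1 : ((8 : ℤ) : ℂ) / 15 = 1 / 5 + 1 / 3 := by push_cast; ring
        rw [e1] at this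
        exact this h5
      · have := not15 (-2) (by decide)
        have e1 : ((-2 : ℤ) : ℂ) / 15 = 1 / 5 - 1 / 3 := by push_cast; ring
        rw [e1] at this
        exact this h5
    have r3 : v (A3 b) = 1 := by rw [← hr, v.map_pow, hr2, one_pow]
    have r1 : v (A1 b) ≤ 1 := by
      have : A1 b = al * r := by rw [hal]; field_simp
      rw [this]
      exact vmul hal1 hr1
    have rd : v (A1 b ^ 3 - 27 * A3 b) = 1 := by
      have e9 : A1 b ^ 3 - 27 * A3 b = (al ^ 3 - 27) * r ^ 3 := by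
        rw [hal, ← hr]
        field_simp
      rw [e9, v.map_mul, v.map_pow, hr2, one_pow, mul_one, ← fd]
      exact hds
    refine ⟨r3, r1, rd, ⟨gs, ?_, ?_, ?_, ?_⟩, ?_⟩
    · rw [g2]; exact vpow r1 2
    · rw [g4]; exact vmul r1 r3.le
    · rw [g6]; exact vpow r3.le 2
    · rw [g8, v.map_zero]; exact zero_le_one
    · rw [gd, v.map_mul, v.map_pow, r3, one_pow, one_mul]
      exact rd

/-- Good coordinates and homogeneity, the converse. -/
theorem gcd_sp_inv (hb : b ≠ ⊥) {c : OO n t} (hc : c ≠ 0) {e s : ℂ} (h : GCd v (sp c * b) e s) :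
    GCd v b (e / toC c ^ 2) (s / toC c ^ 2) := by
  have hcC : toC c ≠ 0 := toC_ne hc
  have hs := h.ne
  obtain ⟨-, g2, g3⟩ := (aB7 n t b hb).1 c hc
  have e2 : c2 (e / toC c ^ 2) (s / toC c ^ 2) = c2 e s := by
    unfold c2
    field_simp
  have e4 : c4 b (e / toC c ^ 2) (s / toC c ^ 2) = c4 (sp c * b) e s := by
    unfold c4
    rw [g2]
    field_simp
  have e6 : c6 b (e / toC c ^ 2) (s / toC c ^ 2) = c6 (sp c * b) e s := by
    unfold c6
    rw [g2, g3]
    field_simp
  have e8 : c8 b (e / toC c ^ 2) (s / toC c ^ 2) = c8 (sp c * b) e s := by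
    unfold c8
    rw [e2, e4, e6]
  refine ⟨⟨div_ne_zero hs (pow_ne_zero 2 hcC), ?_, ?_, ?_, ?_⟩, ?_⟩
  · rw [e2]; exact h.v2
  · rw [e4]; exact h.v4
  · rw [e6]; exact h.v6
  · rw [e8]; exact h.v8
  · rw [e2, e4, e6, e8]; exact h.ds

end

/-- Every ideal is equivalent to an ideal prime to `N`. -/
theorem ex_prime_to (n t : ℕ) [SqN n t] (N : ℕ) (hN : 0 < N) {b : Ideal (OO n t)} (hb : b ≠ ⊥) :
    ∃ b' : Ideal (OO n t), b' ≠ ⊥ ∧ PrI b' N ∧ ∃ α α' : OO n t, α ≠ 0 ∧ α' ≠ 0 ∧ sp α * b = sp α' * b' := by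
  obtain ⟨b', h1, h2, -, α, α', hα, hα', -, -, -, h3⟩ := aO8 n t 1 N one_pos hN (fun _ => True) trivial
    (fun _ _ _ _ => trivial) (fun _ _ _ _ => trivial) b hb (by
      unfold PrI
      rw [Nat.cast_one, Ideal.span_singleton_one, sup_top_eq])
  rw [one_mul] at h2
  exact ⟨b', h1, h2, α, α', hα, hα', h3⟩

/-- **(PGR) Potential good reduction**: every lattice of every imaginary quadratic field has, for every valuation
of `ℂ`, a coordinate with good reduction. -/
theorem pgr (n t : ℕ) [SqN n t] {Γ : Type} [LinearOrderedCommGroupWithZero Γ] (v : Valuation ℂ Γ)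
    {b : Ideal (OO n t)} (hb : b ≠ ⊥) : ∃ e s : ℂ, GCd v b e s := by
  rcases (vof v 2).lt_or_eq with hv | hv
  · obtain ⟨b', hb', hc, α, α', hα, hα', he⟩ := ex_prime_to n t 15 (by norm_num) hb
    have hG : G15 b' := ⟨hb', hc⟩
    obtain ⟨-, -, -, h1⟩ := mod_two hv hG
    have h2 := h1.sp hb' hα'
    rw [← he] at h2
    exact ⟨_, _, gcd_sp_inv hb hα h2⟩
  · obtain ⟨T, T', h⟩ := ex_ord2 hb
    exact ⟨_, _, (leg_good hv hb h).1⟩

end Pool.Agent.DN
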