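import Pool.Agent.Lib.DN.IfaceX

/-!
# Theorem DN, part R (algebraicity, potential good reduction): statements (helper46)

The method: a valuation `v` of the field `ℂ` (`V.valuation` for a `ValuationSubring ℂ`; `DK.sRA`, `DN/R/VEx`), a coordinate
`x(z) = (℘(z) - e)/s` of `ℂ / Lam b` whose numbers `b2, b4, b6, b8` are in the valuation ring, and
`K = {z | z ∈ Lam b or v (x z) > 1}`, the kernel of reduction (for ALL complex numbers `z`). Only the formulas of the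
Kummer line are used, and the product formula `S_B8` for the points of order two.
Every `S_..` is proved in the file `DN/R/<name>.lean` as `theorem s<name> : S_<name>` WITHOUT hypotheses (parts
O, L, B are complete: `aO..`, `aL..`, `aB..`).
-/

set_option autoImplicit false

open scoped Pointwise nonZeroDivisors

noncomputable section

namespace Pool.Agent.DN

open Pool.Agent.MuZ Pool.Agent.FW NumberField IsDedekindDomain
open Pool.Agent.DI (io ofC io_inj exists_io io_ofC ofC_io VP MP UP TP ex)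

/-! ## 1. Kummer lines over a valued field -/

/-- A Kummer line over a valued field: the function `x` on the group `G`, even and periodic for `Λ`. -/
structure KLn {G F Γ : Type} [AddCommGroup G] [Field F] [LinearOrderedCommGroupWithZero Γ]
    (v : Valuation F Γ) (Λ : Set G) (x : G → F) (b2 b4 b6 b8 : F) : Prop where
  zero : (0 : G) ∈ Λ
  add : ∀ z ∈ Λ, ∀ z' ∈ Λ, z + z' ∈ Λ
  neg : ∀ z ∈ Λ, -z ∈ Λ
  ev : ∀ z z' : G, (z - z' ∈ Λ ∨ z + z' ∈ Λ) → x z = x z'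
  ne : ∀ z z' : G, z ∉ Λ → z' ∉ Λ → z + z' ∉ Λ → z - z' ∉ Λ → x z ≠ x z'
  kad : ∀ z z' : G, z ∉ Λ → z' ∉ Λ → z + z' ∉ Λ → z - z' ∉ Λ →
    (x (z + z') + x (z - z')) * (x z - x z') ^ 2 =
      2 * x z * x z' * (x z + x z') + b2 * (x z * x z') + b4 * (x z + x z') + b6
  kml : ∀ z z' : G, z ∉ Λ → z' ∉ Λ → z + z' ∉ Λ → z - z' ∉ Λ →
    x (z + z') * x (z - z') * (x z - x z') ^ 2 =
      x z ^ 2 * x z' ^ 2 - b4 * (x z * x z') - b6 * (x z + x z') - b8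
  dup : ∀ z : G, z + z ∉ Λ → 4 * x z ^ 3 + b2 * x z ^ 2 + 2 * b4 * x z + b6 ≠ 0 ∧
    x (z + z) * (4 * x z ^ 3 + b2 * x z ^ 2 + 2 * b4 * x z + b6) =
      x z ^ 4 - b4 * x z ^ 2 - 2 * b6 * x z - b8
  tw : ∀ z : G, z ∉ Λ → z + z ∈ Λ → 4 * x z ^ 3 + b2 * x z ^ 2 + 2 * b4 * x z + b6 = 0
  v2 : v b2 ≤ 1
  v4 : v b4 ≤ 1
  v6 : v b6 ≤ 1
  v8 : v b8 ≤ 1
  rel : 4 * b8 = b2 * b6 - b4 ^ 2

/-- The kernel of reduction. -/
def Kr {G F Γ : Type} [Field F] [LinearOrderedCommGroupWithZero Γ] (v : Valuation F Γ) (Λ : Set G)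
    (x : G → F) (z : G) : Prop := z ∈ Λ ∨ 1 < v (x z)

open Classical in
/-- `1/x`, zero on `Λ`. -/
def xi {G F : Type} [Field F] (Λ : Set G) (x : G → F) (z : G) : F := if z ∈ Λ then 0 else (x z)⁻¹

/-- The discriminant. -/
def dsc {F : Type} [Field F] (b2 b4 b6 b8 : F) : F :=
  9 * b2 * b4 * b6 - b2 ^ 2 * b8 - 8 * b4 ^ 3 - 27 * b6 ^ 2

/-- The kernel is a group. -/
def S_VAdd : Prop :=
  ∀ (G F Γ : Type) [AddCommGroup G] [Field F] [LinearOrderedCommGroupWithZero Γ] (v : Valuation F Γ)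
    (Λ : Set G) (x : G → F) (b2 b4 b6 b8 : F), KLn v Λ x b2 b4 b6 b8 →
    (∀ z z' : G, Kr v Λ x z → Kr v Λ x z' → Kr v Λ x (z + z')) ∧ (∀ z : G, Kr v Λ x z → Kr v Λ x (-z)) ∧
    (∀ z ∈ Λ, Kr v Λ x z) ∧ ∀ (j : ℕ) (z : G), Kr v Λ x z → Kr v Λ x (j • z)

/-- Translation by the kernel. -/
def S_VRed : Prop :=
  ∀ (G F Γ : Type) [AddCommGroup G] [Field F] [LinearOrderedCommGroupWithZero Γ] (v : Valuation F Γ)
    (Λ : Set G) (x : G → F) (b2 b4 b6 b8 : F), KLn v Λ x b2 b4 b6 b8 →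
    ∀ z k : G, ¬ Kr v Λ x z → Kr v Λ x k → v (x (z + k) - x z) < 1

/-- Separation (good reduction). -/
def S_VSep : Prop :=
  ∀ (G F Γ : Type) [AddCommGroup G] [Field F] [LinearOrderedCommGroupWithZero Γ] (v : Valuation F Γ)
    (Λ : Set G) (x : G → F) (b2 b4 b6 b8 : F), KLn v Λ x b2 b4 b6 b8 → v (dsc b2 b4 b6 b8) = 1 →
    ∀ z z' : G, ¬ Kr v Λ x z → ¬ Kr v Λ x z' → v (x z - x z') < 1 →
      Kr v Λ x (z + z') ∨ Kr v Λ x (z - z')

/-- Multiplication by integers in the kernel. -/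
def S_VMul : Prop :=
  ∀ (G F Γ : Type) [AddCommGroup G] [Field F] [LinearOrderedCommGroupWithZero Γ] (v : Valuation F Γ)
    (Λ : Set G) (x : G → F) (b2 b4 b6 b8 : F), KLn v Λ x b2 b4 b6 b8 →
    ∀ z : G, Kr v Λ x z → z ∉ Λ →
      (∀ j : ℕ, v (xi Λ x (j • z) - (j : F) ^ 2 * xi Λ x z) < v (xi Λ x z)) ∧
      ∀ j : ℕ, v (j : F) = 1 → j • z ∉ Λ

/-! ## 2. Coordinates of `ℂ / Lam b` -/

variable {n t : ℕ}

/-- The coordinate `(℘(z) - e)/s`. -/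
def xx (b : Ideal (OO n t)) (e s z : ℂ) : ℂ := (wpC b z - e) / s

/-- `b₂`. -/
def c2 (e s : ℂ) : ℂ := 12 * e / s

/-- `b₄`. -/
def c4 (b : Ideal (OO n t)) (e s : ℂ) : ℂ := (6 * e ^ 2 - (LP b).g₂ / 2) / s ^ 2

/-- `b₆`. -/
def c6 (b : Ideal (OO n t)) (e s : ℂ) : ℂ := (4 * e ^ 3 - (LP b).g₂ * e - (LP b).g₃) / s ^ 3

/-- `b₈`. -/
def c8 (b : Ideal (OO n t)) (e s : ℂ) : ℂ := (c2 e s * c6 b e s - c4 b e s ^ 2) / 4

/-- The coordinate is integral. -/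
structure ICd {Γ : Type} [LinearOrderedCommGroupWithZero Γ] (v : Valuation ℂ Γ) (b : Ideal (OO n t))
    (e s : ℂ) : Prop where
  ne : s ≠ 0
  v2 : v (c2 e s) ≤ 1
  v4 : v (c4 b e s) ≤ 1
  v6 : v (c6 b e s) ≤ 1
  v8 : v (c8 b e s) ≤ 1

/-- The coordinate has good reduction. -/
structure GCd {Γ : Type} [LinearOrderedCommGroupWithZero Γ] (v : Valuation ℂ Γ) (b : Ideal (OO n t))
    (e s : ℂ) : Prop extends ICd v b e s where
  ds : v (dsc (c2 e s) (c4 b e s) (c6 b e s) (c8 b e s)) = 1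

/-- `T`, `T'` are different points of order two. -/
structure Ord2 (b : Ideal (OO n t)) (T T' : ℂ) : Prop where
  t1 : 2 * T ∈ Lam b
  t2 : T ∉ Lam b
  t3 : 2 * T' ∈ Lam b
  t4 : T' ∉ Lam b
  t5 : T - T' ∉ Lam b

/-- The Kummer line of the coordinate. -/
def S_VCrd : Prop :=
  ∀ (n t : ℕ) [SqN n t] (Γ : Type) [LinearOrderedCommGroupWithZero Γ] (v : Valuation ℂ Γ)
    (b : Ideal (OO n t)) (e s : ℂ), b ≠ ⊥ → ICd v b e s →
    KLn v (Lam b) (xx b e s) (c2 e s) (c4 b e s) (c6 b e s) (c8 b e s)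

open Classical in
/-- The product formula for a coordinate; `C = (s'/s) ∏ (x(u) - x(T))`. -/
def S_VPr : Prop :=
  ∀ (n t : ℕ) [SqN n t] (a b : Ideal (OO n t)), a ≠ ⊥ → b ≠ ⊥ → PrI a 2 → ∀ R : Finset ℂ, IsSys a b R →
    ∀ e s e' s' T T' : ℂ, s ≠ 0 → s' ≠ 0 → Ord2 b T T' → ∃ C : ℂ,
      C = s' / s * ∏ u ∈ R, (if u ∈ Lam b then 1 else xx b e s u - xx b e s T) ∧
      (∀ z : ℂ, z ∉ Lam (a * b) → ∏ u ∈ R, (xx b e s (z + u) - xx b e s T) =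
        C * (xx (a * b) e' s' z - xx (a * b) e' s' T)) ∧
      ((xx b e s T' - xx b e s T) * (xx b e s (T + T') - xx b e s T)) ^ R.card =
        C ^ 2 * ((xx (a * b) e' s' T' - xx (a * b) e' s' T) *
          (xx (a * b) e' s' (T + T') - xx (a * b) e' s' T))

/-- Legendre's coordinate has good reduction at all `v` with `v 2 = 1`. -/
def S_VLeg : Prop :=
  ∀ (n t : ℕ) [Ine n t] (Γ : Type) [LinearOrderedCommGroupWithZero Γ] (v : Valuation ℂ Γ), v 2 = 1 →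
    ∀ b : Ideal (OO n t), b ≠ ⊥ → ∀ T T' : ℂ, Ord2 b T T' →
      GCd v b (wpC b T) (wpC b T' - wpC b T) ∧
      v (xx b (wpC b T) (wpC b T' - wpC b T) (T + T')) = 1 ∧
      v (1 - xx b (wpC b T) (wpC b T' - wpC b T) (T + T')) = 1

/-- Good reduction and isogenies of odd degree, `v 2 = 1`. -/
def S_VKM : Prop :=
  ∀ (n t : ℕ) [SqN n t] (Γ : Type) [LinearOrderedCommGroupWithZero Γ] (v : Valuation ℂ Γ), v 2 = 1 →
    ∀ a b : Ideal (OO n t), a ≠ ⊥ → b ≠ ⊥ → PrI a 2 → ∀ e s e' s' : ℂ, GCd v b e s → GCd v (a * b) e' s' →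
      (∀ z : ℂ, Kr v (Lam b) (xx b e s) z → Kr v (Lam (a * b)) (xx (a * b) e' s') z) ∧
      (v s' = v s → ∀ u ∈ Lam (a * b), Kr v (Lam b) (xx b e s) u → u ∈ Lam b) ∧
      (∀ T T' : ℂ, Ord2 b T T' → v (xx b e s T) ≤ 1 ∧ v (xx b e s T' - xx b e s T) = 1) ∧
      ∀ T T' : ℂ, Ord2 b T T' → ∀ u ∈ Lam (a * b), u ∉ Lam b → ¬ Kr v (Lam b) (xx b e s) u →
        v (xx b e s u - xx b e s T) = 1

/-- The kernel is an `O`-module, `v 2 = 1`. -/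
def S_VO : Prop :=
  ∀ (n t : ℕ) [Ine n t] (Γ : Type) [LinearOrderedCommGroupWithZero Γ] (v : Valuation ℂ Γ), v 2 = 1 →
    ∀ b : Ideal (OO n t), b ≠ ⊥ → ∀ e s : ℂ, GCd v b e s →
      (∀ (α : OO n t) (z : ℂ), Kr v (Lam b) (xx b e s) z → Kr v (Lam b) (xx b e s) (toC α * z)) ∧
      ∀ (α : OO n t) (z : ℂ), v (toC α) = 1 → Kr v (Lam b) (xx b e s) z → toC α * z ∈ Lam b → z ∈ Lam b

/-- Above two. -/
def S_VTwo : Prop :=
  ∀ (n t : ℕ) [Ine n t] (Γ : Type) [LinearOrderedCommGroupWithZero Γ] (v : Valuation ℂ Γ), v 2 < 1 →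
    ∀ b : Ideal (OO n t), G15 b → v (A3 b) = 1 ∧ v (A1 b) < 1

/-- The valuation of a prime `Q`, extended to `ℂ`. -/
def S_VEx : Prop :=
  ∀ Q : Ideal ZZ, Npr Q → ∃ V : ValuationSubring ℂ, (∀ x : Om, V.valuation (io x) ≤ 1 ↔ VP Q x) ∧
    (∀ x : Om, V.valuation (io x) < 1 ↔ MP Q x) ∧ ∀ x : Om, V.valuation (io x) = 1 ↔ UP Q x

/-! ## 3. Algebraicity -/

/-- Legendre's coordinate is algebraic at the torsion points. -/
def S_RL : Prop :=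
  ∀ (n t : ℕ) [Ine n t] (b : Ideal (OO n t)), b ≠ ⊥ → ∀ T T' : ℂ, Ord2 b T T' → ∀ z : ℂ, Tor n t z →
    z ∉ Lam b → IsAlgebraic ℚ (xx b (wpC b T) (wpC b T' - wpC b T) z)

/-- Almost all primes. -/
def S_R2c : Prop :=
  ∀ (n t : ℕ) [Ine n t], ∃ B : ℕ, 0 < B ∧ ∀ Q : Ideal ZZ, Npr Q → ¬ MP Q (B : Om) → GQ n t Q

end Pool.Agent.DN
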