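import Pool.Agent.Lib.DN.R.Spec

/-!
# Theorem DN, part R: basic facts on valuations, and the two algebraic lemmas on the Kummer line (helper46)
-/

set_option autoImplicit false

noncomputable section

namespace Pool.Agent.DN

section basic

variable {F Γ : Type} [Field F] [LinearOrderedCommGroupWithZero Γ] (v : Valuation F Γ)

theorem vnat (j : ℕ) : v (j : F) ≤ 1 := by
  induction j with
  | zero => simp
  | succ j ih =>
    push_cast
    exact v.map_add_le ih (by rw [v.map_one])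

theorem vint (j : ℤ) : v (j : F) ≤ 1 := by
  obtain ⟨k, rfl | rfl⟩ := j.eq_nat_or_neg
  · rw [Int.cast_natCast]
    exact vnat v k
  · rw [Int.cast_neg, v.map_neg, Int.cast_natCast]
    exact vnat v k

theorem vof (j : ℕ) [j.AtLeastTwo] : v (OfNat.ofNat j : F) ≤ 1 := vnat v j

variable {v}

theorem vadd {x y : F} (hx : v x ≤ 1) (hy : v y ≤ 1) : v (x + y) ≤ 1 := v.map_add_le hx hy

theorem vsub {x y : F} (hx : v x ≤ 1) (hy : v y ≤ 1) : v (x - y) ≤ 1 := v.map_sub_le hx hy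

theorem vneg {x : F} (hx : v x ≤ 1) : v (-x) ≤ 1 := by rwa [v.map_neg]

theorem vmul {x y : F} (hx : v x ≤ 1) (hy : v y ≤ 1) : v (x * y) ≤ 1 := by
  rw [v.map_mul]
  exact mul_le_one' hx hy

theorem vpow {x : F} (hx : v x ≤ 1) (j : ℕ) : v (x ^ j) ≤ 1 := by
  rw [v.map_pow]
  exact pow_le_one' hx j

theorem vprod {ι : Type} (s : Finset ι) (f : ι → F) (h : ∀ i ∈ s, v (f i) ≤ 1) : v (∏ i ∈ s, f i) ≤ 1 := by
  rw [map_prod]
  exact Finset.prod_le_one' h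

theorem vsum {ι : Type} (s : Finset ι) (f : ι → F) (h : ∀ i ∈ s, v (f i) ≤ 1) : v (∑ i ∈ s, f i) ≤ 1 :=
  v.map_sum_le h

theorem madd {x y : F} (hx : v x < 1) (hy : v y < 1) : v (x + y) < 1 := v.map_add_lt hx hy

theorem msub {x y : F} (hx : v x < 1) (hy : v y < 1) : v (x - y) < 1 := v.map_sub_lt hx hy

theorem mneg {x : F} (hx : v x < 1) : v (-x) < 1 := by rwa [v.map_neg]

theorem mmul {x y : F} (hx : v x ≤ 1) (hy : v y < 1) : v (x * y) < 1 := by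
  rw [v.map_mul]
  exact mul_lt_one_of_nonneg_of_lt_one_right hx zero_le' hy

theorem mmulr {x y : F} (hx : v x < 1) (hy : v y ≤ 1) : v (x * y) < 1 := by
  rw [mul_comm]
  exact mmul hy hx

theorem mpow {x : F} (hx : v x < 1) {j : ℕ} (hj : j ≠ 0) : v (x ^ j) < 1 := by
  rw [v.map_pow]
  exact pow_lt_one' hx hj

theorem mzero : v (0 : F) < 1 := by
  rw [v.map_zero]
  exact zero_lt_one

/-- Elements congruent to `1`. -/
theorem vone {x : F} (h : v (x - 1) < 1) : v x = 1 := by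
  have := v.map_add_eq_of_lt_right (x := x - 1) (y := 1) (by rw [v.map_one]; exact h)
  rwa [sub_add_cancel, v.map_one] at this

/-- Congruent elements. -/
theorem vcongr {x y : F} (h : v (x - y) < 1) (hy : v y = 1) : v x = 1 := by
  have := v.map_add_eq_of_lt_right (x := x - y) (y := y) (by rw [hy]; exact h)
  rwa [sub_add_cancel, hy] at this

theorem vcongr_le {x y : F} (h : v (x - y) < 1) (hy : v y ≤ 1) : v x ≤ 1 := by
  rw [← sub_add_cancel x y]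
  exact vadd h.le hy

theorem ne_zero_of_one {x : F} (h : v x = 1) : x ≠ 0 := by
  rintro rfl
  rw [v.map_zero] at h
  exact zero_ne_one h

theorem ne_zero_of_lt {x : F} (h : 1 < v x) : x ≠ 0 := by
  rintro rfl
  rw [v.map_zero] at h
  exact not_lt_zero' h

theorem inv_lt {x : F} (h : 1 < v x) : v x⁻¹ < 1 := (v.one_lt_val_iff (ne_zero_of_lt h)).1 h

theorem lt_inv {x : F} (h0 : x ≠ 0) (h : v x < 1) : 1 < v x⁻¹ := (v.val_lt_one_iff h0).1 h

theorem mcases {x y : F} (h : v (x * y) < 1) : v x < 1 ∨ v y < 1 := by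
  rw [v.map_mul] at h
  by_contra hc
  rw [not_or, not_lt, not_lt] at hc
  exact absurd h (not_lt.2 (one_le_mul hc.1 hc.2))

theorem mof_pow {x : F} {j : ℕ} (h : v (x ^ j) < 1) : v x < 1 := by
  rw [v.map_pow] at h
  by_contra hc
  exact absurd h (not_lt.2 (one_le_pow_of_one_le' (not_lt.1 hc) j))

theorem vof_pow {x : F} {j : ℕ} (hj : j ≠ 0) (h : v (x ^ j) ≤ 1) : v x ≤ 1 := by
  rw [v.map_pow] at h
  by_contra hc
  exact absurd h (not_le.2 (one_lt_pow' (not_le.1 hc) hj))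

theorem uof_pow {x : F} {j : ℕ} (hj : j ≠ 0) (h : v (x ^ j) = 1) : v x = 1 := by
  rcases lt_trichotomy (v x) 1 with h1 | h1 | h1
  · exact absurd h (ne_of_lt (mpow h1 hj))
  · exact h1
  · rw [v.map_pow] at h
    exact absurd h (ne_of_gt (one_lt_pow' h1 hj))

end basic

section kummer

variable {F Γ : Type} [Field F] [LinearOrderedCommGroupWithZero Γ] {v : Valuation F Γ}
  {b2 b4 b6 b8 : F}

/-- The addition formulas with two points in the kernel. -/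
theorem kum_add (h2 : v b2 ≤ 1) (h4 : v b4 ≤ 1) (h6 : v b6 ≤ 1) (h8 : v b8 ≤ 1) {x1 x2 x3 x4 : F}
    (hx1 : 1 < v x1) (hx2 : 1 < v x2)
    (hS : (x3 + x4) * (x1 - x2) ^ 2 = 2 * x1 * x2 * (x1 + x2) + b2 * (x1 * x2) + b4 * (x1 + x2) + b6)
    (hP : x3 * x4 * (x1 - x2) ^ 2 = x1 ^ 2 * x2 ^ 2 - b4 * (x1 * x2) - b6 * (x1 + x2) - b8) :
    1 < v x3 ∧ 1 < v x4 ∧ v (x3⁻¹ + x4⁻¹ - 2 * (x1⁻¹ + x2⁻¹)) ≤ v x1⁻¹ * v x2⁻¹ := by
  have e1 := ne_zero_of_lt hx1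
  have e2 := ne_zero_of_lt hx2
  have ha := inv_lt hx1
  have hc := inv_lt hx2
  set a := x1⁻¹ with ha'
  set c := x2⁻¹ with hc'
  have ea : x1 = a⁻¹ := by rw [ha', inv_inv]
  have ec : x2 = c⁻¹ := by rw [hc', inv_inv]
  have a0 : a ≠ 0 := inv_ne_zero e1
  have c0 : c ≠ 0 := inv_ne_zero e2
  have hS' : (x3 + x4) * (c - a) ^ 2 = 2 * (a + c) + a * c * (b2 + b4 * (a + c) + b6 * (a * c)) := by
    rw [ea, ec] at hS
    have : (x3 + x4) * (a⁻¹ - c⁻¹) ^ 2 * (a ^ 2 * c ^ 2) =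
        (2 * a⁻¹ * c⁻¹ * (a⁻¹ + c⁻¹) + b2 * (a⁻¹ * c⁻¹) + b4 * (a⁻¹ + c⁻¹) + b6) * (a ^ 2 * c ^ 2) := by
      rw [hS]
    have l : (x3 + x4) * (a⁻¹ - c⁻¹) ^ 2 * (a ^ 2 * c ^ 2) = (x3 + x4) * (c - a) ^ 2 := by
      field_simp
    have r : (2 * a⁻¹ * c⁻¹ * (a⁻¹ + c⁻¹) + b2 * (a⁻¹ * c⁻¹) + b4 * (a⁻¹ + c⁻¹) + b6) * (a ^ 2 * c ^ 2) =
        2 * (a + c) + a * c * (b2 + b4 * (a + c) + b6 * (a * c)) := by
      field_simp
      ring
    rw [← l, this, r]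
  have hP' : x3 * x4 * (c - a) ^ 2 = 1 - a * c * (b4 + b6 * (a + c) + b8 * (a * c)) := by
    rw [ea, ec] at hP
    have : x3 * x4 * (a⁻¹ - c⁻¹) ^ 2 * (a ^ 2 * c ^ 2) =
        (a⁻¹ ^ 2 * c⁻¹ ^ 2 - b4 * (a⁻¹ * c⁻¹) - b6 * (a⁻¹ + c⁻¹) - b8) * (a ^ 2 * c ^ 2) := by rw [hP]
    have l : x3 * x4 * (a⁻¹ - c⁻¹) ^ 2 * (a ^ 2 * c ^ 2) = x3 * x4 * (c - a) ^ 2 := by
      field_simp
    have r : (a⁻¹ ^ 2 * c⁻¹ ^ 2 - b4 * (a⁻¹ * c⁻¹) - b6 * (a⁻¹ + c⁻¹) - b8) * (a ^ 2 * c ^ 2) =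
        1 - a * c * (b4 + b6 * (a + c) + b8 * (a * c)) := by
      field_simp
      ring
    rw [← l, this, r]
  clear hS hP
  set Nn := 2 * (a + c) + a * c * (b2 + b4 * (a + c) + b6 * (a * c)) with hN
  set U := 1 - a * c * (b4 + b6 * (a + c) + b8 * (a * c)) with hU
  have hac : v (a + c) < 1 := madd ha hc
  have hac' : v (a * c) < 1 := mmul ha.le hc
  have hW1 : v (b2 + b4 * (a + c) + b6 * (a * c)) ≤ 1 :=
    vadd (vadd h2 (vmul h4 hac.le)) (vmul h6 hac'.le)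
  have hW2 : v (b4 + b6 * (a + c) + b8 * (a * c)) ≤ 1 :=
    vadd (vadd h4 (vmul h6 hac.le)) (vmul h8 hac'.le)
  have hU1 : v (1 - U) ≤ v a * v c := by
    have : 1 - U = a * c * (b4 + b6 * (a + c) + b8 * (a * c)) := by rw [hU]; ring
    rw [this, v.map_mul, v.map_mul]
    exact mul_le_of_le_one_right' hW2
  have hacl : v a * v c < 1 := by rw [← v.map_mul]; exact hac'
  have hU2 : v U = 1 := by
    refine vone ?_
    rw [v.map_sub_swap]
    exact lt_of_le_of_lt hU1 hacl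
  have hN1 : v Nn < 1 := by
    rw [hN]
    exact madd (mmul (vof v 2) hac) (mmulr hac' hW1)
  have hN2 : v (Nn - 2 * (a + c)) ≤ v a * v c := by
    have : Nn - 2 * (a + c) = a * c * (b2 + b4 * (a + c) + b6 * (a * c)) := by rw [hN]; ring
    rw [this, v.map_mul, v.map_mul]
    exact mul_le_of_le_one_right' hW1
  have hU0 : U ≠ 0 := ne_zero_of_one hU2
  have hP0 : x3 * x4 * (c - a) ^ 2 ≠ 0 := by rw [hP']; exact hU0
  have h3 : x3 ≠ 0 := by rintro rfl; exact hP0 (by ring)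
  have h4' : x4 ≠ 0 := by rintro rfl; exact hP0 (by ring)
  have hd0 : (c - a) ^ 2 ≠ 0 := right_ne_zero_of_mul hP0
  have key : (x3 + x4) * U = Nn * (x3 * x4) := by
    apply mul_right_cancel₀ hd0
    calc (x3 + x4) * U * (c - a) ^ 2 = (x3 + x4) * (c - a) ^ 2 * U := by ring
      _ = Nn * (x3 * x4 * (c - a) ^ 2) := by rw [hS', hP']
      _ = Nn * (x3 * x4) * (c - a) ^ 2 := by ring
  have hPv : 1 < v (x3 * x4) := by
    have h1 : v (x3 * x4) * v ((c - a) ^ 2) = 1 := by rw [← v.map_mul, hP', hU2]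
    have h2' : v ((c - a) ^ 2) < 1 := mpow (msub hc ha) two_ne_zero
    by_contra hcon
    have := mul_lt_one_of_nonneg_of_lt_one_right (not_lt.1 hcon) zero_le' h2'
    rw [h1] at this
    exact lt_irrefl _ this
  have aux : ∀ y y' : F, y' ≠ 0 → (y + y') * U = Nn * (y * y') → 1 < v (y * y') → 1 < v y := by
    intro y y' hy' hk hp
    by_contra hcon
    have hy : v y ≤ 1 := not_lt.1 hcon
    have h1 : 1 < v y' := by
      by_contra h
      have h2 : v (y * y') ≤ 1 := vmul hy (not_lt.1 h)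
      exact absurd hp (not_lt.2 h2)
    have h2 : v (y + y') = v y' := v.map_add_eq_of_lt_right (lt_of_le_of_lt hy h1)
    have h3 : v y' = v Nn * v y * v y' := by
      have := congrArg v hk
      rw [v.map_mul, hU2, mul_one, h2, v.map_mul, v.map_mul, ← mul_assoc] at this
      exact this
    have h4 : v Nn * v y < 1 := mul_lt_one_of_nonneg_of_lt_one_left zero_le' hN1 hy
    have h5 : v y' ≠ 0 := by
      intro h
      rw [h] at h1
      exact not_lt_zero' h1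
    have h6 : v Nn * v y = 1 := by
      apply mul_right_cancel₀ h5
      rw [← h3, one_mul]
    rw [h6] at h4
    exact lt_irrefl _ h4
  refine ⟨aux x3 x4 h4' key hPv, aux x4 x3 h3 (by rw [add_comm, key]; ring) (by rwa [mul_comm]), ?_⟩
  have e : (x3⁻¹ + x4⁻¹) * U = Nn := by
    have : (x3⁻¹ + x4⁻¹) = (x3 + x4) / (x3 * x4) := by
      field_simp
      ring
    rw [this, div_mul_eq_mul_div, key]
    exact mul_div_cancel_right₀ _ (mul_ne_zero h3 h4')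
  have hs : v (x3⁻¹ + x4⁻¹) < 1 := by
    have := congrArg v e
    rw [v.map_mul, hU2, mul_one] at this
    rw [this]
    exact hN1
  have e' : x3⁻¹ + x4⁻¹ - 2 * (a + c) = (Nn - 2 * (a + c)) + (x3⁻¹ + x4⁻¹) * (1 - U) := by
    rw [mul_sub, e]
    ring
  rw [e']
  refine v.map_add_le hN2 ?_
  rw [v.map_mul]
  exact le_trans (mul_le_of_le_one_left' hs.le) hU1

/-- Duplication in the kernel. -/
theorem kum_dup (h2 : v b2 ≤ 1) (h4 : v b4 ≤ 1) (h6 : v b6 ≤ 1) (h8 : v b8 ≤ 1) {x1 : F} (hx1 : 1 < v x1) :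
    (4 * x1 ^ 3 + b2 * x1 ^ 2 + 2 * b4 * x1 + b6 = 0 → v (4 * x1⁻¹) ≤ v x1⁻¹ * v x1⁻¹) ∧
    ∀ x3 : F, x3 * (4 * x1 ^ 3 + b2 * x1 ^ 2 + 2 * b4 * x1 + b6) = x1 ^ 4 - b4 * x1 ^ 2 - 2 * b6 * x1 - b8 →
      1 < v x3 ∧ v (x3⁻¹ - 4 * x1⁻¹) ≤ v x1⁻¹ * v x1⁻¹ := by
  have e1 := ne_zero_of_lt hx1
  have ha := inv_lt hx1
  set a := x1⁻¹ with ha'
  have ea : x1 = a⁻¹ := by rw [ha', inv_inv]
  have a0 : a ≠ 0 := inv_ne_zero e1
  have haa : v (a ^ 2) < 1 := mpow ha two_ne_zero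
  have hW1 : v (b2 + 2 * b4 * a + b6 * a ^ 2) ≤ 1 :=
    vadd (vadd h2 (vmul (vmul (vof v 2) h4) ha.le)) (vmul h6 haa.le)
  have hW2 : v (b4 + 2 * b6 * a + b8 * a ^ 2) ≤ 1 :=
    vadd (vadd h4 (vmul (vmul (vof v 2) h6) ha.le)) (vmul h8 haa.le)
  have em : (4 * x1 ^ 3 + b2 * x1 ^ 2 + 2 * b4 * x1 + b6) * a ^ 4 =
      4 * a + a ^ 2 * (b2 + 2 * b4 * a + b6 * a ^ 2) := by
    rw [ea]
    field_simp
    ring
  have ef : (x1 ^ 4 - b4 * x1 ^ 2 - 2 * b6 * x1 - b8) * a ^ 4 =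
      1 - a ^ 2 * (b4 + 2 * b6 * a + b8 * a ^ 2) := by
    rw [ea]
    field_simp
    ring
  have hq : v (a ^ 2 * (b2 + 2 * b4 * a + b6 * a ^ 2)) ≤ v a * v a := by
    rw [v.map_mul, v.map_pow, sq]
    exact mul_le_of_le_one_right' hW1
  constructor
  · intro h
    rw [h, zero_mul] at em
    have : 4 * a = -(a ^ 2 * (b2 + 2 * b4 * a + b6 * a ^ 2)) := by linear_combination -em
    rw [this, v.map_neg]
    exact hq
  · intro x3 h
    set M := 4 * a + a ^ 2 * (b2 + 2 * b4 * a + b6 * a ^ 2) with hM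
    set U := 1 - a ^ 2 * (b4 + 2 * b6 * a + b8 * a ^ 2) with hU
    have hU1 : v (1 - U) ≤ v a * v a := by
      have : 1 - U = a ^ 2 * (b4 + 2 * b6 * a + b8 * a ^ 2) := by rw [hU]; ring
      rw [this, v.map_mul, v.map_pow, sq]
      exact mul_le_of_le_one_right' hW2
    have haa' : v a * v a < 1 := by rw [← sq, ← v.map_pow]; exact haa
    have hU2 : v U = 1 := by
      refine vone ?_
      rw [v.map_sub_swap]
      exact lt_of_le_of_lt hU1 haa'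
    have hMv : v M < 1 := by
      rw [hM]
      exact madd (mmul (vof v 4) ha) (lt_of_le_of_lt hq haa')
    have k : x3 * M = U := by
      rw [← em, ← mul_assoc, h, ef]
    have h0 : x3 ≠ 0 := by
      rintro rfl
      rw [zero_mul] at k
      exact ne_zero_of_one hU2 k.symm
    have h1 : 1 < v x3 := by
      by_contra hc
      have h2 : v (x3 * M) < 1 := mmul (not_lt.1 hc) hMv
      rw [k, hU2] at h2
      exact lt_irrefl _ h2
    refine ⟨h1, ?_⟩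
    have e : x3⁻¹ * U = M := by rw [← k, inv_mul_cancel_left₀ h0]
    have e' : x3⁻¹ - 4 * a = (M - 4 * a) + x3⁻¹ * (1 - U) := by
      rw [mul_sub, e]
      ring
    rw [e']
    refine v.map_add_le ?_ ?_
    · have : M - 4 * a = a ^ 2 * (b2 + 2 * b4 * a + b6 * a ^ 2) := by rw [hM]; ring
      rw [this]
      exact hq
    · rw [v.map_mul]
      exact le_trans (mul_le_of_le_one_left' (inv_lt h1).le) hU1

/-- One point in the kernel. -/
theorem kum_red (h2 : v b2 ≤ 1) (h4 : v b4 ≤ 1) (h6 : v b6 ≤ 1) (h8 : v b8 ≤ 1) {x1 x2 x3 x4 : F}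
    (hx1 : v x1 ≤ 1) (hx2 : 1 < v x2) (hx3 : v x3 ≤ 1) (hx4 : v x4 ≤ 1)
    (hS : (x3 + x4) * (x1 - x2) ^ 2 = 2 * x1 * x2 * (x1 + x2) + b2 * (x1 * x2) + b4 * (x1 + x2) + b6)
    (hP : x3 * x4 * (x1 - x2) ^ 2 = x1 ^ 2 * x2 ^ 2 - b4 * (x1 * x2) - b6 * (x1 + x2) - b8) :
    v (x3 - x1) < 1 := by
  have e2 := ne_zero_of_lt hx2
  have hc := inv_lt hx2
  set c := x2⁻¹ with hc'
  have ec : x2 = c⁻¹ := by rw [hc', inv_inv]
  have c0 : c ≠ 0 := inv_ne_zero e2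
  have hS' : (x3 + x4) * (x1 * c - 1) ^ 2 = 2 * x1 * (x1 * c + 1) + b2 * x1 * c + b4 * (x1 * c ^ 2 + c) +
      b6 * c ^ 2 := by
    rw [ec] at hS
    have l : (x3 + x4) * (x1 - c⁻¹) ^ 2 * c ^ 2 = (x3 + x4) * (x1 * c - 1) ^ 2 := by
      field_simp
    have r : (2 * x1 * c⁻¹ * (x1 + c⁻¹) + b2 * (x1 * c⁻¹) + b4 * (x1 + c⁻¹) + b6) * c ^ 2 =
        2 * x1 * (x1 * c + 1) + b2 * x1 * c + b4 * (x1 * c ^ 2 + c) + b6 * c ^ 2 := by
      field_simp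
    rw [← l, hS, r]
  have hP' : x3 * x4 * (x1 * c - 1) ^ 2 = x1 ^ 2 - b4 * x1 * c - b6 * (x1 * c ^ 2 + c) - b8 * c ^ 2 := by
    rw [ec] at hP
    have l : x3 * x4 * (x1 - c⁻¹) ^ 2 * c ^ 2 = x3 * x4 * (x1 * c - 1) ^ 2 := by
      field_simp
    have r : (x1 ^ 2 * c⁻¹ ^ 2 - b4 * (x1 * c⁻¹) - b6 * (x1 + c⁻¹) - b8) * c ^ 2 =
        x1 ^ 2 - b4 * x1 * c - b6 * (x1 * c ^ 2 + c) - b8 * c ^ 2 := by
      field_simp
    rw [← l, hP, r]
  have h : (x3 - x1) ^ 2 = c * (x3 * (2 * x1 * x1 + b2 * x1 + b4 * (x1 * c + 1) + b6 * c -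
      (x3 + x4) * (x1 * (x1 * c - 2))) + (b4 * x1 + b6 * (x1 * c + 1) + b8 * c +
        x3 * x4 * (x1 * (x1 * c - 2)))) := by
    linear_combination x3 * hS' - hP'
  have hxc : v (x1 * c) ≤ 1 := (mmul hx1 hc).le
  have hxc1 : v (x1 * c + 1) ≤ 1 := vadd hxc (by rw [v.map_one])
  have hq : v (x1 * (x1 * c - 2)) ≤ 1 := vmul hx1 (vsub hxc (vof v 2))
  have h1 : v (x3 * (2 * x1 * x1 + b2 * x1 + b4 * (x1 * c + 1) + b6 * c -
      (x3 + x4) * (x1 * (x1 * c - 2)))) ≤ 1 := by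
    refine vmul hx3 (vsub (vadd (vadd (vadd (vmul (vmul (vof v 2) hx1) hx1) (vmul h2 hx1)) (vmul h4 hxc1))
      (vmul h6 hc.le)) (vmul (vadd hx3 hx4) hq))
  have h2' : v (b4 * x1 + b6 * (x1 * c + 1) + b8 * c + x3 * x4 * (x1 * (x1 * c - 2))) ≤ 1 :=
    vadd (vadd (vadd (vmul h4 hx1) (vmul h6 hxc1)) (vmul h8 hc.le)) (vmul (vmul hx3 hx4) hq)
  have h3 : v ((x3 - x1) ^ 2) < 1 := by
    rw [h]
    exact mmulr hc (vadd h1 h2')
  exact mof_pow h3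

end kummer

end Pool.Agent.DN
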