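import Pool.Agent.Lib.DN.R.VK
import Pool.Agent.Lib.DN.B.All

/-!
# Theorem DN, part R: the Kummer line of a coordinate of `ℂ / Lam b` (helper46)
-/

set_option autoImplicit false

open scoped Pointwise nonZeroDivisors

noncomputable section

namespace Pool.Agent.DN

open Pool.Agent.MuZ Pool.Agent.FW NumberField IsDedekindDomain
open Pool.Agent.DI (io ofC io_inj exists_io io_ofC ofC_io VP MP UP TP ex)

variable {n t : ℕ} [SqN n t]

/-- `4 x³ + b₂ x² + 2 b₄ x + b₆ = ℘'²/s³`. -/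
theorem xx_crv {b : Ideal (OO n t)} (hb : b ≠ ⊥) {e s z : ℂ} (hs : s ≠ 0) (hz : z ∉ Lam b) :
    4 * xx b e s z ^ 3 + c2 e s * xx b e s z ^ 2 + 2 * c4 b e s * xx b e s z + c6 b e s =
      wdC b z ^ 2 / s ^ 3 := by
  have h := (aB2 n t b hb z hz).1.1
  rw [h]
  unfold xx c2 c4 c6
  field_simp
  ring

theorem sVCrd : S_VCrd := by
  intro n t _ Γ _ v b e s hb hi
  have hs := hi.ne
  have B1 := aB1 n t b hb
  have B3 := aB3 n t b hb
  have s2 : s ^ 2 ≠ 0 := pow_ne_zero 2 hs
  refine ⟨lam_zero b, fun z hz z' hz' => lam_add hz hz', fun z hz => lam_neg hz, ?_, ?_, ?_, ?_, ?_, ?_,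
    hi.v2, hi.v4, hi.v6, hi.v8, ?_⟩
  · intro z z' h
    unfold xx
    rw [wpC_congr' hb h]
  · intro z z' h1 h2 h3 h4 h5
    have h6 : wpC b z = wpC b z' := by
      unfold xx at h5
      field_simp at h5
      linear_combination h5
    rcases (B1.2.2.2.1 z z' h1 h2).1 h6 with h | h
    · exact h4 h
    · exact h3 h
  · intro z z' h1 h2 h3 h4
    have h := (B3.1 z z' h1 h2 h3 h4).1
    have l : (xx b e s (z + z') + xx b e s (z - z')) * (xx b e s z - xx b e s z') ^ 2 * s ^ 3 =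
        (wpC b (z + z') + wpC b (z - z')) * (wpC b z - wpC b z') ^ 2 - 2 * e * (wpC b z - wpC b z') ^ 2 := by
      unfold xx
      field_simp
      ring
    have r : (2 * xx b e s z * xx b e s z' * (xx b e s z + xx b e s z') +
        c2 e s * (xx b e s z * xx b e s z') + c4 b e s * (xx b e s z + xx b e s z') + c6 b e s) * s ^ 3 =
        ((2 * wpC b z * wpC b z' - (LP b).g₂ / 2) * (wpC b z + wpC b z') - (LP b).g₃) -
          2 * e * (wpC b z - wpC b z') ^ 2 := by
      unfold xx c2 c4 c6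
      field_simp
      ring
    apply mul_right_cancel₀ (pow_ne_zero 3 hs)
    rw [l, r, h]
  · intro z z' h1 h2 h3 h4
    have h := (B3.1 z z' h1 h2 h3 h4).1
    have h' := (B3.1 z z' h1 h2 h3 h4).2.1
    have l : xx b e s (z + z') * xx b e s (z - z') * (xx b e s z - xx b e s z') ^ 2 * s ^ 4 =
        wpC b (z + z') * wpC b (z - z') * (wpC b z - wpC b z') ^ 2 -
          e * ((wpC b (z + z') + wpC b (z - z')) * (wpC b z - wpC b z') ^ 2) +
          e ^ 2 * (wpC b z - wpC b z') ^ 2 := by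
      unfold xx
      field_simp
      ring
    have r : (xx b e s z ^ 2 * xx b e s z' ^ 2 - c4 b e s * (xx b e s z * xx b e s z') -
        c6 b e s * (xx b e s z + xx b e s z') - c8 b e s) * s ^ 4 =
        ((wpC b z * wpC b z' + (LP b).g₂ / 4) ^ 2 + (LP b).g₃ * (wpC b z + wpC b z')) -
          e * ((2 * wpC b z * wpC b z' - (LP b).g₂ / 2) * (wpC b z + wpC b z') - (LP b).g₃) +
          e ^ 2 * (wpC b z - wpC b z') ^ 2 := by
      unfold xx c8 c2 c4 c6
      field_simp
      ring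
    apply mul_right_cancel₀ (pow_ne_zero 4 hs)
    rw [l, r, h, h']
  · intro z hz
    have hz2 : 2 * z ∉ Lam b := by rwa [two_mul]
    have hz1 : z ∉ Lam b := fun h => hz (lam_add h h)
    have hw : wdC b z ≠ 0 := fun h => hz2 ((B1.2.2.2.2.1 z hz1).1 h)
    have h := (B3.2 z hz2).1
    rw [two_mul] at h
    have hc := xx_crv (e := e) hb hs hz1
    have hg := (aB2 n t b hb z hz1).1.1
    rw [hc]
    refine ⟨div_ne_zero (pow_ne_zero 2 hw) (pow_ne_zero 3 hs), ?_⟩
    have l : xx b e s (z + z) * (wdC b z ^ 2 / s ^ 3) * s ^ 4 =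
        wpC b (z + z) * wdC b z ^ 2 - e * wdC b z ^ 2 := by
      unfold xx
      field_simp
    have r : (xx b e s z ^ 4 - c4 b e s * xx b e s z ^ 2 - 2 * c6 b e s * xx b e s z - c8 b e s) * s ^ 4 =
        ((wpC b z ^ 2 + (LP b).g₂ / 4) ^ 2 + 2 * (LP b).g₃ * wpC b z) -
          e * (4 * wpC b z ^ 3 - (LP b).g₂ * wpC b z - (LP b).g₃) := by
      unfold xx c8 c2 c4 c6
      field_simp
      ring
    apply mul_right_cancel₀ (pow_ne_zero 4 hs)
    rw [l, r, h, hg]
  · intro z hz hz2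
    rw [xx_crv hb hs hz, (B1.2.2.2.2.1 z hz).2 (by rwa [two_mul])]
    simp
  · unfold c8
    ring

end Pool.Agent.DN
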