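import Pool.Agent.Lib.DN.R.VB

/-!
# Theorem DN, part R: the kernel of reduction of a Kummer line over a valued field (helper46)
-/

set_option autoImplicit false

noncomputable section

namespace Pool.Agent.DN

section

variable {G F Γ : Type} [AddCommGroup G] [Field F] [LinearOrderedCommGroupWithZero Γ] {v : Valuation F Γ}
  {Λ : Set G} {x : G → F} {b2 b4 b6 b8 : F}

theorem KLn.sub (h : KLn v Λ x b2 b4 b6 b8) {z z' : G} (hz : z ∈ Λ) (hz' : z' ∈ Λ) : z - z' ∈ Λ := by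
  rw [sub_eq_add_neg]
  exact h.add _ hz _ (h.neg _ hz')

theorem KLn.mem_congr (h : KLn v Λ x b2 b4 b6 b8) {z z' : G} (hz : z - z' ∈ Λ) : z ∈ Λ ↔ z' ∈ Λ :=
  ⟨fun h' => by simpa using h.sub h' hz, fun h' => by simpa using h.add _ hz _ h'⟩

theorem KLn.kr_congr (h : KLn v Λ x b2 b4 b6 b8) {z z' : G} (hz : z - z' ∈ Λ) :
    Kr v Λ x z ↔ Kr v Λ x z' := by
  unfold Kr
  rw [h.mem_congr hz, h.ev z z' (Or.inl hz)]

theorem KLn.kr_neg (h : KLn v Λ x b2 b4 b6 b8) {z : G} (hz : Kr v Λ x z) : Kr v Λ x (-z) := by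
  rcases hz with hz | hz
  · exact Or.inl (h.neg _ hz)
  · right
    rw [h.ev (-z) z (Or.inr (by simpa using h.zero))]
    exact hz

theorem KLn.neg_iff (h : KLn v Λ x b2 b4 b6 b8) {z : G} : -z ∈ Λ ↔ z ∈ Λ :=
  ⟨fun h' => by simpa using h.neg _ h', h.neg z⟩

theorem KLn.kr_two (h : KLn v Λ x b2 b4 b6 b8) {z : G} (hz : Kr v Λ x z) : Kr v Λ x (z + z) := by
  by_cases h1 : z + z ∈ Λ
  · exact Or.inl h1
  · have h2 : z ∉ Λ := fun h2 => h1 (h.add _ h2 _ h2)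
    have h3 : 1 < v (x z) := hz.resolve_left h2
    exact Or.inr ((kum_dup h.v2 h.v4 h.v6 h.v8 h3).2 _ (h.dup z h1).2).1

theorem KLn.kr_add (h : KLn v Λ x b2 b4 b6 b8) {z z' : G} (hz : Kr v Λ x z) (hz' : Kr v Λ x z') :
    Kr v Λ x (z + z') := by
  by_cases h1 : z ∈ Λ
  · rwa [h.kr_congr (z := z + z') (z' := z') (by simpa using h1)]
  by_cases h2 : z' ∈ Λ
  · rwa [h.kr_congr (z := z + z') (z' := z) (by simpa using h2)]
  by_cases h3 : z + z' ∈ Λ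
  · exact Or.inl h3
  by_cases h4 : z - z' ∈ Λ
  · rw [← h.kr_congr (z := z + z) (z' := z + z') (by simpa using h4)]
    exact h.kr_two hz
  · exact Or.inr (kum_add h.v2 h.v4 h.v6 h.v8 (hz.resolve_left h1) (hz'.resolve_left h2)
      (h.kad z z' h1 h2 h3 h4) (h.kml z z' h1 h2 h3 h4)).1

theorem KLn.kr_zero (h : KLn v Λ x b2 b4 b6 b8) : Kr v Λ x 0 := Or.inl h.zero

theorem KLn.kr_sub (h : KLn v Λ x b2 b4 b6 b8) {z z' : G} (hz : Kr v Λ x z) (hz' : Kr v Λ x z') :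
    Kr v Λ x (z - z') := by
  rw [sub_eq_add_neg]
  exact h.kr_add hz (h.kr_neg hz')

theorem KLn.kr_nsmul (h : KLn v Λ x b2 b4 b6 b8) {z : G} (hz : Kr v Λ x z) (j : ℕ) : Kr v Λ x (j • z) := by
  induction j with
  | zero => rw [zero_nsmul]; exact h.kr_zero
  | succ j ih => rw [succ_nsmul]; exact h.kr_add ih hz

theorem KLn.red (h : KLn v Λ x b2 b4 b6 b8) {z k : G} (hz : ¬ Kr v Λ x z) (hk : Kr v Λ x k) :
    v (x (z + k) - x z) < 1 := by
  by_cases h1 : k ∈ Λ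
  · rw [h.ev (z + k) z (Or.inl (by simpa using h1)), sub_self]
    exact mzero
  have n1 : ¬ Kr v Λ x (z + k) := fun h' => hz (by simpa using h.kr_sub h' hk)
  have n2 : ¬ Kr v Λ x (z - k) := fun h' => hz (by simpa using h.kr_add h' hk)
  have a1 : z ∉ Λ := fun h' => hz (Or.inl h')
  have a2 : z + k ∉ Λ := fun h' => n1 (Or.inl h')
  have a3 : z - k ∉ Λ := fun h' => n2 (Or.inl h')
  have c1 : v (x z) ≤ 1 := not_lt.1 fun h' => hz (Or.inr h')
  have c2 : v (x (z + k)) ≤ 1 := not_lt.1 fun h' => n1 (Or.inr h')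
  have c3 : v (x (z - k)) ≤ 1 := not_lt.1 fun h' => n2 (Or.inr h')
  exact kum_red h.v2 h.v4 h.v6 h.v8 c1 (hk.resolve_left h1) c2 c3 (h.kad z k a1 h1 a2 a3)
    (h.kml z k a1 h1 a2 a3)

theorem KLn.sep (h : KLn v Λ x b2 b4 b6 b8) (hd : v (dsc b2 b4 b6 b8) = 1) {z z' : G} (hz : ¬ Kr v Λ x z)
    (hz' : ¬ Kr v Λ x z') (he : v (x z - x z') < 1) : Kr v Λ x (z + z') ∨ Kr v Λ x (z - z') := by
  by_contra hcon
  rw [not_or] at hcon
  obtain ⟨n1, n2⟩ := hcon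
  have a1 : z ∉ Λ := fun h' => hz (Or.inl h')
  have a1' : z' ∉ Λ := fun h' => hz' (Or.inl h')
  have a2 : z + z' ∉ Λ := fun h' => n1 (Or.inl h')
  have a3 : z - z' ∉ Λ := fun h' => n2 (Or.inl h')
  have c1 : v (x z) ≤ 1 := not_lt.1 fun h' => hz (Or.inr h')
  have c1' : v (x z') ≤ 1 := not_lt.1 fun h' => hz' (Or.inr h')
  have c2 : v (x (z + z')) ≤ 1 := not_lt.1 fun h' => n1 (Or.inr h')
  have c3 : v (x (z - z')) ≤ 1 := not_lt.1 fun h' => n2 (Or.inr h')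
  have e1 := h.kad z z' a1 a1' a2 a3
  have e2 := h.kml z z' a1 a1' a2 a3
  set X := x z with hX
  set X' := x z' with hX'
  set S := x (z + z')
  set S' := x (z - z')
  have one : v (1 : F) ≤ 1 := by rw [v.map_one]
  have g1 : v (4 * X ^ 3 + b2 * X ^ 2 + 2 * b4 * X + b6) < 1 := by
    have : 4 * X ^ 3 + b2 * X ^ 2 + 2 * b4 * X + b6 = (X - X') * ((S + S') * (X - X') +
        (4 * X ^ 2 + 2 * X * X' + b2 * X + b4)) := by
      linear_combination -e1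
    rw [this]
    refine mmulr he (vadd (vmul (vadd c2 c3) he.le) ?_)
    refine vadd (vadd (vadd (vmul (vof v 4) (vpow c1 2)) (vmul (vmul (vof v 2) c1) c1')) (vmul h.v2 c1)) h.v4
  have g2 : v (X ^ 4 - b4 * X ^ 2 - 2 * b6 * X - b8) < 1 := by
    have : X ^ 4 - b4 * X ^ 2 - 2 * b6 * X - b8 = (X - X') * (S * S' * (X - X') +
        (X ^ 2 * (X + X') - b4 * X - b6)) := by
      linear_combination -e2
    rw [this]
    refine mmulr he (vadd (vmul (vmul c2 c3) he.le) ?_)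
    exact vsub (vsub (vmul (vpow c1 2) (vadd c1 c1')) (vmul h.v4 c1)) h.v6
  have g3 : v (dsc b2 b4 b6 b8) < 1 := by
    have : dsc b2 b4 b6 b8 = (12 * X ^ 3 - b2 * X ^ 2 - 10 * b4 * X + b2 * b4 - 27 * b6) *
        (4 * X ^ 3 + b2 * X ^ 2 + 2 * b4 * X + b6) - (48 * X ^ 2 + 8 * b2 * X + 32 * b4 - b2 ^ 2) *
          (X ^ 4 - b4 * X ^ 2 - 2 * b6 * X - b8) := by
      unfold dsc
      linear_combination (-12 * X ^ 2 - 2 * b2 * X - 8 * b4) * h.rel
    rw [this]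
    refine msub (mmul ?_ g1) (mmul ?_ g2)
    · exact vsub (vadd (vsub (vsub (vmul (vof v 12) (vpow c1 3)) (vmul h.v2 (vpow c1 2)))
        (vmul (vmul (vof v 10) h.v4) c1)) (vmul h.v2 h.v4)) (vmul (vof v 27) h.v6)
    · exact vsub (vadd (vadd (vmul (vof v 48) (vpow c1 2)) (vmul (vmul (vof v 8) h.v2) c1))
        (vmul (vof v 32) h.v4)) (vpow h.v2 2)
  rw [hd] at g3
  exact lt_irrefl _ g3

theorem xi_mem {z : G} (hz : z ∈ Λ) : xi Λ x z = 0 := by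
  unfold xi
  rw [if_pos hz]

theorem xi_not {z : G} (hz : z ∉ Λ) : xi Λ x z = (x z)⁻¹ := by
  unfold xi
  rw [if_neg hz]

theorem KLn.xi_congr (h : KLn v Λ x b2 b4 b6 b8) {z z' : G} (hz : z - z' ∈ Λ) : xi Λ x z = xi Λ x z' := by
  by_cases h1 : z ∈ Λ
  · rw [xi_mem h1, xi_mem ((h.mem_congr hz).1 h1)]
  · rw [xi_not h1, xi_not (fun h2 => h1 ((h.mem_congr hz).2 h2)), h.ev z z' (Or.inl hz)]

theorem KLn.xi_neg (h : KLn v Λ x b2 b4 b6 b8) (z : G) : xi Λ x (-z) = xi Λ x z := by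
  by_cases h1 : z ∈ Λ
  · rw [xi_mem h1, xi_mem (h.neg _ h1)]
  · rw [xi_not h1, xi_not (fun h2 => h1 (h.neg_iff.1 h2)), h.ev (-z) z (Or.inr (by simpa using h.zero))]

theorem KLn.xi_two (h : KLn v Λ x b2 b4 b6 b8) {z : G} (hz : Kr v Λ x z) :
    v (xi Λ x (z + z) - 4 * xi Λ x z) ≤ v (xi Λ x z) * v (xi Λ x z) := by
  by_cases h2 : z ∈ Λ
  · rw [xi_mem h2, xi_mem (h.add _ h2 _ h2)]
    simp
  have h3 : 1 < v (x z) := hz.resolve_left h2
  rw [xi_not h2]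
  by_cases h1 : z + z ∈ Λ
  · rw [xi_mem h1, zero_sub, v.map_neg]
    exact (kum_dup h.v2 h.v4 h.v6 h.v8 h3).1 (h.tw z h2 h1)
  · rw [xi_not h1]
    exact ((kum_dup h.v2 h.v4 h.v6 h.v8 h3).2 _ (h.dup z h1).2).2

/-- The sum formula for `1/x` in the kernel. -/
theorem KLn.xi_add (h : KLn v Λ x b2 b4 b6 b8) {y z : G} (hy : Kr v Λ x y) (hz : Kr v Λ x z) :
    v (xi Λ x (y + z) + xi Λ x (y - z) - 2 * (xi Λ x y + xi Λ x z)) ≤ v (xi Λ x y) * v (xi Λ x z) := by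
  by_cases h1 : y ∈ Λ
  · rw [h.xi_congr (z := y + z) (z' := z) (by simpa using h1),
      h.xi_congr (z := y - z) (z' := -z) (by simpa using h1), h.xi_neg, xi_mem h1]
    have : xi Λ x z + xi Λ x z - 2 * (0 + xi Λ x z) = 0 := by ring
    rw [this]
    simp
  by_cases h2 : z ∈ Λ
  · rw [h.xi_congr (z := y + z) (z' := y) (by simpa using h2),
      h.xi_congr (z := y - z) (z' := y) (by simpa using h.neg _ h2), xi_mem h2]
    have : xi Λ x y + xi Λ x y - 2 * (xi Λ x y + 0) = 0 := by ring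
    rw [this]
    simp
  by_cases h3 : y + z ∈ Λ
  · have e1 : xi Λ x z = xi Λ x y := by
      rw [← h.xi_neg z]
      exact h.xi_congr (by simpa [sub_eq_add_neg, add_comm] using h.neg _ h3)
    have e2 : xi Λ x (y - z) = xi Λ x (y + y) := h.xi_congr (by
      have : y - z - (y + y) = -(y + z) := by abel
      rw [this]
      exact h.neg _ h3)
    rw [xi_mem h3, e1, e2]
    have : 0 + xi Λ x (y + y) - 2 * (xi Λ x y + xi Λ x y) = xi Λ x (y + y) - 4 * xi Λ x y := by ring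
    rw [this]
    exact h.xi_two hy
  by_cases h4 : y - z ∈ Λ
  · have e1 : xi Λ x z = xi Λ x y := (h.xi_congr h4).symm
    have e2 : xi Λ x (y + z) = xi Λ x (y + y) := h.xi_congr (by
      have : y + z - (y + y) = -(y - z) := by abel
      rw [this]
      exact h.neg _ h4)
    rw [xi_mem h4, e1, e2]
    have : xi Λ x (y + y) + 0 - 2 * (xi Λ x y + xi Λ x y) = xi Λ x (y + y) - 4 * xi Λ x y := by ring
    rw [this]
    exact h.xi_two hy
  rw [xi_not h1, xi_not h2, xi_not h3, xi_not h4]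
  exact (kum_add h.v2 h.v4 h.v6 h.v8 (hy.resolve_left h1) (hz.resolve_left h2)
    (h.kad y z h1 h2 h3 h4) (h.kml y z h1 h2 h3 h4)).2.2

theorem KLn.xi_mul (h : KLn v Λ x b2 b4 b6 b8) {z : G} (hz : Kr v Λ x z) (hz' : z ∉ Λ) (j : ℕ) :
    v (xi Λ x (j • z) - (j : F) ^ 2 * xi Λ x z) < v (xi Λ x z) ∧
      v (xi Λ x ((j + 1) • z) - ((j : F) + 1) ^ 2 * xi Λ x z) < v (xi Λ x z) := by
  have hx : 1 < v (x z) := hz.resolve_left hz'
  have hc1 : v (xi Λ x z) < 1 := by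
    rw [xi_not hz']
    exact inv_lt hx
  have hc0 : 0 < v (xi Λ x z) := by
    rw [xi_not hz', v.map_inv]
    exact inv_pos_of_pos (lt_trans zero_lt_one hx)
  have sq : v (xi Λ x z) * v (xi Λ x z) < v (xi Λ x z) := by
    calc v (xi Λ x z) * v (xi Λ x z) < v (xi Λ x z) * 1 := by gcongr
      _ = v (xi Λ x z) := mul_one _
  induction j with
  | zero =>
    refine ⟨?_, ?_⟩
    · rw [zero_nsmul, xi_mem h.zero]
      simpa using hc0
    · have : xi Λ x ((0 + 1) • z) - ((0 : ℕ) + 1 : F) ^ 2 * xi Λ x z = 0 := by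
        simp
      rw [this, v.map_zero]
      exact hc0
  | succ j ih =>
    obtain ⟨h1, h2⟩ := ih
    refine ⟨by push_cast; exact h2, ?_⟩
    have hk : Kr v Λ x ((j + 1) • z) := h.kr_nsmul hz _
    have e1 := h.xi_add hk hz
    have e2 : (j + 1) • z + z = (j + 1 + 1) • z := (succ_nsmul z (j + 1)).symm
    have e3 : (j + 1) • z - z = j • z := by rw [succ_nsmul]; abel
    rw [e2, e3] at e1
    set a := xi Λ x ((j + 1) • z) with ha
    set c := xi Λ x z with hc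
    have ha1 : v a ≤ v c := by
      have : a = (a - ((j : F) + 1) ^ 2 * c) + ((j : F) + 1) ^ 2 * c := by ring
      rw [this]
      refine v.map_add_le h2.le ?_
      rw [v.map_mul]
      refine mul_le_of_le_one_left' (vpow (vadd (vnat v j) (by rw [v.map_one])) 2)
    have e4 : v (xi Λ x ((j + 1 + 1) • z) + xi Λ x (j • z) - 2 * (a + c)) < v c := by
      refine lt_of_le_of_lt e1 (lt_of_le_of_lt ?_ sq)
      gcongr
    have e5 : xi Λ x ((j + 1 + 1) • z) - (((j + 1 : ℕ) : F) + 1) ^ 2 * c =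
        (xi Λ x ((j + 1 + 1) • z) + xi Λ x (j • z) - 2 * (a + c)) + 2 * (a - ((j : F) + 1) ^ 2 * c) -
          (xi Λ x (j • z) - (j : F) ^ 2 * c) := by
      push_cast
      ring
    rw [e5]
    refine v.map_sub_lt (v.map_add_lt e4 ?_) h1
    rw [v.map_mul]
    exact lt_of_le_of_lt (mul_le_of_le_one_left' (vof v 2)) h2

theorem KLn.ker_nat (h : KLn v Λ x b2 b4 b6 b8) {z : G} (hz : Kr v Λ x z) {j : ℕ} (hj : v (j : F) = 1)
    (hjz : j • z ∈ Λ) : z ∈ Λ := by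
  by_contra hz'
  have h1 := (h.xi_mul hz hz' j).1
  rw [xi_mem hjz, zero_sub, v.map_neg, v.map_mul, v.map_pow, hj, one_pow, one_mul] at h1
  exact lt_irrefl _ h1

end

theorem sVAdd : S_VAdd := fun _ _ _ _ _ _ _ _ _ _ _ _ _ h =>
  ⟨fun _ _ h1 h2 => h.kr_add h1 h2, fun _ h1 => h.kr_neg h1, fun _ h1 => Or.inl h1,
    fun j _ h1 => h.kr_nsmul h1 j⟩

theorem sVRed : S_VRed := fun _ _ _ _ _ _ _ _ _ _ _ _ _ h _ _ h1 h2 => h.red h1 h2

theorem sVSep : S_VSep := fun _ _ _ _ _ _ _ _ _ _ _ _ _ h hd _ _ h1 h2 h3 => h.sep hd h1 h2 h3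

theorem sVMul : S_VMul := fun _ _ _ _ _ _ _ _ _ _ _ _ _ h _ h1 h2 =>
  ⟨fun j => (h.xi_mul h1 h2 j).1, fun _ hj h3 => h2 (h.ker_nat h1 hj h3)⟩

end Pool.Agent.DN
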