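import Pool.Agent.Lib.DN.R.VLeg

/-!
# Theorem DN, part R: good reduction and isogenies where `2` is a unit (helper46)
-/

set_option autoImplicit false

open scoped Pointwise nonZeroDivisors

noncomputable section

namespace Pool.Agent.DN

open Pool.Agent.MuZ Pool.Agent.FW NumberField IsDedekindDomain
open Pool.Agent.DI (io ofC io_inj exists_io io_ofC ofC_io VP MP UP TP ex)

theorem NI_mem {n t : ℕ} [SqN n t] (a : Ideal (OO n t)) : (NI a : OO n t) ∈ a := by
  have h : a * cjI a = sp (NI a : OO n t) := ((aO3 n t).2.2.1 a).2.2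
  have h1 : (NI a : OO n t) ∈ sp (NI a : OO n t) := Ideal.mem_span_singleton_self _
  rw [← h] at h1
  have h2 : a * cjI a ≤ a := Ideal.mul_le_left
  exact h2 h1

theorem NI_lam {n t : ℕ} [SqN n t] {a b : Ideal (OO n t)} {u : ℂ} (hu : u ∈ Lam (a * b)) :
    (NI a : ℂ) * u ∈ Lam b := by
  have := lam_prod.1 hu _ (NI_mem a)
  rwa [toC_nat] at this

theorem NI_odd {n t : ℕ} [SqN n t] {a : Ideal (OO n t)} (ha : PrI a 2) : Odd (NI a) := by
  have := ((aO6 n t).2.2.1 2 a two_pos).1 ha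
  rwa [Nat.coprime_two_right] at this

/-- An odd torsion point whose double is in the kernel is in the kernel. -/
theorem kr_odd {n t : ℕ} [SqN n t] {Γ : Type} [LinearOrderedCommGroupWithZero Γ] {v : Valuation ℂ Γ}
    {a b : Ideal (OO n t)} (ha : PrI a 2) {x : ℂ → ℂ} {b2 b4 b6 b8 : ℂ}
    (h : KLn v (Lam b) x b2 b4 b6 b8) {u : ℂ} (hu : u ∈ Lam (a * b)) (h2 : Kr v (Lam b) x (u + u)) :
    Kr v (Lam b) x u := by
  obtain ⟨k, hk⟩ := NI_odd ha
  have h1 : Kr v (Lam b) x ((NI a : ℂ) * u) := Or.inl (NI_lam hu)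
  have e : u = (NI a : ℂ) * u - k • (u + u) := by
    rw [hk, nsmul_eq_mul]
    push_cast
    ring
  rw [e]
  exact h.kr_sub h1 (h.kr_nsmul h2 k)

section ords

variable {n t : ℕ} [SqN n t] {Γ : Type} [LinearOrderedCommGroupWithZero Γ] {v : Valuation ℂ Γ}

/-- The discriminant and the points of order two. -/
theorem Ord2.dsc {b : Ideal (OO n t)} (hb : b ≠ ⊥) {T T' : ℂ} (h : Ord2 b T T') {e s : ℂ} (hs : s ≠ 0) :
    dsc (c2 e s) (c4 b e s) (c6 b e s) (c8 b e s) = 16 * (xx b e s T - xx b e s T') ^ 2 *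
      (xx b e s (T + T') - xx b e s T) ^ 2 * (xx b e s (T + T') - xx b e s T') ^ 2 := by
  obtain ⟨h1, -, h3, h4⟩ := h.g hb
  have e2 : c2 e s = -4 * (xx b e s T + xx b e s T' + xx b e s (T + T')) := by
    unfold c2 xx
    rw [h1]
    field_simp
    ring
  have e4 : c4 b e s = 2 * (xx b e s T * xx b e s T' + xx b e s T * xx b e s (T + T') +
      xx b e s T' * xx b e s (T + T')) := by
    unfold c4 xx
    rw [h1, h3]
    field_simp
    ring
  have e6 : c6 b e s = -4 * (xx b e s T * xx b e s T' * xx b e s (T + T')) := by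
    unfold c6 xx
    rw [h1, h3, h4]
    field_simp
    ring
  have e8 : c8 b e s = (c2 e s * c6 b e s - c4 b e s ^ 2) / 4 := rfl
  rw [e8, e2, e4, e6]
  unfold DN.dsc
  ring

theorem ord2_val (hv : v 2 = 1) {b : Ideal (OO n t)} (hb : b ≠ ⊥) {e s : ℂ} (hi : ICd v b e s) {T : ℂ}
    (h1 : 2 * T ∈ Lam b) (h2 : T ∉ Lam b) : v (xx b e s T) ≤ 1 := by
  by_contra hc
  have hK := sVCrd n t Γ v b e s hb hi
  refine h2 (hK.ker_nat (Or.inr (not_le.1 hc)) (j := 2) ?_ ?_)
  · exact_mod_cast hv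
  · rw [nsmul_eq_mul]
    exact_mod_cast h1

/-- The differences of the values at the points of order two are units. -/
theorem ord2_unit (hv : v 2 = 1) {b : Ideal (OO n t)} (hb : b ≠ ⊥) {e s : ℂ} (hg : GCd v b e s) {T T' : ℂ}
    (h : Ord2 b T T') : v (xx b e s T' - xx b e s T) = 1 := by
  have v1 := ord2_val hv hb hg.toICd h.t1 h.t2
  have v2 := ord2_val hv hb hg.toICd h.t3 h.t4
  have v3 := ord2_val hv hb hg.toICd h.t7 h.t6
  have hd := hg.ds
  rw [h.dsc hb hg.ne] at hd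
  have h16 : (16 : ℂ) = 2 ^ 4 := by norm_num
  rw [h16, v.map_mul, v.map_mul, v.map_mul, v.map_pow 2 4, hv, one_pow, one_mul] at hd
  have a1 : v ((xx b e s T - xx b e s T') ^ 2) ≤ 1 := vpow (vsub v1 v2) 2
  have a2 : v ((xx b e s (T + T') - xx b e s T) ^ 2) ≤ 1 := vpow (vsub v3 v1) 2
  have a3 : v ((xx b e s (T + T') - xx b e s T') ^ 2) ≤ 1 := vpow (vsub v3 v2) 2
  have a4 : v ((xx b e s T - xx b e s T') ^ 2) = 1 := by
    refine le_antisymm a1 ?_
    by_contra hc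
    have : v ((xx b e s T - xx b e s T') ^ 2) * v ((xx b e s (T + T') - xx b e s T) ^ 2) *
        v ((xx b e s (T + T') - xx b e s T') ^ 2) < 1 := by
      rw [← v.map_mul, ← v.map_mul]
      exact mmulr (mmulr (not_le.1 hc) a2) a3
    rw [hd] at this
    exact lt_irrefl _ this
  rw [v.map_sub_swap]
  exact uof_pow two_ne_zero a4

end ords

section main

variable {n t : ℕ} [SqN n t] {Γ : Type} [LinearOrderedCommGroupWithZero Γ] {v : Valuation ℂ Γ}

/-- Odd torsion points outside of the kernel. -/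
theorem odd_unit (hv : v 2 = 1) {a b : Ideal (OO n t)} (hb : b ≠ ⊥) (ha2 : PrI a 2) {e s : ℂ}
    (hg : GCd v b e s) {T : ℂ} (h1 : 2 * T ∈ Lam b) (h2 : T ∉ Lam b) {u : ℂ} (hu : u ∈ Lam (a * b))
    (hk : ¬ Kr v (Lam b) (xx b e s) u) : v (xx b e s u - xx b e s T) = 1 := by
  have hK := sVCrd n t Γ v b e s hb hg.toICd
  have v1 := ord2_val hv hb hg.toICd h1 h2
  have v2 : v (xx b e s u) ≤ 1 := not_lt.1 fun h => hk (Or.inr h)
  have hT : ¬ Kr v (Lam b) (xx b e s) T := by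
    rintro (h | h)
    · exact h2 h
    · exact absurd v1 (not_le.2 h)
  refine le_antisymm (vsub v2 v1) ?_
  by_contra hc
  have h3 := hK.sep hg.ds hk hT (not_le.1 hc)
  apply hk
  refine kr_odd ha2 hK hu ?_
  rcases h3 with h3 | h3
  · have h4 := hK.kr_sub (hK.kr_two h3) (Or.inl h1 : Kr v (Lam b) (xx b e s) (2 * T))
    have e1 : u + T + (u + T) - 2 * T = u + u := by ring
    rwa [e1] at h4
  · have h4 := hK.kr_add (hK.kr_two h3) (Or.inl h1 : Kr v (Lam b) (xx b e s) (2 * T))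
    have e1 : u - T + (u - T) + 2 * T = u + u := by ring
    rwa [e1] at h4

open Classical in
/-- The constant of the product formula is a unit. -/
theorem cst_unit (hv : v 2 = 1) {a b : Ideal (OO n t)} (ha : a ≠ ⊥) (hb : b ≠ ⊥) (ha2 : PrI a 2) {e s e' s' : ℂ}
    (hg : GCd v b e s) (hg' : GCd v (a * b) e' s') {T T' : ℂ} (h : Ord2 b T T') {R : Finset ℂ}
    (hR : IsSys a b R) :
    v (s' / s * ∏ u ∈ R, (if u ∈ Lam b then 1 else xx b e s u - xx b e s T)) = 1 ∧
    ∀ z : ℂ, z ∉ Lam (a * b) → ∏ u ∈ R, (xx b e s (z + u) - xx b e s T) =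
      (s' / s * ∏ u ∈ R, (if u ∈ Lam b then 1 else xx b e s u - xx b e s T)) *
        (xx (a * b) e' s' z - xx (a * b) e' s' T) := by
  obtain ⟨C, hC, h1, h2⟩ := sVPr n t a b ha hb ha2 R hR e s e' s' T T' hg.ne hg'.ne h
  rw [← hC]
  refine ⟨?_, h1⟩
  have hu := h.up ha hb ha2
  have hab : a * b ≠ ⊥ := mul_ne_zero ha hb
  have k1 := ord2_unit hv hb hg h
  have k2 := ord2_unit hv hb hg h.rot
  have k3 := ord2_unit hv hab hg' hu
  have k4 := ord2_unit hv hab hg' hu.rot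
  have h3 := congrArg v h2
  rw [v.map_pow, v.map_mul, k1, k2, mul_one, one_pow, v.map_mul, v.map_mul, k3, k4, mul_one, mul_one] at h3
  exact uof_pow two_ne_zero h3.symm

open Classical in
theorem kr_up (hv : v 2 = 1) {a b : Ideal (OO n t)} (ha : a ≠ ⊥) (hb : b ≠ ⊥) (ha2 : PrI a 2) {e s e' s' : ℂ}
    (hg : GCd v b e s) (hg' : GCd v (a * b) e' s') {T T' : ℂ} (h : Ord2 b T T') {z : ℂ}
    (hz : Kr v (Lam b) (xx b e s) z) : Kr v (Lam (a * b)) (xx (a * b) e' s') z := by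
  obtain ⟨-, -, R, hR, -⟩ := aL3 n t a b ha hb
  obtain ⟨h1, h2⟩ := cst_unit hv ha hb ha2 hg hg' h hR
  have hu := h.up ha hb ha2
  have hab : a * b ≠ ⊥ := mul_ne_zero ha hb
  have hK := sVCrd n t Γ v b e s hb hg.toICd
  by_contra hcon
  have z1 : z ∉ Lam (a * b) := fun h' => hcon (Or.inl h')
  have z2 : v (xx (a * b) e' s' z) ≤ 1 := not_lt.1 fun h' => hcon (Or.inr h')
  have vT := ord2_val hv hb hg.toICd h.t1 h.t2
  have h3 := congrArg v (h2 z z1)
  rw [v.map_mul, h1, one_mul] at h3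
  have h4 : v (xx (a * b) e' s' z - xx (a * b) e' s' T) ≤ 1 :=
    vsub z2 (ord2_val hv hab hg'.toICd hu.t1 hu.t2)
  rw [← h3, map_prod] at h4
  have hzu : ∀ u ∈ R, z + u ∉ Lam b := fun u hu' h' => z1 (by
    have : z = (z + u) - u := by ring
    rw [this]
    exact lam_sub (lam_mono h') (hR.mem u hu'))
  have big : ∀ u ∈ R, Kr v (Lam b) (xx b e s) u → 1 < v (xx b e s (z + u) - xx b e s T) := by
    intro u hu' hku
    have h5 : 1 < v (xx b e s (z + u)) := (hK.kr_add hz hku).resolve_left (hzu u hu')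
    rw [v.map_sub_eq_of_lt_left (lt_of_le_of_lt vT h5)]
    exact h5
  have ge : ∀ u ∈ R, 1 ≤ v (xx b e s (z + u) - xx b e s T) := by
    intro u hu'
    by_cases hku : Kr v (Lam b) (xx b e s) u
    · exact (big u hu' hku).le
    · have h5 := odd_unit hv hb ha2 hg h.t1 h.t2 (hR.mem u hu') hku
      have h6 := hK.red hku hz
      rw [add_comm u z] at h6
      have h7 : v (xx b e s (z + u) - xx b e s T) = 1 := by
        refine vcongr (y := xx b e s u - xx b e s T) ?_ h5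
        have : xx b e s (z + u) - xx b e s T - (xx b e s u - xx b e s T) = xx b e s (z + u) - xx b e s u := by
          ring
        rw [this]
        exact h6
      exact h7.ge
  obtain ⟨u₀, hu₀, h0⟩ := hR.ex 0 (lam_zero _)
  have hu₀' : u₀ ∈ Lam b := by
    have := lam_neg h0
    simpa using this
  rw [← Finset.mul_prod_erase R _ hu₀] at h4
  have h5 : 1 ≤ ∏ u ∈ R.erase u₀, v (xx b e s (z + u) - xx b e s T) :=
    Finset.one_le_prod' fun u hu' => ge u (Finset.mem_of_mem_erase hu')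
  exact absurd h4 (not_le.2 (one_lt_mul_of_lt_of_le' (big u₀ hu₀ (Or.inl hu₀')) h5))

open Classical in
theorem ker_odd (hv : v 2 = 1) {a b : Ideal (OO n t)} (ha : a ≠ ⊥) (hb : b ≠ ⊥) (ha2 : PrI a 2) {e s e' s' : ℂ}
    (hg : GCd v b e s) (hg' : GCd v (a * b) e' s') {T T' : ℂ} (h : Ord2 b T T') (hss : v s' = v s) {u : ℂ}
    (hu : u ∈ Lam (a * b)) (hku : Kr v (Lam b) (xx b e s) u) : u ∈ Lam b := by
  obtain ⟨-, -, R, hR, -⟩ := aL3 n t a b ha hb
  obtain ⟨h1, -⟩ := cst_unit hv ha hb ha2 hg hg' h hR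
  have hK := sVCrd n t Γ v b e s hb hg.toICd
  have vT := ord2_val hv hb hg.toICd h.t1 h.t2
  by_contra hub
  obtain ⟨u₁, hu₁, h2⟩ := hR.ex u hu
  have hu₁b : u₁ ∉ Lam b := fun h' => hub ((lam_sub_iff h2).2 h')
  have hku₁ : Kr v (Lam b) (xx b e s) u₁ := (hK.kr_congr h2).1 hku
  have hs0 : v s ≠ 0 := (v.ne_zero_iff).2 hg.ne
  have e1 : v (s' / s) = 1 := by rw [v.map_div, hss, div_self hs0]
  rw [v.map_mul, e1, one_mul, map_prod] at h1
  have ge : ∀ u ∈ R, 1 ≤ v (if u ∈ Lam b then 1 else xx b e s u - xx b e s T) := by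
    intro u hu'
    by_cases hub' : u ∈ Lam b
    · rw [if_pos hub', v.map_one]
    · rw [if_neg hub']
      by_cases hku' : Kr v (Lam b) (xx b e s) u
      · have h5 : 1 < v (xx b e s u) := hku'.resolve_left hub'
        rw [v.map_sub_eq_of_lt_left (lt_of_le_of_lt vT h5)]
        exact h5.le
      · exact (odd_unit hv hb ha2 hg h.t1 h.t2 (hR.mem u hu') hku').ge
  rw [← Finset.mul_prod_erase R _ hu₁] at h1
  have h5 : 1 ≤ ∏ u ∈ R.erase u₁, v (if u ∈ Lam b then 1 else xx b e s u - xx b e s T) :=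
    Finset.one_le_prod' fun u hu' => ge u (Finset.mem_of_mem_erase hu')
  have h6 : 1 < v (if u₁ ∈ Lam b then 1 else xx b e s u₁ - xx b e s T) := by
    rw [if_neg hu₁b]
    have h5 : 1 < v (xx b e s u₁) := hku₁.resolve_left hu₁b
    rw [v.map_sub_eq_of_lt_left (lt_of_le_of_lt vT h5)]
    exact h5
  exact absurd h1 (ne_of_gt (one_lt_mul_of_lt_of_le' h6 h5))

end main

/-- Points of order two exist. -/
theorem ex_ord2 {n t : ℕ} [SqN n t] {b : Ideal (OO n t)} (hb : b ≠ ⊥) : ∃ T T' : ℂ, Ord2 b T T' := by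
  have h2 : (2 : OO n t) ≠ 0 := by
    intro h
    have h1 := congrArg (fun u : OO n t => toC u) h
    simp only [toC_two, toC_zero] at h1
    norm_num at h1
  have hs2 : sp (2 : OO n t) ≠ ⊥ := sp_ne h2
  obtain ⟨⟨g, hg, hg'⟩, h3, -⟩ := aL3 n t (sp 2) b hs2 hb
  obtain ⟨h4, -⟩ := h3 g hg hg'
  have hg2 : toC (2 : OO n t) * g ∈ Lam b := lam_sp.1 hg
  rw [toC_two] at hg2
  have nd : ∀ v : OO n t, (2 : OO n t) ∣ v ↔ v ∈ sp (2 : OO n t) := fun v => Ideal.mem_span_singleton.symm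
  refine ⟨g, toC (wI n t) * g, hg2, ?_, ?_, ?_, ?_⟩
  · intro h
    have h5 : toC (1 : OO n t) * g ∈ Lam b := by rwa [toC_one, one_mul]
    have h6 := (nd 1).2 ((h4 1).1 h5)
    have h7 := ((nat_dvd_iff 2 (1 : OO n t)).1 (by exact_mod_cast h6)).1
    rw [re_one] at h7
    norm_num at h7
  · have : 2 * (toC (wI n t) * g) = toC (wI n t) * (2 * g) := by ring
    rw [this]
    exact lam_mul _ hg2
  · intro h
    have h6 := (nd _).2 ((h4 (wI n t)).1 h)
    have h7 := ((nat_dvd_iff 2 (wI n t)).1 (by exact_mod_cast h6)).2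
    simp only [wI] at h7
    norm_num at h7
  · intro h
    have h5 : toC (1 - wI n t) * g ∈ Lam b := by
      rw [toC_sub, toC_one, sub_mul, one_mul]
      exact h
    have h6 := (nd _).2 ((h4 (1 - wI n t)).1 h5)
    have h7 := ((nat_dvd_iff 2 (1 - wI n t)).1 (by exact_mod_cast h6)).2
    rw [QuadraticAlgebra.im_sub, im_one] at h7
    simp only [wI] at h7
    norm_num at h7

theorem sVKM : S_VKM := by
  intro n t _ Γ _ v hv a b ha hb ha2 e s e' s' hg hg'
  obtain ⟨T, T', h⟩ := ex_ord2 hb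
  refine ⟨fun z hz => kr_up hv ha hb ha2 hg hg' h hz, fun hss u hu hku =>
    ker_odd hv ha hb ha2 hg hg' h hss hu hku, fun T T' h => ⟨ord2_val hv hb hg.toICd h.t1 h.t2,
      ord2_unit hv hb hg h⟩, fun T T' h u hu _ hk => odd_unit hv hb ha2 hg h.t1 h.t2 hu hk⟩

end Pool.Agent.DN
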