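import Pool.Agent.Lib.DN.R.VPr

/-!
# Theorem DN, part R: Legendre's coordinate has good reduction where `2` is a unit (helper46)
-/

set_option autoImplicit false

open scoped Pointwise nonZeroDivisors

noncomputable section

namespace Pool.Agent.DN

open Pool.Agent.MuZ Pool.Agent.FW NumberField IsDedekindDomain
open Pool.Agent.DI (io ofC io_inj exists_io io_ofC ofC_io VP MP UP TP ex)

section val

variable {n t : ℕ} [SqN n t] {Γ : Type} [LinearOrderedCommGroupWithZero Γ] {v : Valuation ℂ Γ}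

theorem v_wC : v (wC n t) ≤ 1 := by
  by_contra h
  rw [not_le] at h
  have h1 : v (wC n t ^ 2) ≤ v (wC n t) := by
    rw [wC_sq]
    refine v.map_sub_le ?_ ?_
    · rw [v.map_mul]
      exact mul_le_of_le_one_left' (vnat v t)
    · exact le_trans (vnat v n) h.le
  have h2 : v (wC n t) < v (wC n t ^ 2) := by
    rw [v.map_pow, sq]
    have h0 : 0 < v (wC n t) := lt_trans zero_lt_one h
    calc v (wC n t) = v (wC n t) * 1 := (mul_one _).symm
      _ < v (wC n t) * v (wC n t) := by gcongr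
  exact absurd h1 (not_le.2 h2)

theorem v_toC (α : OO n t) : v (toC α) ≤ 1 := by
  rw [toC_apply]
  exact vadd (vint v _) (vmul (vint v _) v_wC)

/-- If the norm is a unit then the element is. -/
theorem v_toC_one {α : OO n t} (h : v ((Nm α : ℤ) : ℂ) = 1) : v (toC α) = 1 := by
  have h1 : v (toC α) * v (toC (cjO α)) = 1 := by rw [← v.map_mul, ← toC_Nm, h]
  refine le_antisymm (v_toC α) ?_
  by_contra hc
  have h2 : v (toC (cjO α)) * v (toC α) < 1 :=
    mul_lt_one_of_nonneg_of_lt_one_right (v_toC _) zero_le' (not_le.1 hc)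
  rw [mul_comm, h1] at h2
  exact lt_irrefl _ h2

/-- Points of order prime to the residue characteristic are not in the kernel. -/
theorem ker_int {b : Ideal (OO n t)} {x : ℂ → ℂ} {b2 b4 b6 b8 : ℂ} (h : KLn v (Lam b) x b2 b4 b6 b8) {z : ℂ}
    (hz : Kr v (Lam b) x z) {m : ℤ} (hm : v (m : ℂ) = 1) (hmz : (m : ℂ) * z ∈ Lam b) : z ∈ Lam b := by
  rcases Int.natAbs_eq m with hm1 | hm1
  · refine h.ker_nat hz (j := m.natAbs) ?_ ?_
    · rw [hm1, Int.cast_natCast] at hm
      exact hm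
    · rw [hm1, Int.cast_natCast] at hmz
      rwa [nsmul_eq_mul]
  · refine h.ker_nat hz (j := m.natAbs) ?_ ?_
    · rw [hm1, Int.cast_neg, Int.cast_natCast, v.map_neg] at hm
      exact hm
    · rw [hm1, Int.cast_neg, Int.cast_natCast, neg_mul] at hmz
      rw [nsmul_eq_mul]
      exact lam_neg_iff.1 hmz

theorem ker_Nm {b : Ideal (OO n t)} {x : ℂ → ℂ} {b2 b4 b6 b8 : ℂ} (h : KLn v (Lam b) x b2 b4 b6 b8) {z : ℂ}
    (hz : Kr v (Lam b) x z) {α : OO n t} (hm : v ((Nm α : ℤ) : ℂ) = 1) (hmz : toC α * z ∈ Lam b) : z ∈ Lam b := by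
  refine ker_int h hz hm ?_
  rw [toC_Nm, mul_comm (toC α), mul_assoc]
  exact lam_mul _ hmz

end val

section two

variable {n t : ℕ}

/-- `g₂`, `g₃` and the roots. -/
theorem Ord2.g [SqN n t] {b : Ideal (OO n t)} (hb : b ≠ ⊥) {T T' : ℂ} (h : Ord2 b T T') :
    wpC b (T + T') = -wpC b T - wpC b T' ∧ wpC b T ≠ wpC b T' ∧
    (LP b).g₂ = 4 * (wpC b T ^ 2 + wpC b T * wpC b T' + wpC b T' ^ 2) ∧
    (LP b).g₃ = -4 * wpC b T * wpC b T' * (wpC b T + wpC b T') := by
  have B4 := aB4 n t b hb T T' h.t1 h.t2 h.t3 h.t4 h.t5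
  have B1 := aB1 n t b hb
  have c1 := (aB2 n t b hb T h.t2).1.1
  have c2 := (aB2 n t b hb T' h.t4).1.1
  rw [(B1.2.2.2.2.1 T h.t2).2 h.t1] at c1
  rw [(B1.2.2.2.2.1 T' h.t4).2 h.t3] at c2
  have hne : wpC b T - wpC b T' ≠ 0 := sub_ne_zero.2 B4.2.1
  have g2 : (LP b).g₂ = 4 * (wpC b T ^ 2 + wpC b T * wpC b T' + wpC b T' ^ 2) := by
    apply mul_left_cancel₀ hne
    linear_combination c1 - c2
  refine ⟨by linear_combination B4.1, B4.2.1, g2, ?_⟩
  rw [g2] at c1
  linear_combination c1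

/-- `(e' - e)(e'' - e) = 3 e² - g₂/4`. -/
theorem Ord2.D [SqN n t] {b : Ideal (OO n t)} (hb : b ≠ ⊥) {T T' : ℂ} (h : Ord2 b T T') :
    (wpC b T' - wpC b T) * (wpC b (T + T') - wpC b T) = 3 * wpC b T ^ 2 - (LP b).g₂ / 4 := by
  obtain ⟨h1, -, h2, -⟩ := h.g hb
  rw [h1, h2]
  ring

/-- Legendre's coordinate. -/
theorem leg_c [SqN n t] {b : Ideal (OO n t)} (hb : b ≠ ⊥) {T T' la : ℂ} (h : Ord2 b T T')
    (hla : la = xx b (wpC b T) (wpC b T' - wpC b T) (T + T')) :
    wpC b T' - wpC b T ≠ 0 ∧ c2 (wpC b T) (wpC b T' - wpC b T) = -4 * (1 + la) ∧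
    c4 b (wpC b T) (wpC b T' - wpC b T) = 2 * la ∧ c6 b (wpC b T) (wpC b T' - wpC b T) = 0 ∧
    c8 b (wpC b T) (wpC b T' - wpC b T) = -la ^ 2 ∧
    dsc (c2 (wpC b T) (wpC b T' - wpC b T)) (c4 b (wpC b T) (wpC b T' - wpC b T))
      (c6 b (wpC b T) (wpC b T' - wpC b T)) (c8 b (wpC b T) (wpC b T' - wpC b T)) =
        16 * la ^ 2 * (1 - la) ^ 2 := by
  obtain ⟨h1, h2, h3, h4⟩ := h.g hb
  have hs : wpC b T' - wpC b T ≠ 0 := sub_ne_zero.2 h2.symm
  have e2 : c2 (wpC b T) (wpC b T' - wpC b T) = -4 * (1 + la) := by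
    rw [hla]
    unfold c2 xx
    rw [h1]
    field_simp
    ring
  have e4 : c4 b (wpC b T) (wpC b T' - wpC b T) = 2 * la := by
    rw [hla]
    unfold c4 xx
    rw [h1, h3]
    field_simp
    ring
  have e6 : c6 b (wpC b T) (wpC b T' - wpC b T) = 0 := by
    unfold c6
    rw [h3, h4, div_eq_zero_iff]
    left
    ring
  have e8 : c8 b (wpC b T) (wpC b T' - wpC b T) = -la ^ 2 := by
    unfold c8
    rw [e6, e4]
    ring
  refine ⟨hs, e2, e4, e6, e8, ?_⟩
  rw [e2, e4, e6, e8]
  unfold dsc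
  ring

/-- Multiplication by `w` on the points of order two (inert case). -/
theorem Ord2.w [Ine n t] {b : Ideal (OO n t)} (hb : b ≠ ⊥) {T T' : ℂ} (h : Ord2 b T T') :
    toC (wI n t) * T - T' ∈ Lam b ∨ toC (wI n t) * T - (T + T') ∈ Lam b := by
  rcases aL6.2 n t b hb T h.t1 h.t2 T' h.t3 h.t4 with h1 | h1 | h1
  · exact absurd (by rw [← neg_sub]; exact lam_neg h1) h.t5
  · left
    rw [← neg_sub]
    exact lam_neg h1
  · right
    have e : toC (wI n t) * T - (T + T') = -(T' - toC (1 + wI n t) * T) - 2 * T := by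
      rw [toC_add, toC_one]
      ring
    rw [e]
    exact lam_sub (lam_neg h1) h.t1

/-- Multiplication by an odd element keeps `Ord2`. -/
theorem Ord2.ml [SqN n t] {b : Ideal (OO n t)} (hb : b ≠ ⊥) {T T' : ℂ} (h : Ord2 b T T') {c : OO n t}
    (hc0 : c ≠ 0) (hc : PrI (sp c) 2) : Ord2 b (toC c * T) (toC c * T') := by
  have hu := h.up (sp_ne hc0) hb hc
  have h1 : ∀ z : ℂ, 2 * z ∈ Lam b → 2 * (toC c * z) ∈ Lam b := fun z hz => by
    have : 2 * (toC c * z) = toC c * (2 * z) := by ring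
    rw [this]
    exact lam_mul c hz
  refine ⟨h1 T h.t1, fun h' => hu.t2 (lam_sp.2 h'), h1 T' h.t3, fun h' => hu.t4 (lam_sp.2 h'), ?_⟩
  intro h'
  apply hu.t5
  rw [lam_sp, mul_sub]
  exact h'

end two

section main

variable {n t : ℕ} {Γ : Type} [LinearOrderedCommGroupWithZero Γ] {v : Valuation ℂ Γ}

theorem ine_t [h : Ine n t] : t = 1 := h.one

/-- A suitable element `w + 2 k`. -/
theorem exists_c [h : Ine n t] (hv : v 2 = 1) : ∃ k : ℕ, v ((Nm (wI n t + 2 * (k : OO n t)) : ℤ) : ℂ) = 1 := by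
  have ht := h.one
  have e : ∀ k : ℕ, Nm (wI n t + 2 * (k : OO n t)) = 4 * (k : ℤ) ^ 2 + 2 * k + n := by
    intro k
    have h1 : (wI n t + 2 * (k : OO n t)).re = 2 * k := by
      have : (2 * (k : OO n t)) = ((2 * k : ℕ) : OO n t) := by push_cast; rfl
      rw [this, QuadraticAlgebra.re_add, re_nat]
      simp [wI]
    have h2 : (wI n t + 2 * (k : OO n t)).im = 1 := by
      have : (2 * (k : OO n t)) = ((2 * k : ℕ) : OO n t) := by push_cast; rfl
      rw [this, QuadraticAlgebra.im_add, im_nat]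
      simp [wI]
    unfold Nm
    rw [h1, h2, ht]
    push_cast
    ring
  by_contra hcon
  rw [not_exists] at hcon
  have hlt : ∀ k : ℕ, v (((4 * (k : ℤ) ^ 2 + 2 * k + n : ℤ)) : ℂ) < 1 := by
    intro k
    rw [← e k]
    exact lt_of_le_of_ne (vint v _) (hcon k)
  have a0 := hlt 0
  have a1 := hlt 1
  have a2 := hlt 2
  norm_num at a0 a1 a2
  have b1 : v (6 : ℂ) < 1 := by
    have : (6 : ℂ) = (6 + n) - n := by ring
    refine lt_of_eq_of_lt (congrArg v this) (msub a1 a0)
  have b2 : v (20 : ℂ) < 1 := by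
    have : (20 : ℂ) = (20 + n) - n := by ring
    refine lt_of_eq_of_lt (congrArg v this) (msub a2 a0)
  have b3 : v (2 : ℂ) < 1 := by
    have : (2 : ℂ) = 20 - 3 * 6 := by norm_num
    rw [this]
    exact msub b2 (mmul (vof v 3) b1)
  rw [hv] at b3
  exact lt_irrefl _ b3

theorem cop_two_of_odd [h : Ine n t] (k : ℕ) : Cop (wI n t + 2 * (k : OO n t)) 2 := by
  have h2 : Cop (wI n t) 2 := by
    unfold Cop Nm
    simp only [wI]
    have h3 := h.odd
    have : (0 : ℤ) ^ 2 + t * 0 * 1 + n * 1 ^ 2 = n := by ring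
    rw [this]
    rw [Int.isCoprime_iff_gcd_eq_one]
    have : Nat.Coprime n 2 := by
      rw [Nat.coprime_two_right]
      exact Nat.odd_iff.2 h3
    simpa [Int.gcd] using this
  refine cop_congr ?_ h2
  refine ⟨-(k : OO n t), ?_⟩
  push_cast
  ring

open Classical in
/-- THE MAIN STEP: two of the roots cannot be closer than the third. -/
theorem leg_core [Ine n t] (hv : v 2 = 1) {b : Ideal (OO n t)} (hb : b ≠ ⊥) {T T' : ℂ} (h : Ord2 b T T') :
    ¬ v (wpC b (T + T') - wpC b T') < v (wpC b T' - wpC b T) := by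
  intro hlt
  obtain ⟨g1, g2, g3, g4⟩ := h.g hb
  set e := wpC b T with he
  set s := wpC b T' - wpC b T with hs
  obtain ⟨hs0, e2, e4, e6, e8, -⟩ := leg_c (la := xx b e s (T + T')) hb h rfl
  rw [← he, ← hs] at e2 e4 e6 e8
  rw [← hs] at hs0
  set la := xx b e s (T + T') with hla
  have hsv : v s ≠ 0 := by
    intro h0
    rw [h0] at hlt
    exact not_lt_zero hlt
  have k1 : v (la - 1) < 1 := by
    have : la - 1 = (wpC b (T + T') - wpC b T') / s := by
      rw [hla]
      unfold xx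
      rw [he]
      field_simp
      rw [hs]
      ring
    rw [this, v.map_div]
    exact (div_lt_one₀ (zero_lt_iff.2 hsv)).2 hlt
  have k2 : v la = 1 := vone k1
  have hic : ICd v b e s := by
    refine ⟨hs0, ?_, ?_, ?_, ?_⟩
    · rw [e2]
      exact vmul (vneg (vof v 4)) (vadd (by rw [v.map_one]) k2.le)
    · rw [e4]
      exact vmul (vof v 2) k2.le
    · rw [e6, v.map_zero]
      exact zero_le_one
    · rw [e8]
      exact vneg (vpow k2.le 2)
  have hK := sVCrd n t Γ v b e s hb hic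
  obtain ⟨k, hk⟩ := exists_c (n := n) (t := t) hv
  set c := wI n t + 2 * (k : OO n t) with hc
  have hcop : Cop c 2 := cop_two_of_odd k
  have hc0 : c ≠ 0 := by
    intro h0
    rw [h0, Nm_zero] at hk
    simp at hk
  have hpr : PrI (sp c) 2 := (aO6 n t).2.2.2.1 2 c two_pos |>.2 hcop
  obtain ⟨-, -, R, hR, -⟩ := aL3 n t (sp c) b (sp_ne hc0) hb
  have hcC : toC c ≠ 0 := toC_ne hc0
  have B7 := (aB7 n t b hb).1 c hc0
  have hxc : ∀ z : ℂ, xx (sp c * b) (toC c ^ 2 * e) (toC c ^ 2 * s) z = xx b e s (toC c * z) := by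
    intro z
    unfold xx
    rw [(B7.1 z).1, ← mul_sub]
    exact mul_div_mul_left _ _ (pow_ne_zero 2 hcC)
  obtain ⟨C, hC, -, hD⟩ := sVPr n t (sp c) b (sp_ne hc0) hb hpr R hR e s (toC c ^ 2 * e) (toC c ^ 2 * s) T T' hs0
    (mul_ne_zero (pow_ne_zero 2 hcC) hs0) h
  have hCv : v C ≤ 1 := by
    have e1 : toC c ^ 2 * s / s = toC c ^ 2 := by field_simp
    rw [hC, e1]
    refine vmul (vpow (v_toC c) 2) (vprod _ _ fun u hu => ?_)
    by_cases hu' : u ∈ Lam b
    · rw [if_pos hu', v.map_one]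
    · rw [if_neg hu']
      have hxT : xx b e s T = 0 := by
        unfold xx
        rw [he]
        simp
      rw [hxT, sub_zero]
      by_contra hcon
      exact hu' (ker_Nm hK (Or.inr (not_le.1 hcon)) hk (lam_sp.1 (hR.mem u hu)))
  have hL : v (((xx b e s T' - xx b e s T) * (xx b e s (T + T') - xx b e s T)) ^ R.card) = 1 := by
    have hxT : xx b e s T = 0 := by
      unfold xx
      rw [he]
      simp
    have hxT' : xx b e s T' = 1 := by
      unfold xx
      rw [← hs]
      exact div_self hs0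
    rw [hxT, hxT', ← hla, v.map_pow, sub_zero, sub_zero, one_mul, k2, one_pow]
  rw [hD, hxc, hxc, hxc] at hL
  have hmul := h.ml hb hc0 hpr
  have hDc := hmul.D hb
  have hR' : v ((xx b e s (toC c * T') - xx b e s (toC c * T)) *
      (xx b e s (toC c * (T + T')) - xx b e s (toC c * T))) < 1 := by
    have e1 : (xx b e s (toC c * T') - xx b e s (toC c * T)) *
      (xx b e s (toC c * (T + T')) - xx b e s (toC c * T)) =
        (3 * wpC b (toC c * T) ^ 2 - (LP b).g₂ / 4) / s ^ 2 := by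
      rw [← hDc, mul_add]
      unfold xx
      field_simp
      ring
    rw [e1]
    have cw : ∀ U : ℂ, toC (wI n t) * T - U ∈ Lam b → wpC b (toC c * T) = wpC b U := by
      intro U hU
      apply wpC_congr hb
      have : toC c * T - U = (toC (wI n t) * T - U) + toC (k : OO n t) * (2 * T) := by
        rw [hc, toC_add, toC_mul, toC_two]
        ring
      rw [this]
      exact lam_add hU (lam_mul _ h.t1)
    rcases h.w hb with hw | hw
    · rw [cw T' hw]
      have hD' := h.sy.D hb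
      rw [← hD', add_comm T' T]
      have e3 : (wpC b T - wpC b T') * (wpC b (T + T') - wpC b T') / s ^ 2 = -(la - 1) := by
        rw [hla]
        unfold xx
        rw [he]
        field_simp
        rw [hs]
        ring
      rw [e3, v.map_neg]
      exact k1
    · rw [cw (T + T') hw]
      have h3 : Ord2 b (T + T') T := h.rot.sy
      have hD' := h3.D hb
      have e5 : wpC b (T + T' + T) = wpC b T' := by
        apply wpC_congr hb
        have : T + T' + T - T' = 2 * T := by ring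
        rw [this]
        exact h.t1
      rw [← hD', e5]
      have e3 : (wpC b T - wpC b (T + T')) * (wpC b T' - wpC b (T + T')) / s ^ 2 = la * (la - 1) := by
        rw [hla]
        unfold xx
        rw [he]
        field_simp
        rw [hs]
        ring
      rw [e3]
      exact mmul k2.le k1
  have hfin : v (C ^ 2 * ((xx b e s (toC c * T') - xx b e s (toC c * T)) *
      (xx b e s (toC c * (T + T')) - xx b e s (toC c * T)))) < 1 := mmul (vpow hCv 2) hR'
  rw [hL] at hfin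
  exact lt_irrefl _ hfin

theorem leg_eq [Ine n t] (hv : v 2 = 1) {b : Ideal (OO n t)} (hb : b ≠ ⊥) {T T' : ℂ} (h : Ord2 b T T') :
    v (wpC b (T + T') - wpC b T') = v (wpC b T' - wpC b T) ∧
    v (wpC b (T + T') - wpC b T) = v (wpC b T' - wpC b T) := by
  have hA : ∀ {U U' : ℂ}, Ord2 b U U' → wpC b (U' + (U + U')) = wpC b U := by
    intro U U' hU
    apply wpC_congr hb
    have : U' + (U + U') - U = 2 * U' := by ring
    rw [this]
    exact hU.t3
  have step : ∀ {U U' : ℂ}, Ord2 b U U' → v (wpC b (U + U') - wpC b U') = v (wpC b U' - wpC b U) := by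
    intro U U' hU
    refine le_antisymm ?_ (not_lt.1 (leg_core hv hb hU))
    have h1 : Ord2 b (U + U') U' := by
      have := hU.sy.rot.sy
      rwa [add_comm U' U] at this
    have h2 := not_lt.1 (leg_core hv hb h1)
    have e : wpC b (U + U' + U') = wpC b U := by
      rw [add_comm (U + U') U']
      exact hA hU
    rw [e, v.map_sub_swap (wpC b U') (wpC b (U + U')), v.map_sub_swap (wpC b U) (wpC b U')] at h2
    exact h2
  have s1 := step h
  have s2 := step h.sy
  refine ⟨s1, ?_⟩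
  rw [add_comm T' T, v.map_sub_swap (wpC b T) (wpC b T')] at s2
  exact s2

end main

theorem sVLeg : S_VLeg := by
  intro n t _ Γ _ v hv b hb T T' h
  obtain ⟨hs0, e2, e4, e6, e8, ed⟩ := leg_c (la := xx b (wpC b T) (wpC b T' - wpC b T) (T + T')) hb h rfl
  obtain ⟨k1, k2⟩ := leg_eq hv hb h
  set s := wpC b T' - wpC b T with hs
  have hsv : v s ≠ 0 := (v.ne_zero_iff).2 hs0
  have l1 : v (xx b (wpC b T) s (T + T')) = 1 := by
    unfold xx
    rw [v.map_div, k2]
    exact div_self hsv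
  have l2 : v (1 - xx b (wpC b T) s (T + T')) = 1 := by
    have : 1 - xx b (wpC b T) s (T + T') = -((wpC b (T + T') - wpC b T') / s) := by
      unfold xx
      field_simp
      rw [hs]
      ring
    rw [this, v.map_neg, v.map_div, k1]
    exact div_self hsv
  refine ⟨⟨⟨hs0, ?_, ?_, ?_, ?_⟩, ?_⟩, l1, l2⟩
  · rw [e2]
    exact vmul (vneg (vof v 4)) (vadd (by rw [v.map_one]) l1.le)
  · rw [e4]
    exact vmul (vof v 2) l1.le
  · rw [e6, v.map_zero]
    exact zero_le_one
  · rw [e8]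
    exact vneg (vpow l1.le 2)
  · have h16 : (16 : ℂ) = 2 ^ 4 := by norm_num
    rw [ed, h16, v.map_mul, v.map_mul, v.map_pow, v.map_pow, v.map_pow, hv, l1, l2]
    simp

end Pool.Agent.DN
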