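import Pool.Agent.Lib.DN.R.VCrd

/-!
# Theorem DN, part R: the product formula for a coordinate (helper46)
-/

set_option autoImplicit false

open scoped Pointwise nonZeroDivisors

noncomputable section

namespace Pool.Agent.DN

open Pool.Agent.MuZ Pool.Agent.FW NumberField IsDedekindDomain
open Pool.Agent.DI (io ofC io_inj exists_io io_ofC ofC_io VP MP UP TP ex)

variable {n t : ℕ}

theorem Ord2.t6 {b : Ideal (OO n t)} {T T' : ℂ} (h : Ord2 b T T') : T + T' ∉ Lam b := by
  intro h1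
  apply h.t5
  have : T - T' = (T + T') - 2 * T' := by ring
  rw [this]
  exact lam_sub h1 h.t3

theorem Ord2.t7 {b : Ideal (OO n t)} {T T' : ℂ} (h : Ord2 b T T') : 2 * (T + T') ∈ Lam b := by
  rw [mul_add]
  exact lam_add h.t1 h.t3

theorem Ord2.sy {b : Ideal (OO n t)} {T T' : ℂ} (h : Ord2 b T T') : Ord2 b T' T :=
  ⟨h.t3, h.t4, h.t1, h.t2, fun h' => h.t5 (by rw [← neg_sub]; exact lam_neg h')⟩

theorem Ord2.rot {b : Ideal (OO n t)} {T T' : ℂ} (h : Ord2 b T T') : Ord2 b T (T + T') :=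
  ⟨h.t1, h.t2, h.t7, h.t6, fun h' => h.t4 (by
    have : T' = -(T - (T + T')) := by ring
    rw [this]
    exact lam_neg h')⟩

/-- A point of order two is not in `Lam (a b)`, `a` odd. -/
theorem two_not [SqN n t] {a b : Ideal (OO n t)} (ha : a ≠ ⊥) (hb : b ≠ ⊥) (ha2 : PrI a 2) {T : ℂ}
    (h1 : 2 * T ∈ Lam b) (h2 : T ∉ Lam b) : T ∉ Lam (a * b) := fun h3 =>
  h2 ((aL5 n t a b 2 ha hb two_pos ha2).1 T (by exact_mod_cast h1) h3)

/-- Points of order two stay different. -/
theorem Ord2.up [SqN n t] {a b : Ideal (OO n t)} (ha : a ≠ ⊥) (hb : b ≠ ⊥) (ha2 : PrI a 2) {T T' : ℂ}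
    (h : Ord2 b T T') : Ord2 (a * b) T T' :=
  ⟨lam_mono h.t1, two_not ha hb ha2 h.t1 h.t2, lam_mono h.t3, two_not ha hb ha2 h.t3 h.t4,
    two_not ha hb ha2 (by rw [mul_sub]; exact lam_sub h.t1 h.t3) h.t5⟩

theorem sVPr : S_VPr := by
  classical
  intro n t _ a b ha hb ha2 R hR e s e' s' T T' hs hs' hT
  have B8 := aB8 n t a b ha hb ha2 R hR T hT.t1 hT.t2
  refine ⟨_, rfl, ?_⟩
  set C := s' / s * ∏ u ∈ R, (if u ∈ Lam b then 1 else xx b e s u - xx b e s T) with hC
  have hxd : ∀ z : ℂ, xx b e s z - xx b e s T = (wpC b z - wpC b T) / s := by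
    intro z
    unfold xx
    ring
  have hxd' : ∀ z : ℂ, xx (a * b) e' s' z - xx (a * b) e' s' T = (wpC (a * b) z - wpC (a * b) T) / s' := by
    intro z
    unfold xx
    ring
  obtain ⟨u₀, hu₀, h0⟩ := hR.ex 0 (lam_zero _)
  have hu₀' : u₀ ∈ Lam b := by
    have := lam_neg h0
    simpa using this
  have h1 : ∏ u ∈ R, (if u ∈ Lam b then s else 1) = s := by
    rw [Finset.prod_eq_single u₀]
    · rw [if_pos hu₀']
    · intro u hu hne
      rw [if_neg]
      intro hu'
      exact hne (hR.uni u hu u₀ hu₀ (lam_sub hu' hu₀'))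
    · intro h
      exact absurd hu₀ h
  have h2 : (∏ u ∈ R, (if u ∈ Lam b then 1 else wpC b u - wpC b T)) * s =
      s ^ R.card * ∏ u ∈ R, (if u ∈ Lam b then 1 else xx b e s u - xx b e s T) := by
    conv_lhs => rw [← h1]
    rw [← Finset.prod_const, ← Finset.prod_mul_distrib, ← Finset.prod_mul_distrib]
    refine Finset.prod_congr rfl fun u _ => ?_
    by_cases h : u ∈ Lam b
    · rw [if_pos h, if_pos h, if_pos h]
      ring
    · rw [if_neg h, if_neg h, if_neg h, hxd]
      field_simp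
  have h3 : ∀ z : ℂ, z ∉ Lam (a * b) → ∏ u ∈ R, (xx b e s (z + u) - xx b e s T) =
      C * (xx (a * b) e' s' z - xx (a * b) e' s' T) := by
    intro z hz
    have h4 : s ^ R.card * ∏ u ∈ R, (xx b e s (z + u) - xx b e s T) =
        ∏ u ∈ R, (wpC b (z + u) - wpC b T) := by
      rw [← Finset.prod_const, ← Finset.prod_mul_distrib]
      refine Finset.prod_congr rfl fun u _ => ?_
      rw [hxd]
      field_simp
    apply mul_left_cancel₀ (pow_ne_zero R.card hs)
    rw [h4, B8.1 z hz, hC, hxd']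
    have h5 : s ^ R.card * (s' / s * (∏ u ∈ R, if u ∈ Lam b then 1 else xx b e s u - xx b e s T) *
        ((wpC (a * b) z - wpC (a * b) T) / s')) =
        (s ^ R.card * ∏ u ∈ R, if u ∈ Lam b then 1 else xx b e s u - xx b e s T) / s *
          (wpC (a * b) z - wpC (a * b) T) := by
      field_simp
    rw [h5, ← h2]
    field_simp
  refine ⟨h3, ?_⟩
  have hT' := hT.up ha hb ha2
  have h4 : ∀ u ∈ R, (xx b e s (T' + u) - xx b e s T) * (xx b e s (T + T' + u) - xx b e s T) =
      (xx b e s T' - xx b e s T) * (xx b e s (T + T') - xx b e s T) := by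
    intro u hu
    have hu' := hR.mem u hu
    have n1 : T' + u ∉ Lam b := by
      intro h
      apply hT'.t4
      have : T' = (T' + u) - u := by ring
      rw [this]
      exact lam_sub (lam_mono h) hu'
    have n2 : T' + u + T ∉ Lam b := by
      intro h
      apply hT'.t6
      have : T + T' = (T' + u + T) - u := by ring
      rw [this]
      exact lam_sub (lam_mono h) hu'
    have h5 := (aB4 n t b hb T T' hT.t1 hT.t2 hT.t3 hT.t4 hT.t5).2.2.2 (T' + u) n1 n2
    have e1 : T + T' + u = T' + u + T := by ring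
    rw [e1, hxd, hxd, hxd, hxd]
    rw [div_mul_div_comm, div_mul_div_comm, ← h5]
    ring
  rw [← Finset.prod_const]
  rw [← Finset.prod_congr rfl h4, Finset.prod_mul_distrib, h3 T' hT'.t4, h3 (T + T') hT'.t6]
  ring

end Pool.Agent.DN
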